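import Pool.Agent.H397R2.PP.Defs

set_option autoImplicit false

/-! TASK B0: the `q`-expansion of the discriminant. -/

namespace Pool.Agent.H397R2.PP

open PowerSeries MatrixGroups Filter Topology

namespace B0

theorem pent_map (R : Type*) [CommRing R] :
    (pentagonalSeries ℤ).map (Int.castRingHom R) = pentagonalSeries R := by
  ext n
  rw [coeff_map]
  by_cases h : n ∈ Set.range pentagonal
  · obtain ⟨k, rfl⟩ := h
    rw [coeff_pentagonalSeries_pentagonal, coeff_pentagonalSeries_pentagonal]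
    simp
  · rw [coeff_pentagonalSeries_eq_zero _ h, coeff_pentagonalSeries_eq_zero _ h, map_zero]

theorem norm_coeff_pent_le (n : ℕ) : ‖coeff n (pentagonalSeries ℂ)‖ ≤ 1 := by
  by_cases h : n ∈ Set.range pentagonal
  · obtain ⟨k, rfl⟩ := h
    rw [coeff_pentagonalSeries_pentagonal]
    rcases Int.even_or_odd k with hk | hk
    · rw [Int.negOnePow_even k hk]; simp
    · rw [Int.negOnePow_odd k hk]; simp
  · rw [coeff_pentagonalSeries_eq_zero _ h, norm_zero]; exact zero_le_one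

/-- absolutely convergent evaluation of a power series -/
def Ev (q : ℂ) (P : ℂ⟦X⟧) (a : ℂ) : Prop :=
  Summable (fun n => ‖coeff n P * q ^ n‖) ∧ HasSum (fun n => coeff n P * q ^ n) a

theorem Ev.mul {q : ℂ} {P Q : ℂ⟦X⟧} {a b : ℂ} (hP : Ev q P a) (hQ : Ev q Q b) :
    Ev q (P * Q) (a * b) := by
  have h1 : ∀ n, coeff n (P * Q) * q ^ n
      = ∑ kl ∈ Finset.HasAntidiagonal.antidiagonal n,
        (coeff kl.1 P * q ^ kl.1) * (coeff kl.2 Q * q ^ kl.2) := by
    intro n
    rw [coeff_mul, Finset.sum_mul]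
    refine Finset.sum_congr rfl fun kl hkl => ?_
    rw [Finset.HasAntidiagonal.mem_antidiagonal] at hkl
    rw [← hkl, pow_add]
    ring
  have h2 := summable_norm_sum_mul_antidiagonal_of_summable_norm hP.1 hQ.1
  have h3 := tsum_mul_tsum_eq_tsum_sum_antidiagonal_of_summable_norm hP.1 hQ.1
  rw [hP.2.tsum_eq, hQ.2.tsum_eq] at h3
  constructor
  · simpa only [h1] using h2
  · simp only [h1]
    rw [h3]
    exact h2.of_norm.hasSum

theorem Ev.one (q : ℂ) : Ev q 1 1 := by
  have h := hasSum_single (f := fun n => coeff n (1 : ℂ⟦X⟧) * q ^ n) 0 (by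
    intro n hn
    simp only [coeff_one, if_neg hn, zero_mul])
  simp only [coeff_zero_eq_constantCoeff, map_one, pow_zero, mul_one] at h
  exact ⟨h.summable.norm, h⟩

theorem Ev.X (q : ℂ) : Ev q X q := by
  have h := hasSum_single (f := fun n => coeff n (PowerSeries.X : ℂ⟦X⟧) * q ^ n) 1 (by
    intro n hn
    simp only [coeff_X, if_neg hn, zero_mul])
  simp only [coeff_one_X, pow_one, one_mul] at h
  exact ⟨h.summable.norm, h⟩

theorem Ev.pow {q : ℂ} {P : ℂ⟦X⟧} {a : ℂ} (hP : Ev q P a) (n : ℕ) : Ev q (P ^ n) (a ^ n) := by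
  induction n with
  | zero => simpa using Ev.one q
  | succ n ih => rw [pow_succ, pow_succ]; exact ih.mul hP

/-- a uniform bound for the partial products -/
theorem prod_bound {q : ℂ} (hq : ‖q‖ < 1) (k n : ℕ) :
    ‖∏ i ∈ Finset.range n, (1 - q ^ (k + i + 1))‖ ≤ Real.exp ((1 - ‖q‖)⁻¹) := by
  have hr0 : 0 ≤ ‖q‖ := norm_nonneg q
  calc ‖∏ i ∈ Finset.range n, (1 - q ^ (k + i + 1))‖
      ≤ ∏ i ∈ Finset.range n, ‖1 - q ^ (k + i + 1)‖ := by rw [norm_prod]
    _ ≤ ∏ i ∈ Finset.range n, Real.exp (‖q‖ ^ i) := by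
        apply Finset.prod_le_prod (fun i _ => norm_nonneg _)
        intro i _
        have h1 : ‖1 - q ^ (k + i + 1)‖ ≤ 1 + ‖q‖ ^ (k + i + 1) := by
          refine (norm_sub_le _ _).trans ?_
          rw [norm_one, norm_pow]
        have h2 : ‖q‖ ^ (k + i + 1) ≤ ‖q‖ ^ i := pow_le_pow_of_le_one hr0 hq.le (by omega)
        have h3 := Real.add_one_le_exp (‖q‖ ^ i)
        linarith
    _ = Real.exp (∑ i ∈ Finset.range n, ‖q‖ ^ i) := (Real.exp_sum _ _).symm
    _ ≤ Real.exp ((1 - ‖q‖)⁻¹) := by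
        apply Real.exp_le_exp.mpr
        rw [← tsum_geometric_of_lt_one hr0 hq]
        exact (summable_geometric_of_lt_one hr0 hq).sum_le_tsum _ (fun i _ => pow_nonneg hr0 i)

theorem term_bound {q : ℂ} (hq : ‖q‖ < 1) (k n : ℕ) :
    ‖q ^ ((k + 1) * n) * ∏ i ∈ Finset.range (n + 1), (1 - q ^ (k + i + 1))‖
      ≤ Real.exp ((1 - ‖q‖)⁻¹) * ‖q‖ ^ n := by
  have hr0 : 0 ≤ ‖q‖ := norm_nonneg q
  rw [norm_mul, norm_pow, mul_comm]
  apply mul_le_mul (prod_bound hq k (n + 1)) _ (by positivity) (by positivity)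
  exact pow_le_pow_of_le_one hr0 hq.le (Nat.le_mul_of_pos_left n (by omega))

theorem pent_neg_ge (k : ℕ) : k ≤ pentagonal (-(k : ℤ)) := by
  have h := two_mul_natCast_pentagonal_neg (k : ℤ)
  have : 2 * (k : ℤ) ≤ 2 * (pentagonal (-(k : ℤ)) : ℤ) := by
    rw [h]; nlinarith
  omega

theorem pent_succ_ge (k : ℕ) : k ≤ pentagonal ((k : ℤ) + 1) := by
  have h := two_mul_natCast_pentagonal ((k : ℤ) + 1)
  have : 2 * (k : ℤ) ≤ 2 * (pentagonal ((k : ℤ) + 1) : ℤ) := by
    rw [h]; nlinarith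
  omega

theorem pnt_tprod {q : ℂ} (hq : ‖q‖ < 1) :
    ∏' n, (1 - q ^ (n + 1)) =
      ∑' (k : ℕ), (-1) ^ k * (q ^ pentagonal (-k) - q ^ pentagonal (k + 1)) := by
  have hr0 : 0 ≤ ‖q‖ := norm_nonneg q
  have hgeo := summable_geometric_of_lt_one hr0 hq
  have hsum : ∀ k, Summable
      (fun n ↦ q ^ ((k + 1) * n) * ∏ i ∈ Finset.range (n + 1), (1 - q ^ (k + i + 1))) :=
    fun k => Summable.of_norm_bounded (hgeo.mul_left _) (term_bound hq k)
  refine Pentagonal.tprod_one_sub_pow ?_ hsum ?_ ?_ ?_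
  · exact tendsto_pow_atTop_nhds_zero_of_norm_lt_one hq
  · intro k
    have h := multipliable_one_add_of_summable (f := fun n : ℕ => -q ^ (n + k + 1)) (by
      refine Summable.of_nonneg_of_le (fun _ => norm_nonneg _) (fun n => ?_) hgeo
      rw [norm_neg, norm_pow]
      exact pow_le_pow_of_le_one hr0 hq.le (by omega))
    simpa only [← sub_eq_add_neg] using h
  · refine Summable.of_norm_bounded (hgeo.mul_left 2) (fun k => ?_)
    rw [norm_mul, norm_pow, norm_neg, norm_one, one_pow, one_mul]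
    refine (norm_sub_le _ _).trans ?_
    rw [norm_pow, norm_pow]
    have h1 : ‖q‖ ^ pentagonal (-(k : ℤ)) ≤ ‖q‖ ^ k :=
      pow_le_pow_of_le_one hr0 hq.le (pent_neg_ge k)
    have h2 : ‖q‖ ^ pentagonal ((k : ℤ) + 1) ≤ ‖q‖ ^ k :=
      pow_le_pow_of_le_one hr0 hq.le (pent_succ_ge k)
    linarith
  · have hb : ∀ k : ℕ, ‖(-1) ^ (k + 1) * q ^ ((k + 1) * (3 * k + 4) / 2) *
        ∑' (n : ℕ), q ^ ((k + 1) * n) * ∏ i ∈ Finset.range (n + 1), (1 - q ^ (k + i + 1))‖
        ≤ (Real.exp ((1 - ‖q‖)⁻¹) * ∑' n : ℕ, ‖q‖ ^ n) * ‖q‖ ^ k := by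
      intro k
      rw [norm_mul, norm_mul, norm_pow, norm_neg, norm_one, one_pow, one_mul, norm_pow, mul_comm]
      apply mul_le_mul _ _ (by positivity) (by positivity)
      · rw [← tsum_mul_left]
        exact tsum_of_norm_bounded (hgeo.mul_left _).hasSum (term_bound hq k)
      · apply pow_le_pow_of_le_one hr0 hq.le
        rw [Nat.le_div_iff_mul_le (by norm_num)]
        nlinarith
    apply squeeze_zero_norm hb
    have := (tendsto_pow_atTop_nhds_zero_of_lt_one hr0 hq).const_mul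
      (Real.exp ((1 - ‖q‖)⁻¹) * ∑' n : ℕ, ‖q‖ ^ n)
    simpa using this

theorem Ev.pent {q : ℂ} (hq : ‖q‖ < 1) :
    Ev q (pentagonalSeries ℂ) (∏' n, (1 - q ^ (n + 1))) := by
  have hr0 : 0 ≤ ‖q‖ := norm_nonneg q
  have hs : Summable fun n => ‖coeff n (pentagonalSeries ℂ) * q ^ n‖ := by
    refine Summable.of_nonneg_of_le (fun _ => norm_nonneg _) (fun n => ?_)
      (summable_geometric_of_lt_one hr0 hq)
    rw [norm_mul, norm_pow]
    exact mul_le_of_le_one_left (pow_nonneg hr0 n) (norm_coeff_pent_le n)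
  refine ⟨hs, ?_⟩
  have h0 := hs.of_norm.hasSum
  have h1 := (pentagonal_injective.hasSum_iff (f := fun n => coeff n (pentagonalSeries ℂ) * q ^ n)
    (a := ∑' n, coeff n (pentagonalSeries ℂ) * q ^ n)
    (fun n hn ↦ by simp [coeff_pentagonalSeries_eq_zero ℂ hn])).mpr h0
  rw [← neg_injective.hasSum_iff (fun x hx ↦ by absurd hx; use -x; simp)] at h1
  have h2 := h1.nat_add_neg_add_one
  have h3 : HasSum (fun k : ℕ ↦ (-1) ^ k * (q ^ pentagonal (-k) - q ^ pentagonal (k + 1)))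
      (∑' n, coeff n (pentagonalSeries ℂ) * q ^ n) := by
    convert h2 using 2 with k
    simp_rw [Function.comp_apply, neg_neg, coeff_pentagonalSeries_pentagonal, Int.negOnePow_add]
    simp
    ring
  rw [pnt_tprod hq, h3.tsum_eq]
  exact h0

end B0

open B0 in
theorem qExpansion_discriminant :
    UpperHalfPlane.qExpansion 1 ModularForm.discriminant = Dz.map (Int.castRingHom ℂ) := by
  have hD : Dz.map (Int.castRingHom ℂ) = X * (pentagonalSeries ℂ) ^ 24 := by
    unfold Dz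
    rw [map_mul, map_pow, map_X, pent_map]
  have h : ∀ τ : UpperHalfPlane, HasSum (fun m => coeff m (Dz.map (Int.castRingHom ℂ)) •
      Function.Periodic.qParam 1 τ ^ m) (CuspForm.discriminant τ) := by
    intro τ
    have hq : ‖Function.Periodic.qParam 1 τ‖ < 1 :=
      Function.Periodic.norm_qParam_lt_one one_pos τ.im_pos
    have h1 := (Ev.X (Function.Periodic.qParam 1 τ)).mul ((Ev.pent hq).pow 24)
    rw [← hD] at h1
    have h2 : (CuspForm.discriminant τ : ℂ) = Function.Periodic.qParam 1 τ *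
        (∏' n, (1 - Function.Periodic.qParam 1 τ ^ (n + 1))) ^ 24 := by
      show ModularForm.discriminant τ = _
      rw [ModularForm.discriminant_eq_q_prod]
      congr 1
      exact (ModularForm.multipliable_one_sub_pow hq).tprod_pow _
    rw [h2]
    exact h1.2
  ext m
  have h3 := ModularFormClass.qExpansion_coeff_unique (f := CuspForm.discriminant) one_pos
    one_mem_strictPeriods_SL h m
  exact h3.symm

end Pool.Agent.H397R2.PP
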