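import Pool.Agent.H397R2.PP.Defs

set_option autoImplicit false

/-! Task B1: integral level one forms modulo 2 are polynomials in `Δ`. -/

namespace Pool.Agent.H397R2.PP

open PowerSeries MatrixGroups

namespace B1

open UpperHalfPlane ModularForm EisensteinSeries

/-- the integral `q`-expansion of `E₄` -/
noncomputable def e4 : ℤ⟦X⟧ :=
  PowerSeries.mk fun n => if n = 0 then 1 else 240 * (ArithmeticFunction.sigma 3 n : ℤ)

theorem e4_map : qExpansion 1 E₄ = e4.map (Int.castRingHom ℂ) := by
  ext n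
  rw [EisensteinSeries.E_qExpansion_coeff _ ⟨2, rfl⟩, PowerSeries.coeff_map, e4,
    PowerSeries.coeff_mk]
  split_ifs with h
  · simp
  · norm_num [show bernoulli 4 = -1 / 30 by decide +kernel]

theorem e4_mod : e4.map (Int.castRingHom (ZMod 2)) = 1 := by
  ext n
  rw [PowerSeries.coeff_map, e4, PowerSeries.coeff_mk, PowerSeries.coeff_one]
  split_ifs with h
  · simp
  · have : (240 : ZMod 2) = 0 := by decide
    simp [this]

theorem Dz_map : Dz.map (Int.castRingHom (ZMod 2)) = Db := by
  rw [Dz, Db, map_mul, PowerSeries.map_X, map_pow]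
  congr 2
  ext n
  rw [PowerSeries.coeff_map]
  by_cases h : n ∈ Set.range pentagonal
  · obtain ⟨k, rfl⟩ := h
    rw [PowerSeries.coeff_pentagonalSeries_pentagonal, PowerSeries.coeff_pentagonalSeries_pentagonal]
    simp
  · rw [PowerSeries.coeff_pentagonalSeries_eq_zero _ h, PowerSeries.coeff_pentagonalSeries_eq_zero _ h]
    simp

theorem pent_const : constantCoeff ((pentagonalSeries ℤ) ^ 24) = 1 := by
  rw [map_pow]
  have h : constantCoeff (pentagonalSeries ℤ) = 1 := by
    have h0 : (0 : ℕ) = pentagonal 0 := by decide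
    rw [← PowerSeries.coeff_zero_eq_constantCoeff_apply, h0,
      PowerSeries.coeff_pentagonalSeries_pentagonal]
    simp
  rw [h, one_pow]

/-- an integral series with vanishing constant term is divisible by `Dz`. -/
theorem exists_mul_Dz (R0 : ℤ⟦X⟧) (h : constantCoeff R0 = 0) : ∃ Q : ℤ⟦X⟧, R0 = Dz * Q := by
  obtain ⟨R, hR⟩ := PowerSeries.X_dvd_iff.2 h
  refine ⟨R * invOfUnit ((pentagonalSeries ℤ) ^ 24) 1, ?_⟩
  have hi := PowerSeries.mul_invOfUnit ((pentagonalSeries ℤ) ^ 24) 1 (by rw [pent_const]; rfl)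
  calc R0 = X * R * 1 := by rw [hR, mul_one]
    _ = X * R * ((pentagonalSeries ℤ) ^ 24 * invOfUnit ((pentagonalSeries ℤ) ^ 24) 1) := by rw [hi]
    _ = _ := by rw [Dz]; ring

theorem map_injC : Function.Injective (PowerSeries.map (Int.castRingHom ℂ)) := by
  intro a b hab
  ext n
  have := congrArg (PowerSeries.coeff n) hab
  rw [PowerSeries.coeff_map, PowerSeries.coeff_map] at this
  simpa using this

theorem Dz_ne_zero : Dz ≠ 0 := by
  intro h
  have h1 := congrArg (PowerSeries.coeff 1) h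
  rw [Dz, show (1 : ℕ) = 0 + 1 from rfl, PowerSeries.coeff_succ_X_mul,
    PowerSeries.coeff_zero_eq_constantCoeff_apply, pent_const] at h1
  simp at h1

/-- the induction step: subtract a multiple of `E₄ ^ (3 (m+1))` and divide by `Δ`. -/
theorem step
    (hD : UpperHalfPlane.qExpansion 1 ModularForm.discriminant = Dz.map (Int.castRingHom ℂ))
    (m : ℕ) (P : ℤ⟦X⟧) (h : IsMF (m + 1) P) :
    ∃ Q : ℤ⟦X⟧, IsMF m Q ∧ P = C (coeff 0 P) * e4 ^ (3 * (m + 1)) + Dz * Q := by
  obtain ⟨f, hf⟩ := h
  set a : ℤ := coeff 0 P with ha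
  let G : ModularForm 𝒮ℒ (12 * ((m + 1 : ℕ) : ℤ)) :=
    ModularForm.mcast (by push_cast; ring) (E₄.pow (3 * (m + 1)))
  have hG : qExpansion 1 G = (e4 ^ (3 * (m + 1))).map (Int.castRingHom ℂ) := by
    simp only [G, ModularForm.qExpansion_mcast,
      ModularForm.qExpansion_pow one_pos one_mem_strictPeriods_SL, e4_map, map_pow]
  let g : ModularForm 𝒮ℒ (12 * ((m + 1 : ℕ) : ℤ)) := f - (a : ℂ) • G
  have hg : qExpansion 1 g = (P - C a * e4 ^ (3 * (m + 1))).map (Int.castRingHom ℂ) := by
    simp only [g, FunLike.coe_sub]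
    rw [ModularForm.qExpansion_sub one_pos one_mem_strictPeriods_SL f ((a : ℂ) • G)]
    rw [FunLike.coe_smul, ModularForm.qExpansion_smul one_pos one_mem_strictPeriods_SL (a : ℂ) G, hf,
      hG, map_sub, map_mul, PowerSeries.map_C, PowerSeries.smul_eq_C_mul]
    simp
  have he4 : constantCoeff e4 = 1 := by
    rw [← PowerSeries.coeff_zero_eq_constantCoeff_apply, e4, PowerSeries.coeff_mk]
    simp
  have hconst : constantCoeff (P - C a * e4 ^ (3 * (m + 1))) = 0 := by
    rw [map_sub, map_mul, map_pow, he4, ha, PowerSeries.coeff_zero_eq_constantCoeff_apply]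
    simp
  have hcusp : (qExpansion 1 g).coeff 0 = 0 := by
    rw [hg, PowerSeries.coeff_map, PowerSeries.coeff_zero_eq_constantCoeff_apply, hconst]
    simp
  have hmul := ModularForm.qExpansion_eq_qExpansion_discriminant_mul g hcusp
  obtain ⟨Q, hQ⟩ := exists_mul_Dz _ hconst
  refine ⟨Q, ⟨ModularForm.mcast (by push_cast; ring)
    (CuspForm.discriminantEquiv (toCuspForm g hcusp)), ?_⟩, ?_⟩
  · rw [ModularForm.qExpansion_mcast]
    rw [hg, hD, hQ, map_mul] at hmul
    have hne : Dz.map (Int.castRingHom ℂ) ≠ 0 := by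
      intro h
      exact Dz_ne_zero (map_injC (by rw [h, map_zero]))
    exact (mul_left_cancel₀ hne hmul).symm
  · rw [← hQ]; ring

end B1

/-- TASK B1. -/
theorem IsMF.mem_span
    (hD : UpperHalfPlane.qExpansion 1 ModularForm.discriminant = Dz.map (Int.castRingHom ℂ))
    (m : ℕ) (P : ℤ⟦X⟧) (h : IsMF m P) :
    P.map (Int.castRingHom (ZMod 2)) ∈
      Submodule.span (ZMod 2) (Set.range fun j : Fin (m + 1) => Db ^ (j : ℕ)) := by
  induction m generalizing P with
  | zero =>
    obtain ⟨f, hf⟩ := h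
    let f0 : ModularForm 𝒮ℒ 0 := ModularForm.mcast (by norm_num) f
    have hf0 : UpperHalfPlane.qExpansion 1 f0 = P.map (Int.castRingHom ℂ) := by
      rw [← hf]; rfl
    obtain ⟨c, hc⟩ := ModularFormClass.levelOne_weight_zero_const f0
    have hq : UpperHalfPlane.qExpansion 1 f0 = PowerSeries.C c := by
      have h1 : (f0 : UpperHalfPlane → ℂ) = c • (1 : ModularForm 𝒮ℒ 0) := by
        rw [hc]; ext z; simp
      rw [h1, ModularForm.qExpansion_smul one_pos one_mem_strictPeriods_SL,
        ModularForm.qExpansion_one, PowerSeries.smul_eq_C_mul, mul_one]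
    have hP : P = C (coeff 0 P) := by
      ext n
      rcases Nat.eq_zero_or_pos n with rfl | hn
      · simp
      · have h1 := congrArg (PowerSeries.coeff n) (hf0.symm.trans hq)
        rw [PowerSeries.coeff_map, PowerSeries.coeff_C, if_neg hn.ne'] at h1
        rw [PowerSeries.coeff_C, if_neg hn.ne']
        simpa using h1
    rw [hP, PowerSeries.map_C]
    have : (C ((Int.castRingHom (ZMod 2)) (coeff 0 P)) : (ZMod 2)⟦X⟧) =
        ((Int.castRingHom (ZMod 2)) (coeff 0 P)) • (Db ^ 0) := by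
      rw [PowerSeries.smul_eq_C_mul, pow_zero, mul_one]
    rw [this]
    exact Submodule.smul_mem _ _ (Submodule.subset_span ⟨0, rfl⟩)
  | succ m ih =>
    obtain ⟨Q, hQ, hPQ⟩ := B1.step hD m P h
    have h1 := ih Q hQ
    rw [hPQ, map_add, map_mul, map_mul, map_pow, B1.e4_mod, B1.Dz_map, one_pow, mul_one,
      PowerSeries.map_C]
    apply Submodule.add_mem
    · have : (C ((Int.castRingHom (ZMod 2)) (coeff 0 P)) : (ZMod 2)⟦X⟧) =
          ((Int.castRingHom (ZMod 2)) (coeff 0 P)) • (Db ^ 0) := by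
        rw [PowerSeries.smul_eq_C_mul, pow_zero, mul_one]
      rw [this]
      exact Submodule.smul_mem _ _ (Submodule.subset_span ⟨0, rfl⟩)
    · refine Submodule.span_induction (p := fun x _ => Db * x ∈
        Submodule.span (ZMod 2) (Set.range fun j : Fin (m + 1 + 1) => Db ^ (j : ℕ))) ?_ ?_ ?_ ?_ h1
      · rintro x ⟨j, rfl⟩
        refine Submodule.subset_span ⟨j.succ, ?_⟩
        simp only [Fin.val_succ]
        rw [pow_succ, mul_comm]
      · rw [mul_zero]; exact Submodule.zero_mem _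
      · intro x y _ _ hx hy
        rw [mul_add]; exact Submodule.add_mem _ hx hy
      · intro r x _ hx
        rw [mul_smul_comm]; exact Submodule.smul_mem _ _ hx

end Pool.Agent.H397R2.PP
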