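import Pool.Agent.H397R2.PP.Defs

set_option autoImplicit false

/-! TASK B2: powers of the discriminant. -/

namespace Pool.Agent.H397R2.PP

open PowerSeries MatrixGroups

theorem isMF_pow
    (hD : UpperHalfPlane.qExpansion 1 ModularForm.discriminant = Dz.map (Int.castRingHom ℂ))
    (m : ℕ) : IsMF m (Dz ^ m) := by
  let D : ModularForm 𝒮ℒ 12 := CuspForm.toModularFormₗ CuspForm.discriminant
  have hDc : (⇑D : UpperHalfPlane → ℂ) = ModularForm.discriminant := rfl
  refine ⟨ModularForm.mcast (by ring) (D.pow m), ?_⟩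
  rw [ModularForm.qExpansion_mcast, ModularForm.qExpansion_pow one_pos one_mem_strictPeriods_SL,
    hDc, hD, map_pow]

end Pool.Agent.H397R2.PP
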