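import Pool.Agent.H397R2.PP.Defs

set_option autoImplicit false

namespace Pool.Agent.H397R2.PP

open PowerSeries MatrixGroups ModularForm Complex Function
open UpperHalfPlane hiding I

lemma slash_pt {k : ℤ} (f : ModularForm 𝒮ℒ k) (a b c d : ℤ) (hdet : a * d - b * c = 1)
    (τ τ' : ℍ) (h : (τ' : ℂ) * (c * τ + d) = a * τ + b) :
    f τ' = ((c : ℂ) * τ + d) ^ k * f τ := by
  let γ : SL(2, ℤ) := ⟨!![a, b; c, d], by rw [Matrix.det_fin_two]; simpa using hdet⟩
  have hden : denom γ τ = (c : ℂ) * τ + d := by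
    rw [ModularGroup.denom_apply]; simp [γ]
  have hne : (c : ℂ) * τ + d ≠ 0 := by
    rw [← hden]; exact denom_ne_zero _ _
  have hτ : γ • τ = τ' := by
    ext
    rw [UpperHalfPlane.specialLinearGroup_apply]
    have e : (τ' : ℂ) = (a * τ + b) / ((c : ℂ) * τ + d) := by
      rw [eq_div_iff hne]; exact h
    rw [e]
    simp [γ]
  have hmem : Matrix.SpecialLinearGroup.mapGL ℝ γ ∈ 𝒮ℒ := ⟨γ, rfl⟩
  have := SlashInvariantForm.slash_action_eqn'' f hmem τ
  rw [← hτ, ← hden]
  exact this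


/-- the point `p τ` -/
noncomputable def mulPt (p : ℕ) (hp : 0 < p) (τ : ℍ) : ℍ :=
  ⟨(p : ℂ) * τ, by
    have : (0 : ℝ) < (p : ℝ) * τ.im := mul_pos (Nat.cast_pos.mpr hp) τ.im_pos
    simpa using this⟩

/-- the point `(τ + j) / p` -/
noncomputable def divPt (p : ℕ) (hp : 0 < p) (j : ℕ) (τ : ℍ) : ℍ :=
  ⟨((τ : ℂ) + j) / p, by
    have : (0 : ℝ) < τ.im / (p : ℝ) := div_pos τ.im_pos (Nat.cast_pos.mpr hp)
    rw [Complex.div_natCast_im]
    simpa using this⟩

@[simp] lemma coe_mulPt (p : ℕ) (hp : 0 < p) (τ : ℍ) : (mulPt p hp τ : ℂ) = (p : ℂ) * τ := rfl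
@[simp] lemma coe_divPt (p : ℕ) (hp : 0 < p) (j : ℕ) (τ : ℍ) :
    (divPt p hp j τ : ℂ) = ((τ : ℂ) + j) / p := rfl

/-- the Hecke operator on functions on the upper half plane -/
noncomputable def heckeFun (w p : ℕ) (hp : 0 < p) (f : ℍ → ℂ) (τ : ℍ) : ℂ :=
  (p : ℂ) ^ (w - 1) * f (mulPt p hp τ) +
    (1 / (p : ℂ)) * ∑ j ∈ Finset.range p, f (divPt p hp j τ)

lemma hasSum_mul_part {f : ℍ → ℂ} {a : ℕ → ℂ}
    (hf : ∀ τ : ℍ, HasSum (fun n => a n * Periodic.qParam 1 τ ^ n) (f τ))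
    (p : ℕ) (hp : 0 < p) (τ : ℍ) :
    HasSum (fun n => (if p ∣ n then a (n / p) else 0) * Periodic.qParam 1 τ ^ n)
      (f (mulPt p hp τ)) := by
  have hinj : Function.Injective (fun n : ℕ => p * n) := fun x y h => by
    simpa [hp.ne'] using h
  rw [← hinj.hasSum_iff]
  · convert hf (mulPt p hp τ) using 1
    funext n
    simp only [Function.comp]
    rw [if_pos (dvd_mul_right p n), Nat.mul_div_cancel_left n hp, pow_mul]
    congr 2
    simp only [Periodic.qParam, coe_mulPt, ← Complex.exp_nat_mul]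
    congr 1
    ring
  · intro x hx
    rw [if_neg, zero_mul]
    rintro ⟨c, rfl⟩
    exact hx ⟨c, rfl⟩

lemma sum_root (p : ℕ) (hp : 0 < p) (n : ℕ) :
    ∑ j ∈ Finset.range p, (Complex.exp (2 * Real.pi * I / p) ^ j) ^ n =
      if p ∣ n then (p : ℂ) else 0 := by
  have hprim := Complex.isPrimitiveRoot_exp p hp.ne'
  have e : ∀ j, (Complex.exp (2 * Real.pi * I / p) ^ j) ^ n =
      (Complex.exp (2 * Real.pi * I / p) ^ n) ^ j := by
    intro j; exact pow_right_comm _ _ _
  simp_rw [e]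
  split_ifs with h
  · have : Complex.exp (2 * Real.pi * I / p) ^ n = 1 := (hprim.pow_eq_one_iff_dvd n).mpr h
    simp [this]
  · have h1 : Complex.exp (2 * Real.pi * I / p) ^ n ≠ 1 := fun hh =>
      h ((hprim.pow_eq_one_iff_dvd n).mp hh)
    have h2 : (Complex.exp (2 * Real.pi * I / p) ^ n) ^ p = 1 := by
      rw [pow_right_comm, hprim.pow_eq_one, one_pow]
    have h3 := mul_geom_sum (Complex.exp (2 * Real.pi * I / p) ^ n) p
    rw [h2, sub_self] at h3
    exact (mul_eq_zero.mp h3).resolve_left (sub_ne_zero.mpr h1)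

lemma hasSum_div_part {f : ℍ → ℂ} {a : ℕ → ℂ}
    (hf : ∀ τ : ℍ, HasSum (fun n => a n * Periodic.qParam 1 τ ^ n) (f τ))
    (p : ℕ) (hp : 0 < p) (τ : ℍ) :
    HasSum (fun n => a (p * n) * Periodic.qParam 1 τ ^ n)
      ((1 / (p : ℂ)) * ∑ j ∈ Finset.range p, f (divPt p hp j τ)) := by
  have hp0 : (p : ℂ) ≠ 0 := by exact_mod_cast hp.ne'
  have h1 : HasSum (fun n => ∑ j ∈ Finset.range p,
      a n * Periodic.qParam 1 (divPt p hp j τ) ^ n) (∑ j ∈ Finset.range p, f (divPt p hp j τ)) :=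
    hasSum_sum fun j _ => hf (divPt p hp j τ)
  have h2 := h1.mul_left (1 / (p : ℂ))
  have hinj : Function.Injective (fun n : ℕ => p * n) := fun x y h => by
    simpa [hp.ne'] using h
  have hu : ∀ j : ℕ, Periodic.qParam 1 (divPt p hp j τ : ℂ) =
      Complex.exp (2 * Real.pi * I * τ / p) * Complex.exp (2 * Real.pi * I / p) ^ j := by
    intro j
    rw [← Complex.exp_nat_mul, ← Complex.exp_add]
    simp only [Periodic.qParam, coe_divPt]
    congr 1
    field_simp
    simp
  have h3 : ∀ n : ℕ, (1 / (p : ℂ)) * ∑ j ∈ Finset.range p,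
      a n * Periodic.qParam 1 (divPt p hp j τ) ^ n =
      if p ∣ n then a n * Complex.exp (2 * Real.pi * I * τ / p) ^ n else 0 := by
    intro n
    have : ∀ j, a n * Periodic.qParam 1 (divPt p hp j τ : ℂ) ^ n =
        (a n * Complex.exp (2 * Real.pi * I * τ / p) ^ n) *
          (Complex.exp (2 * Real.pi * I / p) ^ j) ^ n := by
      intro j; rw [hu, mul_pow]; ring
    simp_rw [this]
    rw [← Finset.mul_sum, sum_root p hp n]
    split_ifs with h
    · field_simp
    · simp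
  simp_rw [h3] at h2
  rw [← hinj.hasSum_iff] at h2
  · have e : (fun n => a (p * n) * Periodic.qParam 1 τ ^ n) =
        ((fun i => if p ∣ i then a i * Complex.exp (2 * Real.pi * I * τ / p) ^ i else 0) ∘
          fun n => p * n) := by
      funext n
      simp only [Function.comp]
      rw [if_pos (dvd_mul_right p n), pow_mul]
      congr 2
      rw [← Complex.exp_nat_mul]
      simp only [Periodic.qParam]
      congr 1
      field_simp
      simp
    rw [e]
    exact h2
  · intro x hx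
    rw [if_neg]
    rintro ⟨c, rfl⟩
    exact hx ⟨c, rfl⟩

lemma hasSum_hecke {f : ℍ → ℂ} {a : ℕ → ℂ}
    (hf : ∀ τ : ℍ, HasSum (fun n => a n * Periodic.qParam 1 τ ^ n) (f τ))
    (w p : ℕ) (hp : 0 < p) (τ : ℍ) :
    HasSum (fun n => (a (p * n) + if p ∣ n then (p : ℂ) ^ (w - 1) * a (n / p) else 0) *
      Periodic.qParam 1 τ ^ n) (heckeFun w p hp f τ) := by
  have h1 := (hasSum_mul_part hf p hp τ).mul_left ((p : ℂ) ^ (w - 1))
  have h2 := hasSum_div_part hf p hp τ
  have h3 := h1.add h2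
  unfold heckeFun
  have e : (fun n => (a (p * n) + if p ∣ n then (p : ℂ) ^ (w - 1) * a (n / p) else 0) *
      Periodic.qParam 1 τ ^ n) = (fun n => (p : ℂ) ^ (w - 1) *
        ((if p ∣ n then a (n / p) else 0) * Periodic.qParam 1 τ ^ n) +
        a (p * n) * Periodic.qParam 1 τ ^ n) := by
    funext n
    split_ifs <;> ring
  rw [e]
  exact h3


/-- the involution `j ↦ -1/j` modulo `p` -/
noncomputable def ninv (p j : ℕ) : ℕ := (-(j : ZMod p)⁻¹).val

lemma ninv_lt (p j : ℕ) [hp : Fact p.Prime] : ninv p j < p := ZMod.val_lt _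

lemma ninv_cast (p j : ℕ) [hp : Fact p.Prime] : ((ninv p j : ℕ) : ZMod p) = -(j : ZMod p)⁻¹ := by
  unfold ninv
  rw [ZMod.natCast_zmod_val]

lemma ninv_ninv (p j : ℕ) [hp : Fact p.Prime] (hj : j < p) : ninv p (ninv p j) = j := by
  have : (-((ninv p j : ℕ) : ZMod p)⁻¹) = (j : ZMod p) := by
    rw [ninv_cast]
    by_cases h : (j : ZMod p) = 0
    · rw [h]; simp
    · field_simp
  show (-((ninv p j : ℕ) : ZMod p)⁻¹).val = j
  rw [this, ZMod.val_natCast_of_lt hj]

lemma ninv_ne_zero (p j : ℕ) [hp : Fact p.Prime] (hj : j < p) (h0 : j ≠ 0) : ninv p j ≠ 0 := by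
  intro h
  have := ninv_ninv p j hj
  rw [h] at this
  have h2 : ninv p 0 = 0 := by simp [ninv]
  omega

lemma ninv_dvd (p j : ℕ) [hp : Fact p.Prime] (hj : j < p) (h0 : j ≠ 0) :
    ∃ b : ℤ, (j : ℤ) * (ninv p j : ℤ) + 1 = p * b := by
  have h1 : ((((j : ℤ) * (ninv p j : ℤ) + 1 : ℤ)) : ZMod p) = 0 := by
    push_cast
    rw [ninv_cast]
    have h : (j : ZMod p) ≠ 0 := by
      intro h
      rw [ZMod.natCast_eq_zero_iff] at h
      exact h0 (Nat.eq_zero_of_dvd_of_lt h hj)
    field_simp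
    simp
  rw [ZMod.intCast_zmod_eq_zero_iff_dvd] at h1
  exact h1

lemma hecke_S {k : ℤ} (f : ModularForm 𝒮ℒ k) (w : ℕ) (hw : 1 ≤ w) (hk : k = w) (p : ℕ)
    (hp : p.Prime) (τ τ' : ℍ) (h : (τ' : ℂ) * τ = -1) :
    heckeFun w p hp.pos f τ' = (τ : ℂ) ^ k * heckeFun w p hp.pos f τ := by
  have : Fact p.Prime := ⟨hp⟩
  have hp0 : (p : ℂ) ≠ 0 := by exact_mod_cast hp.ne_zero
  have hτ0 : (τ : ℂ) ≠ 0 := ne_zero τ
  have e1 : f (mulPt p hp.pos τ') = (((τ : ℂ) / p) ^ k) * f (divPt p hp.pos 0 τ) := by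
    have := slash_pt f 0 (-1) 1 0 (by norm_num) (divPt p hp.pos 0 τ) (mulPt p hp.pos τ') (by
      simp only [coe_mulPt, coe_divPt]
      push_cast
      field_simp
      linear_combination (p : ℂ) * h)
    rw [this]
    simp
  have e2 : f (divPt p hp.pos 0 τ') = (((p : ℂ) * τ) ^ k) * f (mulPt p hp.pos τ) := by
    have := slash_pt f 0 (-1) 1 0 (by norm_num) (mulPt p hp.pos τ) (divPt p hp.pos 0 τ') (by
      simp only [coe_mulPt, coe_divPt]
      push_cast
      field_simp
      linear_combination (p : ℂ) * h)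
    rw [this]
    simp
  have e3 : ∀ j ∈ (Finset.range p).erase 0, f (divPt p hp.pos j τ') =
      (τ : ℂ) ^ k * f (divPt p hp.pos (ninv p j) τ) := by
    intro j hj
    rw [Finset.mem_erase, Finset.mem_range] at hj
    obtain ⟨b, hb⟩ := ninv_dvd p j hj.2 hj.1
    have hbC : (j : ℂ) * (ninv p j : ℂ) + 1 = p * b := by exact_mod_cast hb
    have := slash_pt f j (-b) p (-(ninv p j : ℤ)) (by linear_combination -hb)
      (divPt p hp.pos (ninv p j) τ) (divPt p hp.pos j τ') (by
      simp only [coe_divPt]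
      push_cast
      field_simp
      linear_combination h - hbC)
    rw [this]
    congr 2
    simp only [coe_divPt]
    push_cast
    field_simp
    ring
  have e4 : ∑ j ∈ (Finset.range p).erase 0, f (divPt p hp.pos (ninv p j) τ) =
      ∑ j ∈ (Finset.range p).erase 0, f (divPt p hp.pos j τ) := by
    refine Finset.sum_nbij' (fun j => ninv p j) (fun j => ninv p j) ?_ ?_ ?_ ?_ ?_
    · intro j hj
      rw [Finset.mem_erase, Finset.mem_range] at hj ⊢
      exact ⟨ninv_ne_zero p j hj.2 hj.1, ninv_lt p j⟩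
    · intro j hj
      rw [Finset.mem_erase, Finset.mem_range] at hj ⊢
      exact ⟨ninv_ne_zero p j hj.2 hj.1, ninv_lt p j⟩
    · intro j hj
      rw [Finset.mem_erase, Finset.mem_range] at hj
      exact ninv_ninv p j hj.2
    · intro j hj
      rw [Finset.mem_erase, Finset.mem_range] at hj
      exact ninv_ninv p j hj.2
    · intro j _; rfl
  have h0 : 0 ∈ Finset.range p := Finset.mem_range.mpr hp.pos
  unfold heckeFun
  rw [← Finset.add_sum_erase _ _ h0, ← Finset.add_sum_erase (Finset.range p)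
    (fun j => f (divPt p hp.pos j τ)) h0, Finset.sum_congr rfl e3, ← Finset.mul_sum, e4, e1, e2]
  have hpk : (p : ℂ) ^ k = (p : ℂ) ^ (w - 1) * p := by
    rw [hk, zpow_natCast, ← pow_succ]
    congr 1
    omega
  rw [div_zpow, mul_zpow, hpk]
  have hpw : (p : ℂ) ^ (w - 1) ≠ 0 := pow_ne_zero _ hp0
  field_simp
  ring


open scoped Manifold in
lemma hecke_mdiff {f : ℍ → ℂ} (hf : MDiff f) (w p : ℕ) (hp : 0 < p) :
    MDiff (heckeFun w p hp f) := by
  rw [UpperHalfPlane.mdifferentiable_iff] at hf ⊢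
  have hpR : (0 : ℝ) < p := Nat.cast_pos.mpr hp
  have h1 : DifferentiableOn ℂ (fun z : ℂ => (f ∘ ofComplex) ((p : ℂ) * z)) {z | 0 < z.im} := by
    refine hf.comp (by fun_prop) ?_
    intro z hz
    simp only [Set.mem_ofPred_eq] at hz ⊢
    have : (0 : ℝ) < (p : ℝ) * z.im := mul_pos hpR hz
    simpa using this
  have h2 : ∀ j : ℕ, DifferentiableOn ℂ (fun z : ℂ => (f ∘ ofComplex) ((z + j) / p))
      {z | 0 < z.im} := by
    intro j
    refine hf.comp (by fun_prop) ?_
    intro z hz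
    simp only [Set.mem_ofPred_eq] at hz ⊢
    have : (0 : ℝ) < z.im / (p : ℝ) := div_pos hz hpR
    rw [Complex.div_natCast_im]
    simpa using this
  have h3 : DifferentiableOn ℂ (fun z : ℂ => (p : ℂ) ^ (w - 1) * (f ∘ ofComplex) ((p : ℂ) * z) +
      (1 / (p : ℂ)) * ∑ j ∈ Finset.range p, (f ∘ ofComplex) ((z + j) / p)) {z | 0 < z.im} := by
    refine (h1.const_mul _).add (DifferentiableOn.const_mul ?_ _)
    exact DifferentiableOn.fun_sum fun j _ => h2 j
  refine h3.congr ?_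
  intro z hz
  simp only [Set.mem_ofPred_eq] at hz
  simp only [Function.comp, heckeFun]
  have e0 : (ofComplex z : ℂ) = z := by rw [ofComplex_apply_of_im_pos hz]
  have e1 : mulPt p hp (ofComplex z) = ofComplex ((p : ℂ) * z) := by
    have : 0 < ((p : ℂ) * z).im := by
      have : (0 : ℝ) < (p : ℝ) * z.im := mul_pos hpR hz
      simpa using this
    ext
    rw [coe_mulPt, ofComplex_apply_of_im_pos this, e0]
  have e2 : ∀ j : ℕ, divPt p hp j (ofComplex z) = ofComplex ((z + j) / p) := by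
    intro j
    have : 0 < ((z + j) / p).im := by
      have : (0 : ℝ) < z.im / (p : ℝ) := div_pos hz hpR
      rw [Complex.div_natCast_im]
      simpa using this
    ext
    rw [coe_divPt, ofComplex_apply_of_im_pos this, e0]
  rw [e1]
  simp_rw [e2]

lemma qParam_T (τ τ' : ℍ) (h : (τ' : ℂ) = τ + 1) :
    Periodic.qParam 1 (τ' : ℂ) = Periodic.qParam 1 (τ : ℂ) := by
  rw [h]
  simp only [Periodic.qParam]
  rw [Complex.exp_eq_exp_iff_exists_int]
  refine ⟨1, ?_⟩
  push_cast
  ring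

/-- TASK B3. -/
theorem IsMF.hecke (m : ℕ) (hm : 1 ≤ m) (P : ℤ⟦X⟧) (h : IsMF m P) (p : ℕ) (hp : p.Prime) :
    IsMF m (TpZ (12 * m) p P) := by
  obtain ⟨f, hf⟩ := h
  have hs : ∀ τ : ℍ, HasSum (fun n => ((coeff n P : ℤ) : ℂ) * Periodic.qParam 1 τ ^ n) (f τ) := by
    intro τ
    have := ModularForm.hasSum_qExpansion f one_pos one_mem_strictPeriods_SL τ
    rw [hf] at this
    simpa using this
  have hg := hasSum_hecke hs (12 * m) p hp.pos
  set g : ℍ → ℂ := heckeFun (12 * m) p hp.pos f with hgdef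
  have hS : g ∣[(12 * (m : ℤ))] ModularGroup.S = g := by
    ext τ
    rw [SL_slash_apply, UpperHalfPlane.modular_S_smul]
    rw [hgdef, hecke_S f (12 * m) (by omega) (by push_cast; ring) p hp τ _ (by
      have := ne_zero τ
      field_simp)]
    have hd : denom (ModularGroup.S : SL(2, ℤ)) τ = (τ : ℂ) := ModularGroup.denom_S τ
    rw [hd, zpow_neg]
    have := zpow_ne_zero (12 * (m : ℤ)) (ne_zero τ)
    field_simp
  have hT : g ∣[(12 * (m : ℤ))] ModularGroup.T = g := by
    ext τ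
    have e1 : (g ∣[(12 * (m : ℤ))] ModularGroup.T) τ = g ((1 : ℝ) +ᵥ τ) := by
      rw [SL_slash_apply, UpperHalfPlane.modular_T_smul]
      have hd : denom (ModularGroup.T : SL(2, ℤ)) τ = 1 := by
        rw [ModularGroup.denom_apply]; simp [ModularGroup.T]
      rw [hd]
      simp
    rw [e1]
    have e2 := hg ((1 : ℝ) +ᵥ τ)
    rw [qParam_T τ ((1 : ℝ) +ᵥ τ) (by simp [add_comm])] at e2
    exact e2.unique (hg τ)
  have hb : IsBoundedAtImInfty g :=
    UpperHalfPlane.isBoundedAtImInfty_of_hasSum_qExpansion (h := 1) one_pos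
      (fun τ => by simpa [smul_eq_mul] using hg τ)
  let G : ModularForm 𝒮ℒ (12 * (m : ℤ)) :=
    { toFun := g
      slash_action_eq' := by
        intro A hA
        obtain ⟨A, rfl⟩ := hA
        exact SlashInvariantForm.slash_action_generators_SL2Z hS hT A
      holo' := hecke_mdiff (ModularFormClass.holo f) _ _ _
      bdd_at_cusps' := by
        intro c hc
        rw [Subgroup.IsArithmetic.isCusp_iff_isCusp_SL2Z] at hc
        rw [OnePoint.isBoundedAt_iff_forall_SL2Z hc]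
        intro γ _
        rw [SlashInvariantForm.slash_action_generators_SL2Z hS hT]
        exact hb }
  have hG : ∀ τ : ℍ, G τ = g τ := fun _ => rfl
  refine ⟨G, ?_⟩
  ext n
  rw [← ModularFormClass.qExpansion_coeff_unique (f := G) one_pos one_mem_strictPeriods_SL
    (fun τ => by rw [hG]; simpa [smul_eq_mul] using hg τ) n]
  simp only [TpZ, coeff_map, coeff_mk]
  split_ifs <;> simp

end Pool.Agent.H397R2.PP
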