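import Pool.Agent.H397R2.PP.Z

set_option autoImplicit false

/-!
# Task TH: `Δ` modulo 2 is the odd theta series, and the modular equation (helper143)
-/

namespace Pool.Agent.H397R2.PP

open PowerSeries

namespace TH

open Classical in
/-- indicator series -/
noncomputable def ind (P : ℕ → Prop) : (ZMod 2)⟦X⟧ := PowerSeries.mk fun n => if P n then 1 else 0

open Classical in
lemma coeff_ind (P : ℕ → Prop) (n : ℕ) : coeff n (ind P) = if P n then (1 : ZMod 2) else 0 := by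
  rw [ind, coeff_mk]

open Classical in
lemma coeff_ind_mul (P Q : ℕ → Prop) (N : ℕ) : coeff N (ind P * ind Q) =
    (((Finset.HasAntidiagonal.antidiagonal N).filter fun x => P x.1 ∧ Q x.2).card : ZMod 2) := by
  rw [coeff_mul, Finset.card_filter]
  push_cast
  apply Finset.sum_congr rfl
  intro x _
  rw [coeff_ind, coeff_ind]
  by_cases h1 : P x.1 <;> by_cases h2 : Q x.2 <;> simp [h1, h2]

open Classical in
lemma expand_ind (P : ℕ → Prop) (M : ℕ) (hM : M ≠ 0) :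
    PowerSeries.expand M hM (ind P) = ind fun n => ∃ k, n = M * k ∧ P k := by
  ext n
  rw [coeff_ind, coeff_expand]
  by_cases hd : M ∣ n
  · obtain ⟨k, rfl⟩ := hd
    rw [if_pos (Dvd.intro k rfl), Nat.mul_div_cancel_left _ (Nat.pos_of_ne_zero hM), coeff_ind]
    by_cases hP : P k
    · rw [if_pos hP, if_pos ⟨k, rfl, hP⟩]
    · rw [if_neg hP, if_neg]
      rintro ⟨k', h1, h2⟩
      exact hP (Nat.eq_of_mul_eq_mul_left (Nat.pos_of_ne_zero hM) h1 ▸ h2)
  · rw [if_neg hd, if_neg]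
    rintro ⟨k, h1, -⟩
    exact hd ⟨k, h1⟩

/-- pentagonal numbers -/
def isPent (n : ℕ) : Prop := ∃ j : ℤ, n = pentagonal j

/-- triangular numbers -/
def isTri (n : ℕ) : Prop := ∃ i : ℕ, 2 * n = i * (i + 1)

lemma pent_eq : pentagonalSeries (ZMod 2) = ind isPent := by
  classical
  ext n
  rw [coeff_ind]
  by_cases h : isPent n
  · rw [if_pos h]
    obtain ⟨j, rfl⟩ := h
    rw [coeff_pentagonalSeries_pentagonal]
    rcases Int.even_or_odd j with he | ho
    · rw [Int.negOnePow_even j he]; rfl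
    · rw [Int.negOnePow_odd j ho]; rfl
  · rw [if_neg h]
    apply coeff_pentagonalSeries_eq_zero
    rintro ⟨j, hj⟩
    exact h ⟨j, hj.symm⟩

lemma pent_sq (j : ℤ) : (24 * (pentagonal j : ℤ) + 1) = (6 * j - 1) ^ 2 := by
  have := two_mul_natCast_pentagonal j
  linear_combination 12 * this

lemma odd_sq {B : ℕ} (h : B % 2 = 1) : ∃ t i : ℕ, B ^ 2 = 8 * t + 1 ∧ 2 * t = i * (i + 1) ∧
    B = 2 * i + 1 := by
  obtain ⟨i, hi⟩ : ∃ i, B = 2 * i + 1 := ⟨B / 2, by omega⟩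
  obtain ⟨t, ht⟩ : ∃ t, i * (i + 1) = 2 * t := by
    obtain ⟨t, ht⟩ := Nat.even_mul_succ_self i
    exact ⟨t, by rw [ht]; ring⟩
  refine ⟨t, i, ?_, ht.symm, hi⟩
  rw [hi]
  nlinarith

lemma cop_sq {A : ℕ} (h : A % 2 = 1) (h3 : A % 3 ≠ 0) : ∃ j : ℤ,
    A ^ 2 = 24 * pentagonal j + 1 := by
  have h6 : A % 6 = 1 ∨ A % 6 = 5 := by omega
  rcases h6 with h6 | h6
  · obtain ⟨q, rfl⟩ : ∃ q, A = 6 * q + 1 := ⟨A / 6, by omega⟩
    refine ⟨-(q : ℤ), ?_⟩
    have h7 := pent_sq (-(q : ℤ))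
    have h9 : (((6 * q + 1) ^ 2 : ℕ) : ℤ) = ((24 * pentagonal (-(q : ℤ)) + 1 : ℕ) : ℤ) := by
      push_cast
      rw [h7]
      ring
    exact_mod_cast h9
  · obtain ⟨q, rfl⟩ : ∃ q, A = 6 * q + 5 := ⟨A / 6, by omega⟩
    refine ⟨(q : ℤ) + 1, ?_⟩
    have h7 := pent_sq ((q : ℤ) + 1)
    have h9 : (((6 * q + 5) ^ 2 : ℕ) : ℤ) = ((24 * pentagonal ((q : ℤ) + 1) + 1 : ℕ) : ℤ) := by
      push_cast
      rw [h7]
      ring
    exact_mod_cast h9

/-- the set of the odd positive solutions -/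
abbrev SS (K : ℕ) : Finset (ℕ × ℕ) :=
  ((Finset.Icc 1 (4 * K)) ×ˢ (Finset.Icc 1 (4 * K))).filter (fun ab : ℕ × ℕ =>
      ab.1 % 2 = 1 ∧ ab.2 % 2 = 1 ∧ ab.1 ^ 2 + 3 * ab.2 ^ 2 = 4 * K)

lemma mem_SS {K : ℕ} {x : ℕ × ℕ} : x ∈ SS K ↔ ZZ.IsSol K x := by
  rw [SS, Finset.mem_filter, Finset.mem_product, Finset.mem_Icc, Finset.mem_Icc]
  constructor
  · rintro ⟨-, h⟩
    exact h
  · intro h
    obtain ⟨h1, h2, h3⟩ := h
    refine ⟨⟨⟨by omega, ?_⟩, ⟨by omega, ?_⟩⟩, h1, h2, h3⟩ <;> nlinarith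

lemma not_three {A B s : ℕ} (h : A ^ 2 + 3 * B ^ 2 = 4 * (6 * s + 1)) : A % 3 ≠ 0 := by
  intro h3
  have h4 : A ^ 2 % 3 = 0 := by rw [Nat.pow_mod, h3]
  omega

open Classical in
lemma card_tri_pent (s : ℕ) :
    ((Finset.HasAntidiagonal.antidiagonal s).filter fun x => isTri x.1 ∧ isPent x.2).card =
      (SS (6 * s + 1)).card := by
  symm
  apply Finset.card_bij (fun (x : ℕ × ℕ) _ => ((x.2 ^ 2 - 1) / 8, (x.1 ^ 2 - 1) / 24))
  · rintro ⟨A, B⟩ hx
    rw [mem_SS] at hx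
    obtain ⟨h1, h2, h3⟩ := hx
    simp only at h1 h2 h3
    obtain ⟨t, i, e1, e2, e3⟩ := odd_sq h2
    obtain ⟨j, e4⟩ := cop_sq h1 (not_three h3)
    rw [Finset.mem_filter, Finset.HasAntidiagonal.mem_antidiagonal]
    simp only
    have f1 : (B ^ 2 - 1) / 8 = t := by omega
    have f2 : (A ^ 2 - 1) / 24 = pentagonal j := by omega
    rw [f1, f2]
    exact ⟨by omega, ⟨i, e2⟩, ⟨j, rfl⟩⟩
  · rintro ⟨A, B⟩ hx ⟨A', B'⟩ hx' h
    rw [mem_SS] at hx hx'
    obtain ⟨h1, h2, h3⟩ := hx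
    obtain ⟨h1', h2', h3'⟩ := hx'
    simp only at h1 h2 h3 h1' h2' h3'
    obtain ⟨t, i, e1, e2, e3⟩ := odd_sq h2
    obtain ⟨j, e4⟩ := cop_sq h1 (not_three h3)
    obtain ⟨t', i', e1', e2', e3'⟩ := odd_sq h2'
    obtain ⟨j', e4'⟩ := cop_sq h1' (not_three h3')
    simp only [Prod.mk.injEq] at h ⊢
    obtain ⟨g1, g2⟩ := h
    have k1 : B ^ 2 = B' ^ 2 := by omega
    have k2 : A ^ 2 = A' ^ 2 := by omega
    exact ⟨Nat.pow_left_injective (n := 2) (by norm_num) k2,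
      Nat.pow_left_injective (n := 2) (by norm_num) k1⟩
  · rintro ⟨t, g⟩ hx
    rw [Finset.mem_filter, Finset.HasAntidiagonal.mem_antidiagonal] at hx
    obtain ⟨h1, ⟨i, h2⟩, ⟨j, h3⟩⟩ := hx
    simp only at h1 h2 h3
    have h4 := pent_sq j
    have h5 : ((6 * j - 1).natAbs ^ 2 : ℕ) = 24 * pentagonal j + 1 := by
      have : (((6 * j - 1).natAbs ^ 2 : ℕ) : ℤ) = ((24 * pentagonal j + 1 : ℕ) : ℤ) := by
        push_cast
        rw [sq_abs, ← h4]
      exact_mod_cast this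
    have h6 : (2 * i + 1) ^ 2 = 8 * t + 1 := by nlinarith
    refine ⟨((6 * j - 1).natAbs, 2 * i + 1), ?_, ?_⟩
    · rw [mem_SS]
      refine ⟨by simp only; omega, by simp only; omega, ?_⟩
      simp only
      rw [h5, h6, ← h1, h3]
      ring
    · simp only
      rw [h5, h6, h3]
      simp only [Prod.mk.injEq]
      constructor <;> omega

open Classical in
lemma psi_mul_f : ind isTri * ind isPent = ind isPent ^ 4 := by
  rw [pow_eq_expand' 4 2 (by norm_num) (by norm_num), expand_ind]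
  ext s
  rw [coeff_ind_mul, card_tri_pent, coeff_ind]
  have h := card_rep (6 * s + 1) (by omega)
  rw [h]
  have h2 : ¬ ∃ v : ℕ, 6 * s + 1 = 3 * v ^ 2 := by
    rintro ⟨v, hv⟩
    omega
  rw [if_neg h2, add_zero]
  congr 1
  apply propext
  constructor
  · rintro ⟨u, hu⟩
    have hu2 : u % 2 = 1 := by
      rcases Nat.mod_two_eq_zero_or_one u with h | h
      · exfalso
        have : u ^ 2 % 2 = 0 := by rw [Nat.pow_mod, h]
        omega
      · exact h
    have hu3 : u % 3 ≠ 0 := by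
      intro h3
      have h4 : u ^ 2 % 3 = 0 := by rw [Nat.pow_mod, h3]
      omega
    obtain ⟨j, hj⟩ := cop_sq hu2 hu3
    exact ⟨pentagonal j, by omega, ⟨j, rfl⟩⟩
  · rintro ⟨k, hk, j, hj⟩
    refine ⟨(6 * j - 1).natAbs, ?_⟩
    have h4 := pent_sq j
    have h5 : ((6 * j - 1).natAbs ^ 2 : ℕ) = 24 * pentagonal j + 1 := by
      have : (((6 * j - 1).natAbs ^ 2 : ℕ) : ℤ) = ((24 * pentagonal j + 1 : ℕ) : ℤ) := by
        push_cast
        rw [sq_abs, ← h4]
      exact_mod_cast this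
    rw [h5, hk, hj]
    ring

lemma psi_eq : ind isTri = ind isPent ^ 3 := by
  have h1 := psi_mul_f
  have hne : ind isPent ≠ 0 := by
    intro h
    have h2 := congrArg (coeff 0) h
    classical
    rw [coeff_ind, if_pos ⟨0, by simp [pentagonal]⟩] at h2
    simp at h2
  have h2 : ind isTri * ind isPent = ind isPent ^ 3 * ind isPent := by
    rw [h1]
    ring
  exact mul_right_cancel₀ hne h2

/-- odd squares -/
def isOdd (n : ℕ) : Prop := ∃ i : ℕ, n = (2 * i + 1) ^ 2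

lemma Db_ind : Db = ind isOdd := by
  classical
  have h1 : Db = X * PowerSeries.expand 8 (by norm_num) (ind isTri) := by
    rw [← pow_eq_expand' 8 3 (by norm_num) (by norm_num), psi_eq, Db, pent_eq, ← pow_mul]
  rw [h1, expand_ind]
  ext n
  rcases n with _ | n
  · rw [coeff_zero_X_mul, coeff_ind, if_neg]
    rintro ⟨i, hi⟩
    have : 0 < (2 * i + 1) ^ 2 := by positivity
    omega
  · rw [coeff_succ_X_mul, coeff_ind, coeff_ind]
    congr 1
    apply propext
    constructor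
    · rintro ⟨k, hk, i, hi⟩
      exact ⟨i, by rw [hk]; nlinarith⟩
    · rintro ⟨i, hi⟩
      obtain ⟨t, i', e1, e2, e3⟩ := odd_sq (B := 2 * i + 1) (by omega)
      exact ⟨t, by omega, i', e2⟩

lemma odd_of_sq {K u : ℕ} (h : K = u ^ 2) (hK : K % 2 = 1) : u % 2 = 1 := by
  rcases Nat.mod_two_eq_zero_or_one u with h1 | h1
  · exfalso
    have : u ^ 2 % 2 = 0 := by rw [Nat.pow_mod, h1]
    omega
  · exact h1

end TH

open TH

open Classical in
/-- TASK TH, part 1 (uses card_rep). -/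
theorem Db_eq_theta :
    Db = PowerSeries.mk fun n => if ∃ i : ℕ, n = (2 * i + 1) ^ 2 then (1 : ZMod 2) else 0 :=
  Db_ind

open Classical in
/-- TASK TH, part 2 (uses card_rep and Db_eq_theta). -/
theorem modular_equation :
    Db ^ 4 = Db * PowerSeries.expand 3 (by norm_num) Db +
      (PowerSeries.expand 3 (by norm_num) Db) ^ 4 := by
  rw [pow_eq_expand' 4 2 (by norm_num) (by norm_num), pow_eq_expand' 4 2 (by norm_num) (by norm_num),
    Db_ind, expand_ind, expand_ind, expand_ind]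
  ext N
  rw [map_add, coeff_ind_mul, coeff_ind, coeff_ind]
  by_cases hN : N % 8 = 4
  · obtain ⟨K, hK⟩ : ∃ K, N = 4 * K := ⟨N / 4, by omega⟩
    have hK2 : K % 2 = 1 := by omega
    have hcard : ((Finset.HasAntidiagonal.antidiagonal N).filter fun x : ℕ × ℕ => isOdd x.1 ∧
        ∃ k, x.2 = 3 * k ∧ isOdd k).card = (SS K).card := by
      symm
      apply Finset.card_bij (fun (x : ℕ × ℕ) _ => (x.1 ^ 2, 3 * x.2 ^ 2))
      · rintro ⟨A, B⟩ hx
        rw [mem_SS] at hx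
        obtain ⟨h1, h2, h3⟩ := hx
        simp only at h1 h2 h3
        rw [Finset.mem_filter, Finset.HasAntidiagonal.mem_antidiagonal]
        refine ⟨by simp only; omega, ⟨A / 2, ?_⟩, ⟨B ^ 2, rfl, B / 2, ?_⟩⟩
        · simp only
          congr 1
          omega
        · congr 1
          omega
      · rintro ⟨A, B⟩ _ ⟨A', B'⟩ _ h
        simp only [Prod.mk.injEq] at h ⊢
        obtain ⟨g1, g2⟩ := h
        have k1 : B ^ 2 = B' ^ 2 := by omega
        exact ⟨Nat.pow_left_injective (n := 2) (by norm_num) g1,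
          Nat.pow_left_injective (n := 2) (by norm_num) k1⟩
      · rintro ⟨x, y⟩ hx
        rw [Finset.mem_filter, Finset.HasAntidiagonal.mem_antidiagonal] at hx
        obtain ⟨h1, ⟨i, h2⟩, ⟨k, h3, ⟨i', h4⟩⟩⟩ := hx
        simp only at h1 h2 h3
        refine ⟨(2 * i + 1, 2 * i' + 1), ?_, ?_⟩
        · rw [mem_SS]
          refine ⟨by simp only; omega, by simp only; omega, ?_⟩
          simp only
          rw [← h2, ← h4, ← h3, h1, hK]
        · simp only
          rw [← h2, ← h4, ← h3]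
    rw [hcard, card_rep K hK2]
    have e1 : (∃ k, N = 4 * k ∧ isOdd k) ↔ ∃ u : ℕ, K = u ^ 2 := by
      constructor
      · rintro ⟨k, h1, i, h2⟩
        exact ⟨2 * i + 1, by omega⟩
      · rintro ⟨u, hu⟩
        have := odd_of_sq hu hK2
        refine ⟨K, hK, u / 2, ?_⟩
        rw [hu]
        congr 1
        omega
    have e2 : (∃ k, N = 4 * k ∧ ∃ k', k = 3 * k' ∧ isOdd k') ↔ ∃ v : ℕ, K = 3 * v ^ 2 := by
      constructor
      · rintro ⟨k, h1, k', h2, i, h3⟩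
        exact ⟨2 * i + 1, by omega⟩
      · rintro ⟨v, hv⟩
        have hv2 : v % 2 = 1 := by
          rcases Nat.mod_two_eq_zero_or_one v with h1 | h1
          · exfalso
            have : v ^ 2 % 2 = 0 := by rw [Nat.pow_mod, h1]
            omega
          · exact h1
        refine ⟨K, hK, v ^ 2, hv, v / 2, ?_⟩
        congr 1
        omega
    simp only [e1, e2]
    have h2 : ∀ a : ZMod 2, a + a = 0 := by decide
    rw [add_assoc, h2, add_zero]
  · have hempty : ((Finset.HasAntidiagonal.antidiagonal N).filter fun x : ℕ × ℕ => isOdd x.1 ∧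
        ∃ k, x.2 = 3 * k ∧ isOdd k) = ∅ := by
      apply Finset.filter_eq_empty_iff.2
      rintro ⟨x, y⟩ hx ⟨⟨i, h2⟩, ⟨k, h3, ⟨i', h4⟩⟩⟩
      rw [Finset.HasAntidiagonal.mem_antidiagonal] at hx
      simp only at hx h2 h3
      obtain ⟨t, _, e1, _, _⟩ := odd_sq (B := 2 * i + 1) (by omega)
      obtain ⟨t', _, e1', _, _⟩ := odd_sq (B := 2 * i' + 1) (by omega)
      omega
    have e1 : ¬ ∃ k, N = 4 * k ∧ isOdd k := by
      rintro ⟨k, h1, i, h2⟩
      obtain ⟨t, _, e1, _, _⟩ := odd_sq (B := 2 * i + 1) (by omega)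
      omega
    have e2 : ¬ ∃ k, N = 4 * k ∧ ∃ k', k = 3 * k' ∧ isOdd k' := by
      rintro ⟨k, h1, k', h2, i, h3⟩
      obtain ⟨t, _, e1, _, _⟩ := odd_sq (B := 2 * i + 1) (by omega)
      omega
    rw [hempty, if_neg e1, if_neg e2]
    simp

end Pool.Agent.H397R2.PP
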