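import Pool.Agent.H397R2.PP.Defs

set_option autoImplicit false

namespace Pool.Agent.H397R2.PP

open PowerSeries

/-- `T_3` modulo 2 as a linear map -/
noncomputable def TL : (ZMod 2)⟦X⟧ →ₗ[ZMod 2] (ZMod 2)⟦X⟧ where
  toFun := Tp 3
  map_add' x y := by
    ext n
    simp only [Tp, coeff_mk, map_add]
    split_ifs <;> ring
  map_smul' c x := by
    ext n
    simp only [Tp, coeff_mk, PowerSeries.coeff_smul, RingHom.id_apply, smul_eq_mul]
    split_ifs <;> ring

/-- Fibonacci polynomials modulo 2 -/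
noncomputable def SP : ℕ → Polynomial (ZMod 2)
  | 0 => 1
  | 1 => Polynomial.X
  | (n + 2) => Polynomial.X * SP (n + 1) + SP n

theorem SP_zero : SP 0 = 1 := by rw [SP]
theorem SP_one : SP 1 = Polynomial.X := by rw [SP]
theorem SP_succ (n : ℕ) : SP (n + 2) = Polynomial.X * SP (n + 1) + SP n := by rw [SP]

theorem SP_add (n j : ℕ) : SP (n + (j + 1) + 1) = SP (n + 1) * SP (j + 1) + SP n * SP j := by
  induction j using Nat.strong_induction_on with
  | _ j ih =>
    rcases j with _ | _ | j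
    · have h := SP_succ n
      have h1 := SP_one
      have h0 := SP_zero
      show SP (n + 2) = SP (n + 1) * SP 1 + SP n * SP 0
      rw [h, h1, h0]; ring
    · have h := SP_succ (n + 1)
      have h' := SP_succ n
      have h2 := SP_succ 0
      have h1 := SP_one
      have h0 := SP_zero
      show SP (n + 1 + 2) = SP (n + 1) * SP (0 + 2) + SP n * SP (0 + 1)
      rw [h, show n + 1 + 1 = n + 2 from rfl, h', h2, show 0 + 1 = 1 from rfl, h1, h0]; ring
    · have h1 := ih j (by omega)
      have h2 := ih (j + 1) (by omega)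
      have h3 := SP_succ (n + (j + 1) + 1)
      have h4 := SP_succ (j + 1)
      have h5 := SP_succ j
      show SP ((n + (j + 1) + 1) + 2) = SP (n + 1) * SP (j + 1 + 2) + SP n * SP (j + 2)
      rw [h3, h4]
      rw [show n + (j + 1 + 1) + 1 = n + (j + 1) + 1 + 1 by ring] at h2
      rw [h2, h1, h5]
      ring

theorem SP_double (N : ℕ) : SP (2 * N + 1) = Polynomial.X * SP N ^ 2 := by
  rcases N with _ | N
  · show SP 1 = Polynomial.X * SP 0 ^ 2
    rw [SP_one, SP_zero]; ring
  · have h := SP_add (N + 1) N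
    rw [show 2 * (N + 1) + 1 = N + 1 + (N + 1) + 1 by ring, h]
    show SP (N + 2) * SP (N + 1) + SP (N + 1) * SP N = _
    rw [SP_succ]
    have h2 : SP N * SP (N + 1) + SP N * SP (N + 1) = 0 := CharTwo.add_self_eq_zero _
    linear_combination h2

theorem SP_pow_two (s : ℕ) : SP (2 ^ s - 1) = Polynomial.X ^ (2 ^ s - 1) := by
  induction s with
  | zero => show SP 0 = _; rw [SP_zero]; simp
  | succ s ih =>
    have h1 : 2 ^ (s + 1) - 1 = 2 * (2 ^ s - 1) + 1 := by
      have : 1 ≤ 2 ^ s := Nat.one_le_two_pow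
      rw [pow_succ]; omega
    rw [h1, SP_double, ih]
    ring

theorem coeff_aeval_SP (r : ℕ) (hr : ¬ 3 ∣ r) (n : ℕ) :
    ∀ φ : (ZMod 2)⟦X⟧, coeff r ((Polynomial.aeval TL (SP n)) φ) = coeff (3 ^ n * r) φ := by
  induction n using Nat.strong_induction_on with
  | _ n ih =>
    intro φ
    rcases n with _ | _ | n
    · rw [SP_zero]; simp
    · rw [show 0 + 1 = 1 from rfl, SP_one]
      simp only [Polynomial.aeval_X]
      show coeff r (Tp 3 φ) = _
      rw [Tp, coeff_mk, if_neg hr, add_zero, pow_one]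
    · have h1 := ih (n + 1) (by omega) (TL φ)
      have h2 := ih n (by omega) φ
      rw [show n + 1 + 1 = n + 2 from rfl, SP_succ, mul_comm]
      simp only [map_add, map_mul, Polynomial.aeval_X, LinearMap.add_apply, Module.End.mul_apply,
        map_add]
      rw [h1, h2]
      show coeff _ (Tp 3 φ) + _ = _
      have h3 : 3 ∣ 3 ^ (n + 1) * r := ⟨3 ^ n * r, by ring⟩
      rw [Tp, coeff_mk, if_pos h3]
      have h4 : 3 ^ (n + 1) * r / 3 = 3 ^ n * r := by
        rw [pow_succ, mul_comm (3 ^ n) 3, mul_assoc, Nat.mul_div_cancel_left _ (by norm_num)]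
      rw [h4, add_assoc, CharTwo.add_self_eq_zero, add_zero]
      congr 1
      rw [show 3 * (3 ^ (n + 1) * r) = 3 ^ (n + 2) * r by ring]

/-- TASK EXT (formal, arbitrary power series). -/
theorem coeff_iterate_Tp3 (s r : ℕ) (hr : ¬ 3 ∣ r) (φ : (ZMod 2)⟦X⟧) :
    coeff r ((Tp 3)^[2 ^ s - 1] φ) = coeff (3 ^ (2 ^ s - 1) * r) φ := by
  rw [← coeff_aeval_SP r hr (2 ^ s - 1) φ, SP_pow_two, map_pow, Polynomial.aeval_X,
    Module.End.pow_apply]
  rfl

end Pool.Agent.H397R2.PP
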