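import Pool.Agent.H397R2.PP.A

set_option autoImplicit false

namespace Pool.Agent.H397R2.PP

open PowerSeries

namespace T3

abbrev S : Type := (ZMod 2)⟦X⟧

/-- the operator `U_3`. -/
noncomputable def U (φ : S) : S := PowerSeries.mk fun n => coeff (3 * n) φ

theorem U_add (a b : S) : U (a + b) = U a + U b := by
  ext n; simp [U]

theorem two_zero (a : S) : a + a = 0 := by
  have h : (2 : S) = 0 := by
    have : ((2 : ZMod 2)) = 0 := by decide
    calc (2 : S) = PowerSeries.C (2 : ZMod 2) := (map_ofNat _ 2).symm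
      _ = 0 := by rw [this]; simp
  calc a + a = 2 * a := by ring
    _ = 0 := by rw [h, zero_mul]

theorem eq_of_add {a b : S} (h : a + b = 0) : a = b := by
  calc a = (a + b) + b - (b + b) + b - b + 0 := by ring
    _ = b := by
      have h2 := two_zero b
      rw [h, h2]
      have : -b = b := by
        rw [neg_eq_iff_add_eq_zero]; exact h2
      calc (0 + b - 0 + b - b + 0 : S) = b := by ring

theorem U_expand_mul (a b : S) : U (PowerSeries.expand 3 (by norm_num) a * b) = a * U b := by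
  ext n
  rw [U, coeff_mk, coeff_mul, coeff_mul]
  symm
  apply Finset.sum_of_injOn (fun p : ℕ × ℕ => (3 * p.1, 3 * p.2))
  · rintro ⟨a, b⟩ _ ⟨c, d⟩ _ h
    simp only [Prod.mk.injEq] at h
    ext <;> simp <;> omega
  · rintro ⟨a, b⟩ h
    simp only [Finset.mem_coe, Finset.HasAntidiagonal.mem_antidiagonal] at h ⊢
    omega
  · rintro ⟨i, j⟩ hij hne
    rw [coeff_expand]
    rw [if_neg, zero_mul]
    rintro ⟨c, hc⟩
    apply hne
    simp only [Finset.HasAntidiagonal.mem_antidiagonal] at hij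
    simp only [Set.mem_image, Finset.mem_coe, Finset.HasAntidiagonal.mem_antidiagonal, Prod.mk.injEq, Prod.exists]
    refine ⟨c, n - c, ?_, ?_, ?_⟩ <;> omega
  · rintro ⟨i, j⟩ _
    simp only [U, coeff_mk, coeff_expand_mul]

theorem Tp_eq (φ : S) : Tp 3 φ = U φ + PowerSeries.expand 3 (by norm_num) φ := by
  ext n
  rw [Tp, coeff_mk, map_add, U, coeff_mk, coeff_expand]

theorem sq_eq (a : S) : a ^ 2 = PowerSeries.expand 2 (by norm_num) a :=
  pow_eq_expand' 2 1 (by norm_num) (by norm_num) a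

theorem add_pow (s : ℕ) (a b : S) : (a + b) ^ (2 ^ s) = a ^ (2 ^ s) + b ^ (2 ^ s) := by
  rw [pow_eq_expand, pow_eq_expand, pow_eq_expand, map_add]

theorem U_sq (a : S) : U (a ^ 2) = (U a) ^ 2 := by
  rw [sq_eq, sq_eq]
  ext n
  rw [U, coeff_mk, coeff_expand, coeff_expand]
  by_cases h : 2 ∣ n
  · have h3 : 2 ∣ 3 * n := Dvd.dvd.mul_left h 3
    have h4 : 3 * n / 2 = 3 * (n / 2) := by omega
    rw [if_pos h3, if_pos h, U, coeff_mk, h4]
  · have h3 : ¬ 2 ∣ 3 * n := by omega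
    rw [if_neg h3, if_neg h]

theorem U_one : U (1 : S) = 1 := by
  ext n
  rw [U, coeff_mk, coeff_one, coeff_one]
  by_cases h : n = 0
  · simp [h]
  · rw [if_neg h, if_neg (by omega)]

/-- the modular equation is an assumption here -/
def ME : Prop := Db ^ 4 = Db * PowerSeries.expand 3 (by norm_num) Db +
      (PowerSeries.expand 3 (by norm_num) Db) ^ 4

theorem Tp_add (a b : S) : Tp 3 (a + b) = Tp 3 a + Tp 3 b := by
  rw [Tp_eq, Tp_eq, Tp_eq, U_add, map_add]; ring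

theorem rec (hME : ME) (s k : ℕ) : Tp 3 (Db ^ (k + 4 * 2 ^ s)) =
    Db ^ (2 ^ s) * Tp 3 (Db ^ (k + 2 ^ s)) + Db ^ (4 * 2 ^ s) * Tp 3 (Db ^ k) := by
  set V := PowerSeries.expand 3 (by norm_num) Db with hV
  have h1 : Db ^ (4 * 2 ^ s) = Db ^ (2 ^ s) * V ^ (2 ^ s) + V ^ (4 * 2 ^ s) := by
    rw [pow_mul, hME, add_pow, mul_pow, ← pow_mul]
  have h2 : V ^ (4 * 2 ^ s) = Db ^ (4 * 2 ^ s) + Db ^ (2 ^ s) * V ^ (2 ^ s) := by
    have := two_zero (Db ^ (2 ^ s) * V ^ (2 ^ s))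
    calc V ^ (4 * 2 ^ s) = (Db ^ (2 ^ s) * V ^ (2 ^ s) + V ^ (4 * 2 ^ s)) + Db ^ (2 ^ s) * V ^ (2 ^ s)
        - (Db ^ (2 ^ s) * V ^ (2 ^ s) + Db ^ (2 ^ s) * V ^ (2 ^ s)) := by ring
      _ = _ := by rw [this, ← h1]; ring
  have hU : U (Db ^ (k + 4 * 2 ^ s)) =
      Db ^ (2 ^ s) * U (Db ^ (k + 2 ^ s)) + Db ^ (4 * 2 ^ s) * U (Db ^ k) := by
    have e : Db ^ (k + 4 * 2 ^ s) = PowerSeries.expand 3 (by norm_num) (Db ^ (2 ^ s)) * Db ^ (k + 2 ^ s)
        + PowerSeries.expand 3 (by norm_num) (Db ^ (4 * 2 ^ s)) * Db ^ k := by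
      rw [map_pow, map_pow, ← hV, pow_add, h1]; ring
    rw [e, U_add, U_expand_mul, U_expand_mul]
  have hVV : PowerSeries.expand 3 (by norm_num) (Db ^ (k + 4 * 2 ^ s)) =
      Db ^ (2 ^ s) * PowerSeries.expand 3 (by norm_num) (Db ^ (k + 2 ^ s)) +
      Db ^ (4 * 2 ^ s) * PowerSeries.expand 3 (by norm_num) (Db ^ k) := by
    rw [map_pow, map_pow, map_pow, ← hV, pow_add, h2]; ring
  rw [Tp_eq, Tp_eq, Tp_eq, hU, hVV]
  ring

theorem cc_pent : constantCoeff (pentagonalSeries (ZMod 2)) = 1 := by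
  have h := coeff_pentagonalSeries_pentagonal (R := ZMod 2) 0
  have h0 : pentagonal 0 = 0 := by simp [pentagonal]
  rw [h0] at h
  rw [← PowerSeries.coeff_zero_eq_constantCoeff_apply, h]
  simp

theorem coeff_one_Db : coeff 1 Db = 1 := by
  rw [Db]
  have : (1 : ℕ) = 0 + 1 := rfl
  rw [this, coeff_succ_X_mul]
  simp [cc_pent]

theorem coeff_zero_Db : coeff 0 Db = 0 := by
  rw [Db, coeff_zero_X_mul]

theorem X_dvd_Db : (X : S) ∣ Db := ⟨_, rfl⟩

theorem init (hME : ME) : Tp 3 (Db ^ 1) = 0 ∧ Tp 3 (Db ^ 3) = Db ^ 1 ∧ Tp 3 (Db ^ 5) = 0 ∧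
    Tp 3 (Db ^ 7) = Db ^ 5 := by
  set V := PowerSeries.expand 3 (by norm_num) Db with hV
  have hV4 : V ^ 4 = Db * V + Db ^ 4 := by
    have := two_zero (Db * V)
    calc V ^ 4 = (Db * V + V ^ 4) + Db * V - (Db * V + Db * V) := by ring
      _ = _ := by rw [this, ← hME]; ring
  have hTsq : ∀ a : S, Tp 3 (a ^ 2) = (Tp 3 a) ^ 2 := by
    intro a
    rw [Tp_eq, Tp_eq, U_sq, map_pow]
    have := add_pow 1 (U a) (PowerSeries.expand 3 (by norm_num) a)
    rw [pow_one] at this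
    exact this.symm
  -- recurrences for U
  have hUrec : ∀ k : ℕ, U (Db ^ (k + 4)) = Db * U (Db ^ (k + 1)) + Db ^ 4 * U (Db ^ k) := by
    intro k
    have e : Db ^ (k + 4) = PowerSeries.expand 3 (by norm_num) Db * Db ^ (k + 1)
        + PowerSeries.expand 3 (by norm_num) (Db ^ 4) * Db ^ k := by
      rw [map_pow, ← hV, pow_add, hME, ← hV]; ring
    rw [e, U_add, U_expand_mul, U_expand_mul]
  have hw : U Db + V = 0 := by
    set w := U Db + V with hwdef
    have h4 : w ^ 4 = Db * w := by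
      have e1 : (U Db) ^ 4 = Db * U Db + Db ^ 4 := by
        have := hUrec 0
        rw [zero_add, zero_add, pow_zero, U_one, pow_one, mul_one] at this
        rw [← this, show (4 : ℕ) = 2 * 2 from rfl, pow_mul, pow_mul, U_sq, U_sq]
      have e2 := add_pow 2 (U Db) V
      rw [show (2 : ℕ) ^ 2 = 4 from rfl] at e2
      rw [hwdef, e2, e1, hV4]
      have := two_zero (Db ^ 4)
      calc Db * U Db + Db ^ 4 + (Db * V + Db ^ 4) = Db * (U Db + V) + (Db ^ 4 + Db ^ 4) := by ring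
        _ = _ := by rw [this, add_zero]
    have h5 : w * (w ^ 3 - Db) = 0 := by
      calc w * (w ^ 3 - Db) = w ^ 4 - Db * w := by ring
        _ = 0 := by rw [h4, sub_self]
    rcases mul_eq_zero.mp h5 with h | h
    · exact h
    · exfalso
      have h6 : w ^ 3 = Db := sub_eq_zero.mp h
      have hX : (X : S) ∣ w ^ 3 := by rw [h6]; exact X_dvd_Db
      have hX1 : (X : S) ∣ w := PowerSeries.X_prime.dvd_of_dvd_pow hX
      obtain ⟨c, hc⟩ := hX1
      have h7 : Db = X ^ 3 * c ^ 3 := by rw [← h6, hc]; ring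
      have h8 := coeff_one_Db
      rw [h7, coeff_X_pow_mul'] at h8
      simp at h8
  have hUD : U Db = V := eq_of_add hw
  have hT1 : Tp 3 Db = 0 := by rw [Tp_eq, ← hV]; exact hw
  have hT2 : Tp 3 (Db ^ 2) = 0 := by rw [hTsq, hT1]; ring
  have hT4 : Tp 3 (Db ^ 4) = 0 := by
    rw [show (4 : ℕ) = 2 * 2 from rfl, pow_mul, hTsq, hT2]; ring
  have hT3 : Tp 3 (Db ^ 3) = Db := by
    set y := U (Db ^ 3) with hy
    have e1 : y ^ 2 = Db * y + Db ^ 4 * V ^ 2 := by
      have := hUrec 2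
      rw [show 2 + 4 = 3 * 2 from rfl, pow_mul, U_sq, U_sq, hUD] at this
      exact this
    have e2 : (y + V ^ 3) * (y + V ^ 3 + Db) = 0 := by
      have t1 := two_zero (y * V ^ 3)
      have t2 := two_zero (Db * y)
      have t3 := two_zero (V ^ 2 * Db ^ 4)
      have t4 := two_zero (V ^ 3 * Db)
      calc (y + V ^ 3) * (y + V ^ 3 + Db)
          = y ^ 2 + (y * V ^ 3 + y * V ^ 3) + V ^ 2 * V ^ 4 + Db * y + V ^ 3 * Db := by ring
        _ = (Db * y + Db * y) + (V ^ 2 * Db ^ 4 + V ^ 2 * Db ^ 4) + (V ^ 3 * Db + V ^ 3 * Db) := by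
            rw [t1, e1, hV4]; ring
        _ = 0 := by rw [t2, t3, t4]; ring
    have hc1 : coeff 1 y = 1 := by
      rw [hy, U, coeff_mk, Db, mul_pow, coeff_X_pow_mul']
      simp [cc_pent]
    have hcV : coeff 1 (V ^ 3) = 0 := by
      have hXV : (X : S) ∣ V := by
        rw [PowerSeries.X_dvd_iff, ← PowerSeries.coeff_zero_eq_constantCoeff_apply, hV, coeff_expand]
        simp [Db]
      obtain ⟨c, hc⟩ := hXV
      rw [hc, mul_pow, coeff_X_pow_mul']
      simp
    rcases mul_eq_zero.mp e2 with h | h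
    · exfalso
      have : coeff 1 (y + V ^ 3) = 0 := by rw [h]; simp
      rw [map_add, hc1, hcV] at this
      simp at this
    · have h9 : Tp 3 (Db ^ 3) = y + V ^ 3 := by rw [Tp_eq, map_pow]
      rw [h9]
      exact eq_of_add h
  refine ⟨by rw [pow_one]; exact hT1, by rw [pow_one]; exact hT3, ?_, ?_⟩
  · have := rec hME 0 1
    rw [pow_zero, mul_one, pow_one] at this
    rw [show 1 + 4 = 5 from rfl, show 1 + 1 = 2 from rfl] at this
    rw [this, hT2, hT1]; ring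
  · have := rec hME 0 3
    rw [pow_zero, mul_one, pow_one] at this
    rw [show 3 + 4 = 7 from rfl, show 3 + 1 = 4 from rfl] at this
    rw [this, hT4, hT3]; ring

end T3

end Pool.Agent.H397R2.PP
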