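import Pool.Agent.H397R2.PP.NIL
import Pool.Agent.H397R2.PP.EXT
import Pool.Agent.H397R2.PP.T3

set_option autoImplicit false

namespace Pool.Agent.H397R2.PP

open PowerSeries

/-- the support of `D^m` is contained in `m + 8ℕ`. -/
theorem coeff_Db_pow_of_mod (m n : ℕ) (h : n % 8 ≠ m % 8) : coeff n (Db ^ m) = 0 := by
  have h1 : Db ^ m = X ^ m * PowerSeries.expand 8 (by norm_num)
      ((pentagonalSeries (ZMod 2)) ^ (3 * m)) := by
    rw [← pow_eq_expand' 8 3 (by norm_num) (by norm_num), Db, mul_pow, ← pow_mul, ← pow_mul]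
    congr 2
    ring
  rw [h1, PowerSeries.coeff_X_pow_mul']
  split_ifs with h2
  · rw [coeff_expand_of_not_dvd]
    intro h3
    omega
  · rfl

/-- vanishing of the coefficients of `D^m` at `3^(2^(k-1)-1) r`. -/
theorem coeff_vanish_of (hME : T3.ME) (k m r : ℕ) (hk : 2 ≤ k) (hm : 3 * m + 1 = 4 ^ k)
    (hr : ¬ 3 ∣ r) :
    coeff (3 ^ (2 ^ (k - 1) - 1) * r) (Db ^ m) = 0 := by
  obtain ⟨c, hc⟩ := Tp3_nilp_of ⟨T3.rec hME, T3.init hME⟩ k m (by omega) hm
  have hc0 : c = 0 := by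
    have h1 := coeff_iterate_Tp3 (k - 1) 1 (by norm_num) (Db ^ m)
    rw [hc, mul_one] at h1
    rw [coeff_Db_pow_of_mod] at h1
    · simpa [T3.coeff_one_Db] using h1
    · -- `3^odd ≡ 3`, `m ≡ 5 (mod 8)`
      obtain ⟨t, rfl⟩ : ∃ t, k = t + 2 := ⟨k - 2, by omega⟩
      have e1 : 3 ^ (2 ^ (t + 2 - 1) - 1) % 8 = 3 := by
        obtain ⟨u, hu⟩ : ∃ u, 2 ^ (t + 2 - 1) - 1 = 2 * u + 1 := by
          refine ⟨2 ^ t - 1, ?_⟩
          have : 2 ^ (t + 2 - 1) = 2 * 2 ^ t := by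
            rw [show t + 2 - 1 = t + 1 by omega, pow_succ']
          have h2 : 1 ≤ 2 ^ t := Nat.one_le_two_pow
          omega
        rw [hu, pow_succ, pow_mul, Nat.mul_mod, Nat.pow_mod]
        norm_num
      have e2 : m % 8 = 5 := by
        have h3 : 4 ^ (t + 2) = 16 * 4 ^ t := by rw [pow_add]; ring
        have h4 : ∃ s, 4 ^ t = 3 * s + 1 := by
          have h5 : 4 ^ t % 3 = 1 := by rw [Nat.pow_mod]; simp
          exact ⟨4 ^ t / 3, by have := Nat.div_add_mod (4 ^ t) 3; omega⟩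
        obtain ⟨s, hs⟩ := h4
        rcases Nat.eq_zero_or_pos t with rfl | ht
        · norm_num at hm; omega
        · obtain ⟨v, rfl⟩ : ∃ v, t = v + 1 := ⟨t - 1, by omega⟩
          rw [pow_succ] at hs
          omega
      rw [e1, e2]; norm_num
  have h1 := coeff_iterate_Tp3 (k - 1) r hr (Db ^ m)
  rw [hc, hc0, zero_smul] at h1
  rw [← h1]; simp

end Pool.Agent.H397R2.PP
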