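import Pool.Agent.H397R2.PP.Defs

set_option autoImplicit false

namespace Pool.Agent.H397R2.PP

open PowerSeries MatrixGroups

section gen

variable (R : Type*) [CommRing R]

/-- The partition generating function is the inverse of `∏ (1 - X^n)`. -/
theorem mk_card_mul_pentagonalSeries :
    (PowerSeries.mk fun n => (Fintype.card (Nat.Partition n) : R)) * pentagonalSeries R = 1 := by
  let _ : TopologicalSpace R := ⊥
  have _ : DiscreteTopology R := ⟨rfl⟩
  open scoped PowerSeries.WithPiTopology in
  have h1 := Nat.Partition.hasProd_powerSeriesMk_card_restricted R (fun _ => True)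
  have h2 := PowerSeries.WithPiTopology.hasProd_one_sub_X_pow R
  have h3 := h1.mul h2
  have h4 : (fun i : ℕ => (if True then ∑' j : ℕ, (X : R⟦X⟧) ^ ((i + 1) * j) else 1) *
      (1 - X ^ (i + 1))) = fun _ => (1 : R⟦X⟧) := by
    funext i
    rw [if_pos trivial]
    simp_rw [pow_mul]
    exact PowerSeries.WithPiTopology.tsum_pow_mul_one_sub_of_constantCoeff_eq_zero (by simp)
  rw [h4] at h3
  have h5 : (PowerSeries.mk fun n => ((Nat.Partition.restricted n (fun _ => True)).card : R)) =
      PowerSeries.mk fun n => (Fintype.card (Nat.Partition n) : R) := by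
    congr 1
    funext n
    simp [Nat.Partition.restricted]
  rw [← h5]
  exact h3.unique hasProd_one

end gen

theorem pow_eq_expand (k : ℕ) (f : (ZMod 2)⟦X⟧) :
    f ^ (2 ^ k) = PowerSeries.expand (2 ^ k) (by positivity) f := by
  have h := MvPowerSeries.map_iterateFrobenius_expand (σ := Unit) 2 two_ne_zero f k
  rw [← h]
  have hid : iterateFrobenius (ZMod 2) 2 k = RingHom.id (ZMod 2) := by
    ext x
    simp [iterateFrobenius_def]
  rw [hid, MvPowerSeries.map_id]
  rfl

theorem pow_eq_expand' (M k : ℕ) (hM : M ≠ 0) (h : M = 2 ^ k) (f : (ZMod 2)⟦X⟧) :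
    f ^ M = PowerSeries.expand M hM f := by
  subst h
  exact pow_eq_expand k f

theorem natAbs_le_pentagonal (j : ℤ) : |j| ≤ (pentagonal j : ℤ) := by
  have h := two_mul_natCast_pentagonal j
  rcases le_or_gt j 0 with hj | hj
  · rw [abs_of_nonpos hj]
    nlinarith
  · rw [abs_of_pos hj]
    have : 1 ≤ j := hj
    nlinarith

/-- Coefficients of `f(X^M)` modulo 2, `f` the pentagonal series. -/
theorem coeff_expand_pent (M : ℕ) (hM : M ≠ 0) (n b : ℕ) (hb : b ≤ n) :
    coeff b (PowerSeries.expand M hM (pentagonalSeries (ZMod 2))) =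
      ∑ j ∈ Finset.Icc (-(n : ℤ)) n, if b = M * pentagonal j then (1 : ZMod 2) else 0 := by
  by_cases h : ∃ j : ℤ, b = M * pentagonal j
  · obtain ⟨j, hj⟩ := h
    have h1 : pentagonal j ≤ b := by
      rw [hj]; exact Nat.le_mul_of_pos_left _ (Nat.pos_of_ne_zero hM)
    have h2 := natAbs_le_pentagonal j
    have h3 : |j| ≤ (n : ℤ) := h2.trans (by exact_mod_cast h1.trans hb)
    rw [Finset.sum_eq_single j]
    · rw [if_pos hj, hj, coeff_expand_mul, coeff_pentagonalSeries_pentagonal]
      rcases Int.even_or_odd j with he | ho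
      · rw [Int.negOnePow_even j he]; rfl
      · rw [Int.negOnePow_odd j ho]; rfl
    · intro i _ hij
      rw [if_neg]
      intro hi
      apply hij
      rw [hj] at hi
      exact (pentagonal_injective (Nat.eq_of_mul_eq_mul_left (Nat.pos_of_ne_zero hM) hi)).symm
    · intro hj'
      exact absurd (Finset.mem_Icc.mpr (abs_le.mp h3)) hj'
  · push Not at h
    rw [Finset.sum_eq_zero (fun j _ => if_neg (h j)), coeff_expand]
    split_ifs with hd
    · obtain ⟨c, hc⟩ := hd
      rw [hc, Nat.mul_div_cancel_left _ (Nat.pos_of_ne_zero hM)]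
      apply coeff_pentagonalSeries_eq_zero
      rintro ⟨j, hj⟩
      exact h j (by rw [hc, hj])
    · rfl

/-- TASK A. -/
theorem partition_identity (k m n : ℕ) (hm : 3 * m + 1 = 4 ^ k) :
    (∑ j ∈ Finset.Icc (-(n : ℤ)) n,
      if 4 ^ k * pentagonal j ≤ n then
        (Fintype.card (Nat.Partition (n - 4 ^ k * pentagonal j)) : ZMod 2) else 0)
      = coeff (8 * n + m) (Db ^ m) := by
  have hM : (4 ^ k : ℕ) ≠ 0 := by positivity
  set M : ℕ := 4 ^ k with hMdef
  have hM2 : M = 2 ^ (2 * k) := by rw [hMdef, pow_mul]; norm_num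
  set F : (ZMod 2)⟦X⟧ := PowerSeries.mk fun n => (Fintype.card (Nat.Partition n) : ZMod 2)
    with hF
  set f : (ZMod 2)⟦X⟧ := pentagonalSeries (ZMod 2) with hf
  have hFf : F * f = 1 := mk_card_mul_pentagonalSeries (ZMod 2)
  -- right-hand side
  have hR : coeff (8 * n + m) (Db ^ m) = coeff n (f ^ (3 * m)) := by
    have h1 : Db ^ m = X ^ m * PowerSeries.expand 8 (by norm_num) (f ^ (3 * m)) := by
      rw [← pow_eq_expand' 8 3 (by norm_num) (by norm_num), Db, mul_pow, ← pow_mul, ← pow_mul]
      congr 2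
      ring
    rw [h1, coeff_X_pow_mul, coeff_expand_mul]
  rw [hR]
  have h2 : f ^ (3 * m) = F * PowerSeries.expand M hM f := by
    rw [← pow_eq_expand' M (2 * k) hM hM2, ← hm, pow_succ', ← mul_assoc, hFf, one_mul]
  rw [h2, coeff_mul]
  rw [Finset.sum_congr rfl (g := fun p : ℕ × ℕ => ∑ j ∈ Finset.Icc (-(n : ℤ)) n,
    if p.2 = M * pentagonal j then coeff p.1 F else 0)]
  · rw [Finset.sum_comm]
    refine Finset.sum_congr rfl fun j _ => ?_
    split_ifs with hj
    · rw [Finset.sum_eq_single (n - M * pentagonal j, M * pentagonal j)]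
      · simp [hF]
      · rintro ⟨a, b⟩ hab hne
        rw [if_neg]
        intro hb
        apply hne
        rw [Finset.HasAntidiagonal.mem_antidiagonal] at hab
        simp only at hb hab
        ext <;> simp <;> omega
      · intro h
        exact absurd (Finset.HasAntidiagonal.mem_antidiagonal.mpr (Nat.sub_add_cancel hj)) h
    · symm
      apply Finset.sum_eq_zero
      rintro ⟨a, b⟩ hab
      rw [Finset.HasAntidiagonal.mem_antidiagonal] at hab
      rw [if_neg]
      intro hb
      simp only at hb hab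
      omega
  · rintro ⟨a, b⟩ hab
    rw [Finset.HasAntidiagonal.mem_antidiagonal] at hab
    simp only at hab ⊢
    rw [coeff_expand_pent M hM n b (by omega), Finset.mul_sum]
    refine Finset.sum_congr rfl fun j _ => ?_
    split_ifs <;> simp

end Pool.Agent.H397R2.PP
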