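import Pool.Agent.H397R2.PP.Defs

set_option autoImplicit false

namespace Pool.Agent.H397R2.PP

open PowerSeries

/-- number of admissible `j` -/
noncomputable def cntS (M n : ℕ) : Finset ℤ :=
  (Finset.Icc (-(n : ℤ)) n).filter (fun j => M * pentagonal j ≤ n)

theorem pent24 (j : ℤ) : 24 * (pentagonal j : ℤ) + 1 = (6 * j - 1) ^ 2 := by
  have := two_mul_natCast_pentagonal j
  nlinarith

theorem sq_le_pent (j : ℤ) : j ^ 2 ≤ (pentagonal j : ℤ) := by
  have := two_mul_natCast_pentagonal j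
  rcases le_or_gt j 0 with h | h
  · nlinarith
  · nlinarith

theorem abs_le_pent (j : ℤ) : |j| ≤ (pentagonal j : ℤ) := by
  have h := sq_le_pent j
  rcases eq_or_ne j 0 with rfl | hj
  · simp
  · have h1 : 1 ≤ |j| := Int.one_le_abs hj
    have h2 : |j| ^ 2 = j ^ 2 := sq_abs j
    nlinarith

theorem mem_cntS (M n : ℕ) (hM : 1 ≤ M) (j : ℤ) :
    j ∈ cntS M n ↔ (M : ℤ) * (6 * j - 1) ^ 2 ≤ 24 * n + M := by
  have h24 := pent24 j
  have habs := abs_le_pent j
  unfold cntS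
  rw [Finset.mem_filter, Finset.mem_Icc]
  constructor
  · rintro ⟨_, h⟩
    have h' : (M : ℤ) * pentagonal j ≤ n := by exact_mod_cast h
    rw [← h24]; nlinarith
  · intro h
    rw [← h24] at h
    have h' : (M : ℤ) * pentagonal j ≤ n := by nlinarith
    have hM' : (1 : ℤ) ≤ M := by exact_mod_cast hM
    have hp : (0 : ℤ) ≤ pentagonal j := by positivity
    have h2 : |j| ≤ n := by nlinarith
    rw [abs_le] at h2
    exact ⟨h2, by exact_mod_cast h'⟩

theorem cnt_odd (M n l : ℕ) (hM : 1 ≤ M) (h1 : M * (6 * l + 1) ^ 2 ≤ 24 * n + M)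
    (h2 : 24 * n + M < M * (6 * l + 5) ^ 2) : (cntS M n).card = 2 * l + 1 := by
  have hM' : (1 : ℤ) ≤ M := by exact_mod_cast hM
  have h1' : (M : ℤ) * (6 * l + 1) ^ 2 ≤ 24 * n + M := by exact_mod_cast h1
  have h2' : (24 : ℤ) * n + M < M * (6 * l + 5) ^ 2 := by exact_mod_cast h2
  have : cntS M n = Finset.Icc (-(l : ℤ)) l := by
    ext j
    rw [mem_cntS M n hM, Finset.mem_Icc]
    constructor
    · intro h
      by_contra hcon
      have hl : (0 : ℤ) ≤ l := by positivity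
      have h3 : (6 * (l : ℤ) + 5) ^ 2 ≤ (6 * j - 1) ^ 2 := by
        rcases not_and_or.mp hcon with h4 | h4
        · push Not at h4; nlinarith
        · push Not at h4; nlinarith
      nlinarith
    · rintro ⟨h3, h4⟩
      have h5 : (6 * j - 1) ^ 2 ≤ (6 * (l : ℤ) + 1) ^ 2 := by
        have : |6 * j - 1| ≤ |6 * (l : ℤ) + 1| := by
          rw [abs_of_nonneg (by positivity : (0 : ℤ) ≤ 6 * (l : ℤ) + 1), abs_le]
          constructor <;> linarith
        exact sq_le_sq.mpr this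
      nlinarith
  rw [this]; simp; omega

theorem cnt_even (M n l : ℕ) (hM : 1 ≤ M) (hl : 1 ≤ l) (h1 : M * (6 * l - 1) ^ 2 ≤ 24 * n + M)
    (h2 : 24 * n + M < M * (6 * l + 1) ^ 2) : (cntS M n).card = 2 * l := by
  have hM' : (1 : ℤ) ≤ M := by exact_mod_cast hM
  obtain ⟨t, rfl⟩ : ∃ t, l = t + 1 := ⟨l - 1, by omega⟩
  have e1 : 6 * (t + 1) - 1 = 6 * t + 5 := by omega
  rw [e1] at h1
  have h1' : (M : ℤ) * (6 * t + 5) ^ 2 ≤ 24 * n + M := by exact_mod_cast h1
  have h2' : (24 : ℤ) * n + M < M * (6 * (t + 1) + 1) ^ 2 := by exact_mod_cast h2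
  have : cntS M n = Finset.Icc (-(t : ℤ)) (t + 1) := by
    ext j
    rw [mem_cntS M n hM, Finset.mem_Icc]
    constructor
    · intro h
      by_contra hcon
      have hl : (0 : ℤ) ≤ t := by positivity
      have h3 : (6 * ((t : ℤ) + 1) + 1) ^ 2 ≤ (6 * j - 1) ^ 2 := by
        rcases not_and_or.mp hcon with h4 | h4
        · push Not at h4; nlinarith
        · push Not at h4; nlinarith
      nlinarith
    · rintro ⟨h3, h4⟩
      have h5 : (6 * j - 1) ^ 2 ≤ (6 * (t : ℤ) + 5) ^ 2 := by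
        have : |6 * j - 1| ≤ |6 * (t : ℤ) + 5| := by
          rw [abs_of_nonneg (by positivity : (0 : ℤ) ≤ 6 * (t : ℤ) + 5), abs_le]
          constructor <;> linarith
        exact sq_le_sq.mpr this
      nlinarith
  rw [this]; simp; omega

/-- the partial sums of partition numbers at `n - M g_j`, modulo 2 -/
noncomputable def psum (M n : ℕ) : ZMod 2 :=
  ∑ j ∈ Finset.Icc (-(n : ℤ)) n,
      if M * pentagonal j ≤ n then
        (Fintype.card (Nat.Partition (n - M * pentagonal j)) : ZMod 2) else 0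

theorem psum_of_odd (M n : ℕ)
    (h : ∀ j : ℤ, M * pentagonal j ≤ n →
      ¬ Even (Fintype.card (Nat.Partition (n - M * pentagonal j)))) :
    psum M n = ((cntS M n).card : ZMod 2) := by
  unfold psum
  rw [← Finset.sum_filter]
  have : ∀ j ∈ (Finset.Icc (-(n : ℤ)) n).filter (fun j => M * pentagonal j ≤ n),
      (Fintype.card (Nat.Partition (n - M * pentagonal j)) : ZMod 2) = 1 := by
    intro j hj
    have := h j (Finset.mem_filter.mp hj).2
    rw [Nat.not_even_iff_odd] at this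
    exact (ZMod.natCast_eq_one_iff_odd).mpr this
  rw [Finset.sum_congr rfl this]
  simp [cntS]

/-- comparison: a coincidence of coefficients with term counts of different parity produces an
even partition number. -/
theorem exists_even (M n n' : ℕ) (hs : psum M n = psum M n')
    (h1 : Even (cntS M n).card) (h2 : Odd (cntS M n').card) :
    (∃ j : ℤ, M * pentagonal j ≤ n ∧
      Even (Fintype.card (Nat.Partition (n - M * pentagonal j)))) ∨
    (∃ j : ℤ, M * pentagonal j ≤ n' ∧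
      Even (Fintype.card (Nat.Partition (n' - M * pentagonal j)))) := by
  by_contra hcon
  push Not at hcon
  obtain ⟨ha, hb⟩ := hcon
  rw [psum_of_odd M n ha, psum_of_odd M n' hb] at hs
  have e1 : ((cntS M n).card : ZMod 2) = 0 := (ZMod.natCast_eq_zero_iff_even).mpr h1
  have e2 : ((cntS M n').card : ZMod 2) = 1 := (ZMod.natCast_eq_one_iff_odd).mpr h2
  rw [e1, e2] at hs
  exact absurd hs (by decide)

/-- counting a residue class in an interval of integers -/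
theorem card_class_le (J p : ℕ) (hp : 0 < p) (c : ℤ) :
    (((Finset.Icc (-(J : ℤ)) J).filter (fun j => (p : ℤ) ∣ j - c)).card : ℝ)
      ≤ (2 * J + 1) / p + 1 := by
  have h1 : (Finset.Icc (-(J : ℤ)) J).filter (fun j => (p : ℤ) ∣ j - c)
      = (Finset.Ico (-(J : ℤ)) (J + 1)).filter (fun j => j ≡ c [ZMOD p]) := by
    ext j
    simp only [Finset.mem_filter, Finset.mem_Icc, Finset.mem_Ico, Int.modEq_iff_dvd]
    rw [← dvd_neg (a := (p : ℤ)) (b := j - c)]
    simp only [neg_sub]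
    constructor
    · rintro ⟨h, h'⟩; exact ⟨by omega, h'⟩
    · rintro ⟨h, h'⟩; exact ⟨by omega, h'⟩
  rw [h1]
  have hp' : (0 : ℤ) < p := by exact_mod_cast hp
  have h2 := Int.Ico_filter_modEq_card (-(J : ℤ)) (J + 1) hp' c
  have hpR : (0 : ℝ) < p := by exact_mod_cast hp
  have h3 : ((((Finset.Ico (-(J : ℤ)) (J + 1)).filter (fun j => j ≡ c [ZMOD p])).card : ℤ) : ℝ)
      ≤ (2 * J + 1) / p + 1 := by
    rw [h2]
    have hA : (⌈(((J + 1 : ℤ) : ℚ) - (c : ℚ)) / ((p : ℤ) : ℚ)⌉ : ℚ) <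
        (((J + 1 : ℤ) : ℚ) - c) / ((p : ℤ) : ℚ) + 1 := Int.ceil_lt_add_one _
    have hB : (((-(J : ℤ) : ℤ) : ℚ) - c) / ((p : ℤ) : ℚ) ≤
        (⌈(((-(J : ℤ) : ℤ) : ℚ) - (c : ℚ)) / ((p : ℤ) : ℚ)⌉ : ℚ) := Int.le_ceil _
    have hpQ : (0 : ℚ) < p := by exact_mod_cast hp
    have hC : ((⌈(((J + 1 : ℤ) : ℚ) - (c : ℚ)) / ((p : ℤ) : ℚ)⌉ -
        ⌈(((-(J : ℤ) : ℤ) : ℚ) - (c : ℚ)) / ((p : ℤ) : ℚ)⌉ : ℤ) : ℚ) ≤ (2 * J + 1) / p + 1 := by
      push_cast at hA hB ⊢
      have : ((J : ℚ) + 1 - c) / p - (-J - c) / p = (2 * J + 1) / p := by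
        field_simp; ring
      linarith
    have hD : ((⌈(((J + 1 : ℤ) : ℚ) - (c : ℚ)) / ((p : ℤ) : ℚ)⌉ -
        ⌈(((-(J : ℤ) : ℤ) : ℚ) - (c : ℚ)) / ((p : ℤ) : ℚ)⌉ : ℤ) : ℝ) ≤ (2 * J + 1) / p + 1 := by
      generalize (⌈(((J + 1 : ℤ) : ℚ) - (c : ℚ)) / ((p : ℤ) : ℚ)⌉ -
        ⌈(((-(J : ℤ) : ℤ) : ℚ) - (c : ℚ)) / ((p : ℤ) : ℚ)⌉ : ℤ) = z at hC ⊢
      have hE : ((z : ℚ) : ℝ) ≤ (((2 * J + 1) / p + 1 : ℚ) : ℝ) := by exact_mod_cast hC
      push_cast at hE
      exact hE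
    rw [Int.cast_max]
    apply max_le
    · simpa using hD
    · push_cast
      positivity
  exact_mod_cast h3

/-- number of `j` with `p ∣ N(e + M g_j)`. -/
theorem card_hits_le (k m J p e : ℕ) (hp : p.Prime) (h5 : 5 ≤ p) (hm : 3 * m + 1 = 4 ^ k) :
    (((Finset.Icc (-(J : ℤ)) J).filter
      (fun j => p ∣ 8 * (e + 4 ^ k * pentagonal j) + m)).card : ℝ)
      ≤ 2 * ((2 * J + 1) / p + 1) := by
  classical
  set S := (Finset.Icc (-(J : ℤ)) J).filter
      (fun j => p ∣ 8 * (e + 4 ^ k * pentagonal j) + m) with hS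
  rcases S.eq_empty_or_nonempty with h0 | ⟨j0, hj0⟩
  · rw [h0]; simp; positivity
  have hpI : Prime (p : ℤ) := Nat.prime_iff_prime_int.mp hp
  have hnot : ∀ a : ℕ, 0 < a → a < 5 → ¬ (p : ℤ) ∣ (a : ℤ) := by
    intro a ha ha5 hd
    have := Nat.le_of_dvd ha (by exact_mod_cast hd)
    omega
  -- inverse of 3 mod p
  have hcop : IsCoprime (3 : ℤ) p := by
    rw [show (3 : ℤ) = ((3 : ℕ) : ℤ) from rfl, Nat.isCoprime_iff_coprime]
    exact (Nat.coprime_primes Nat.prime_three hp).mpr (by omega)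
  obtain ⟨u, v, huv⟩ := hcop
  have hsub : S ⊆ ((Finset.Icc (-(J : ℤ)) J).filter (fun j => (p : ℤ) ∣ j - j0)) ∪
      ((Finset.Icc (-(J : ℤ)) J).filter (fun j => (p : ℤ) ∣ j - u * (1 - 3 * j0))) := by
    intro j hj
    rw [hS, Finset.mem_filter] at hj hj0
    rw [Finset.mem_union, Finset.mem_filter, Finset.mem_filter]
    have hmI : (3 : ℤ) * m + 1 = 4 ^ k := by exact_mod_cast hm
    have d1 : (p : ℤ) ∣ 8 * (e + 4 ^ k * pentagonal j) + m := by exact_mod_cast hj.2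
    have d0 : (p : ℤ) ∣ 8 * (e + 4 ^ k * pentagonal j0) + m := by exact_mod_cast hj0.2
    have hd := dvd_sub d1 d0
    have e1 := pent24 j
    have e0 := pent24 j0
    have hd3 : (p : ℤ) ∣ 4 ^ k * (12 * ((j - j0) * (3 * (j + j0) - 1))) := by
      have h3 := Dvd.dvd.mul_left hd 3
      have : (3 : ℤ) * (8 * (e + 4 ^ k * pentagonal j) + m - (8 * (e + 4 ^ k * pentagonal j0) + m))
          = 4 ^ k * (12 * ((j - j0) * (3 * (j + j0) - 1))) := by
        have : (24 : ℤ) * pentagonal j - 24 * pentagonal j0 = (6 * j - 1) ^ 2 - (6 * j0 - 1) ^ 2 := by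
          linarith
        linear_combination (4 ^ k : ℤ) * this
      rwa [this] at h3
    have hd4 : (p : ℤ) ∣ (j - j0) * (3 * (j + j0) - 1) := by
      rcases hpI.dvd_or_dvd hd3 with h | h
      · have := hpI.dvd_of_dvd_pow h
        exact absurd this (hnot 4 (by norm_num) (by norm_num))
      · rcases hpI.dvd_or_dvd h with h | h
        · rw [show (12 : ℤ) = 4 * 3 by norm_num] at h
          rcases hpI.dvd_or_dvd h with h | h
          · exact absurd h (hnot 4 (by norm_num) (by norm_num))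
          · exact absurd h (hnot 3 (by norm_num) (by norm_num))
        · exact h
    rcases hpI.dvd_or_dvd hd4 with h | h
    · exact Or.inl ⟨hj.1, h⟩
    · right
      refine ⟨hj.1, ?_⟩
      obtain ⟨w, hw⟩ := h
      refine ⟨u * w + v * (j), ?_⟩
      linear_combination u * hw - huv * j
  have hc := Finset.card_le_card hsub
  have hc2 := (Finset.card_union_le ((Finset.Icc (-(J : ℤ)) J).filter (fun j => (p : ℤ) ∣ j - j0))
      ((Finset.Icc (-(J : ℤ)) J).filter (fun j => (p : ℤ) ∣ j - u * (1 - 3 * j0))))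
  have g1 := card_class_le J p hp.pos j0
  have g2 := card_class_le J p hp.pos (u * (1 - 3 * j0))
  have hc3 : (S.card : ℝ) ≤
      (((Finset.Icc (-(J : ℤ)) J).filter (fun j => (p : ℤ) ∣ j - j0)).card : ℝ) +
      (((Finset.Icc (-(J : ℤ)) J).filter (fun j => (p : ℤ) ∣ j - u * (1 - 3 * j0))).card : ℝ) := by
    exact_mod_cast hc.trans hc2
  linarith

/-- numbers in a residue class mod 8 in a real interval -/
theorem card_AP_ge (c N : ℕ) (hc : c < 8) (r1 r2 : ℝ) (h0 : 0 ≤ r1) (h2 : r2 < N + 1) :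
    (r2 - r1) / 8 - 1 ≤
      (((Finset.range (N + 1)).filter (fun r : ℕ => r % 8 = c ∧ r1 ≤ r ∧ (r : ℝ) ≤ r2)).card : ℝ) := by
  set A : ℝ := (r1 - c) / 8 with hA
  set B : ℝ := (r2 - c) / 8 with hB
  have hc' : (c : ℝ) ≤ 7 := by exact_mod_cast (by omega : c ≤ 7)
  have hc0 : (0 : ℝ) ≤ c := by positivity
  rcases lt_or_ge B 0 with hBn | hBn
  · have : (r2 - r1) / 8 - 1 ≤ 0 := by
      rw [hB] at hBn
      have : r2 < c := by linarith
      linarith
    exact this.trans (by positivity)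
  have hinj : ((Finset.Icc ⌈A⌉₊ ⌊B⌋₊).image (fun i => 8 * i + c)) ⊆
      (Finset.range (N + 1)).filter (fun r : ℕ => r % 8 = c ∧ r1 ≤ r ∧ (r : ℝ) ≤ r2) := by
    intro r hr
    obtain ⟨i, hi, rfl⟩ := Finset.mem_image.mp hr
    rw [Finset.mem_Icc] at hi
    have hi1 : A ≤ i := Nat.ceil_le.mp hi.1
    have hi2 : (i : ℝ) ≤ B := (Nat.le_floor_iff hBn).mp hi.2
    have hr2 : ((8 * i + c : ℕ) : ℝ) ≤ r2 := by push_cast; rw [hB] at hi2; linarith
    rw [Finset.mem_filter, Finset.mem_range]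
    refine ⟨?_, by omega, by push_cast; rw [hA] at hi1; linarith, hr2⟩
    have : ((8 * i + c : ℕ) : ℝ) < ((N + 1 : ℕ) : ℝ) := by push_cast at hr2 ⊢; linarith
    exact_mod_cast this
  have hcard := Finset.card_le_card hinj
  rw [Finset.card_image_of_injective _ (fun a b h => by simpa using h), Nat.card_Icc] at hcard
  have h3 : ((⌊B⌋₊ + 1 - ⌈A⌉₊ : ℕ) : ℝ) ≤
      (((Finset.range (N + 1)).filter (fun r : ℕ => r % 8 = c ∧ r1 ≤ r ∧ (r : ℝ) ≤ r2)).card : ℝ) := by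
    exact_mod_cast hcard
  refine le_trans ?_ h3
  have h4 : ((⌊B⌋₊ + 1 : ℕ) : ℝ) - ⌈A⌉₊ ≤ ((⌊B⌋₊ + 1 - ⌈A⌉₊ : ℕ) : ℝ) := by
    rw [sub_le_iff_le_add]
    exact_mod_cast (by omega : ⌊B⌋₊ + 1 ≤ (⌊B⌋₊ + 1 - ⌈A⌉₊) + ⌈A⌉₊)
  refine le_trans ?_ h4
  push_cast
  have h5 : B < ⌊B⌋₊ + 1 := Nat.lt_floor_add_one B
  have h6 : (⌈A⌉₊ : ℝ) ≤ A + 1 := by
    rcases le_or_gt 0 A with hA0 | hA0
    · exact (Nat.ceil_lt_add_one hA0).le
    · rw [Nat.ceil_eq_zero.mpr hA0.le]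
      rw [hA]; push_cast; linarith
  have : B - A = (r2 - r1) / 8 := by rw [hA, hB]; ring
  linarith

end Pool.Agent.H397R2.PP
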