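import Pool.Agent.H397R2.PP.Defs

set_option autoImplicit false

namespace Pool.Agent.H397R2.PP

open Complex in
theorem norm_geom_le (κ : ℝ) (h1 : 1 < κ) (h2 : κ ≤ 3 / 2) (L : ℕ) :
    ‖∑ l ∈ Finset.Icc 1 L, cexp (2 * Real.pi * κ * l * I)‖ ≤ 1 / (2 * (κ - 1)) := by
  set z : ℂ := cexp (2 * Real.pi * κ * I) with hz
  have hz1 : ‖z‖ = 1 := by
    have : (2 * Real.pi * κ * I : ℂ) = ((2 * Real.pi * κ : ℝ) : ℂ) * I := by push_cast; ring
    rw [hz, this, norm_exp_ofReal_mul_I]
  have hsum : ∑ l ∈ Finset.Icc 1 L, cexp (2 * Real.pi * κ * l * I)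
      = z * ∑ l ∈ Finset.range L, z ^ l := by
    rw [Finset.mul_sum]
    have : Finset.Icc 1 L = (Finset.range L).map ⟨(· + 1), add_left_injective 1⟩ := by
      ext a; simp only [Finset.mem_Icc, Finset.mem_map, Finset.mem_range,
        Function.Embedding.coeFn_mk]
      constructor
      · rintro ⟨h1, h2⟩; exact ⟨a - 1, by omega, by omega⟩
      · rintro ⟨b, hb, rfl⟩; omega
    rw [this, Finset.sum_map]
    refine Finset.sum_congr rfl fun l _ => ?_
    simp only [Function.Embedding.coeFn_mk]
    rw [← pow_succ', hz, ← Complex.exp_nat_mul]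
    congr 1; push_cast; ring
  have hne : ‖1 - z‖ ≥ 4 * (κ - 1) := by
    have hkey : ‖1 - z‖ = 2 * |Real.sin (Real.pi * κ)| := by
      have h3 : (1 : ℂ) - z = -(2 * I * Complex.sin (Real.pi * κ)) * cexp (Real.pi * κ * I) := by
        have h4 : z = cexp (Real.pi * κ * I) * cexp (Real.pi * κ * I) := by
          rw [hz, ← Complex.exp_add]; congr 1; ring
        have h5 : cexp (Real.pi * κ * I) * cexp (-(Real.pi * κ * I)) = 1 := by
          rw [← Complex.exp_add]; simp
        rw [Complex.sin, h4]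
        have h6 : cexp (-(Real.pi * κ) * I) = cexp (-(Real.pi * κ * I)) := by congr 1; ring
        rw [h6]
        linear_combination (-1 : ℂ) * h5 + (cexp (-(Real.pi * κ * I)) * cexp (Real.pi * κ * I)
          - cexp (Real.pi * κ * I) * cexp (Real.pi * κ * I)) * I_mul_I
      have h7 : ‖cexp (Real.pi * κ * I)‖ = 1 := by
        have : (Real.pi * κ * I : ℂ) = ((Real.pi * κ : ℝ) : ℂ) * I := by push_cast; ring
        rw [this, norm_exp_ofReal_mul_I]
      rw [h3, norm_mul, h7, norm_neg, norm_mul, norm_mul]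
      have : Complex.sin (Real.pi * κ) = ((Real.sin (Real.pi * κ) : ℝ) : ℂ) := by
        push_cast; rfl
      rw [this, Complex.norm_real, Real.norm_eq_abs]
      simp
    rw [hkey]
    have h8 : Real.sin (Real.pi * κ) = - Real.sin (Real.pi * (κ - 1)) := by
      have : Real.pi * κ = Real.pi * (κ - 1) + Real.pi := by ring
      rw [this, Real.sin_add_pi]
    rw [h8, abs_neg]
    have h9 : 2 / Real.pi * (Real.pi * (κ - 1)) ≤ Real.sin (Real.pi * (κ - 1)) := by
      apply Real.mul_le_sin
      · exact mul_nonneg Real.pi_pos.le (by linarith)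
      · have := Real.pi_pos
        nlinarith
    have h10 : 2 / Real.pi * (Real.pi * (κ - 1)) = 2 * (κ - 1) := by
      field_simp
    rw [h10] at h9
    have := le_abs_self (Real.sin (Real.pi * (κ - 1)))
    linarith
  have hpos : 0 < ‖1 - z‖ := lt_of_lt_of_le (by linarith) hne
  have hz_ne : z ≠ 1 := by
    intro h; rw [h] at hpos; simp at hpos
  rw [hsum, norm_mul, hz1, one_mul, geom_sum_eq hz_ne, norm_div]
  have h11 : ‖z ^ L - 1‖ ≤ 2 := by
    calc ‖z ^ L - 1‖ ≤ ‖z ^ L‖ + ‖(1 : ℂ)‖ := norm_sub_le _ _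
      _ = 2 := by rw [norm_pow, hz1]; norm_num
  have h12 : ‖z - 1‖ = ‖1 - z‖ := norm_sub_rev _ _
  rw [h12]
  calc ‖z ^ L - 1‖ / ‖1 - z‖ ≤ 2 / (4 * (κ - 1)) := by
        apply div_le_div₀ (by norm_num) h11 (by linarith) hne
    _ = 1 / (2 * (κ - 1)) := by
        have : κ - 1 ≠ 0 := by linarith
        field_simp; norm_num

open Classical in
/-- TASK R (rotation lemma). -/
theorem rotation (κ : ℝ) (h1 : 1 < κ) (h2 : κ ≤ 3 / 2) (L : ℕ) (hL : 1 ≤ L * (κ - 1)) :
    (18 : ℝ) / 100 * L ≤
      (((Finset.Icc 1 L).filter (fun l : ℕ => ∃ a : ℤ, (1 : ℝ) / 2 ≤ 6 * κ * l - 6 * a ∧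
        6 * κ * l - 6 * a ≤ 11 / 2)).card : ℝ) := by
  have hsum : ∑ l ∈ Finset.Icc 1 L, Real.cos (2 * Real.pi * κ * l) ≤ L / 2 := by
    have h3 := norm_geom_le κ h1 h2 L
    have h4 : (∑ l ∈ Finset.Icc 1 L, Complex.exp (2 * Real.pi * κ * l * Complex.I)).re
        = ∑ l ∈ Finset.Icc 1 L, Real.cos (2 * Real.pi * κ * l) := by
      rw [Complex.re_sum]
      refine Finset.sum_congr rfl fun l _ => ?_
      have : (2 * Real.pi * κ * l * Complex.I : ℂ)
          = ((2 * Real.pi * κ * l : ℝ) : ℂ) * Complex.I := by push_cast; ring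
      rw [this, Complex.exp_ofReal_mul_I_re]
    rw [← h4]
    refine (Complex.re_le_norm _).trans (h3.trans ?_)
    rw [div_le_div_iff₀ (by linarith) (by norm_num)]
    nlinarith
  have hgood : ∀ l ∈ Finset.Icc 1 L, 1 - Real.cos (2 * Real.pi * κ * l) ≤
      14 / 100 + (if (∃ a : ℤ, (1 : ℝ) / 2 ≤ 6 * κ * l - 6 * a ∧
        6 * κ * l - 6 * a ≤ 11 / 2) then (186:ℝ) / 100 else 0) := by
    intro l _
    split_ifs with hg
    · have := Real.neg_one_le_cos (2 * Real.pi * κ * l)
      linarith
    · push Not at hg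
      set a : ℤ := ⌊κ * l⌋ with ha
      have hf0 : 0 ≤ κ * l - a := sub_nonneg.mpr (Int.floor_le _)
      have hf1 : κ * l - a < 1 := by
        have := Int.lt_floor_add_one (κ * l); rw [← ha] at this; linarith
      set t : ℝ := κ * l - a with ht
      have hcos : Real.cos (2 * Real.pi * κ * l) = Real.cos (2 * Real.pi * t) := by
        have : 2 * Real.pi * κ * l = 2 * Real.pi * t + a * (2 * Real.pi) := by rw [ht]; ring
        rw [this, Real.cos_add_int_mul_two_pi]
      have hpi := Real.pi_pos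
      have hc6 : (86 : ℝ) / 100 ≤ Real.cos (Real.pi / 6) := by
        rw [Real.cos_pi_div_six]
        have : (1.72 : ℝ) ≤ Real.sqrt 3 := by
          apply Real.le_sqrt_of_sq_le; norm_num
        linarith
      have hcase : t < 1 / 12 ∨ 11 / 12 < t := by
        by_contra hcon
        push Not at hcon
        have := hg a (by rw [ht] at hcon; nlinarith [hcon.1])
        rw [ht] at hcon
        nlinarith [hcon.2]
      rw [hcos]
      rcases hcase with h | h
      · have : Real.cos (Real.pi / 6) ≤ Real.cos (2 * Real.pi * t) := by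
          apply Real.cos_le_cos_of_nonneg_of_le_pi
          · positivity
          · linarith
          · nlinarith
        linarith
      · have h13 : Real.cos (2 * Real.pi * t) = Real.cos (2 * Real.pi * (1 - t)) := by
          have : 2 * Real.pi * (1 - t) = 2 * Real.pi - 2 * Real.pi * t := by ring
          rw [this, Real.cos_two_pi_sub]
        have : Real.cos (Real.pi / 6) ≤ Real.cos (2 * Real.pi * (1 - t)) := by
          apply Real.cos_le_cos_of_nonneg_of_le_pi
          · apply mul_nonneg (by positivity); linarith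
          · linarith
          · nlinarith
        linarith
  have hS := Finset.sum_le_sum hgood
  rw [Finset.sum_sub_distrib, Finset.sum_add_distrib, ← Finset.sum_filter] at hS
  simp only [Finset.sum_const, Nat.card_Icc, nsmul_eq_mul, add_tsub_cancel_right, mul_one] at hS
  linarith

end Pool.Agent.H397R2.PP
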