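import Pool.Agent.H397R2.PP.D1
import Pool.Agent.H397R2.PP.R

set_option autoImplicit false

namespace Pool.Agent.H397R2.PP

open PowerSeries

theorem sum_ge_card (G : Finset ℕ) (h : ∀ l ∈ G, 1 ≤ l) :
    (G.card : ℝ) ^ 2 / 2 ≤ ∑ l ∈ G, (l : ℝ) := by
  suffices H : G.card * (G.card + 1) ≤ 2 * ∑ l ∈ G, l by
    have : ((G.card * (G.card + 1) : ℕ) : ℝ) ≤ ((2 * ∑ l ∈ G, l : ℕ) : ℝ) := by exact_mod_cast H
    push_cast at this
    nlinarith
  induction hn : G.card generalizing G with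
  | zero => simp
  | succ n ih =>
    have hne : G.Nonempty := Finset.card_pos.mp (by omega)
    set a := G.max' hne with ha
    have haG : a ∈ G := Finset.max'_mem G hne
    have hcard : (G.erase a).card = n := by rw [Finset.card_erase_of_mem haG]; omega
    have h1 := ih (G.erase a) (fun l hl => h l (Finset.mem_of_mem_erase hl)) hcard
    have hsub : G ⊆ Finset.Icc 1 a := fun l hl =>
      Finset.mem_Icc.mpr ⟨h l hl, Finset.le_max' G l hl⟩
    have h2 := Finset.card_le_card hsub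
    rw [Nat.card_Icc, hn] at h2
    have h3 : ∑ l ∈ G, l = a + ∑ l ∈ G.erase a, l := (Finset.add_sum_erase G _ haG).symm
    rw [h3]
    have h4 : n + 1 ≤ a := by omega
    have e : (n + 1) * (n + 1 + 1) = n * (n + 1) + 2 * (n + 1) := by ring
    rw [e]
    linarith

/-- the property of `r` used in the count -/
def Q (M p p' L r : ℕ) : Prop :=
  (∃ l, 1 ≤ l ∧ l ≤ L ∧ M * (6 * l - 1) ^ 2 ≤ 3 * (p * r) + 1 ∧
    3 * (p * r) + 1 < M * (6 * l + 1) ^ 2) ∧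
  (∃ l', M * (6 * l' + 1) ^ 2 ≤ 3 * (p' * r) + 1 ∧ 3 * (p' * r) + 1 < M * (6 * l' + 5) ^ 2)

set_option maxHeartbeats 2000000 in
theorem one_l (M p p' c Rm l : ℕ) (hM : 4 ≤ M) (hp : 0 < p) (hlt : p < p') (hle : p' ≤ 2 * p)
    (hc : c < 8) (hl : 1 ≤ l) (κ : ℝ) (hκ0 : 1 < κ) (hκ1 : κ ≤ 3 / 2) (hκ : κ ^ 2 = (p' : ℝ) / p)
    (a : ℤ) (ha1 : (1 : ℝ) / 2 ≤ 6 * κ * l - 6 * a) (ha2 : 6 * κ * l - 6 * a ≤ 11 / 2)
    (hRm : (M : ℝ) * (6.9 * l) ^ 2 / (3 * p) < Rm + 1) :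
    ∃ T : Finset ℕ, (M : ℝ) * l / (8 * p) - 1 ≤ T.card ∧ ∀ r ∈ T, r ≤ Rm ∧ r % 8 = c ∧
      (M * (6 * l - 1) ^ 2 ≤ 3 * (p * r) + 1 ∧ 3 * (p * r) + 1 < M * (6 * l + 1) ^ 2) ∧
      (∃ l', M * (6 * l' + 1) ^ 2 ≤ 3 * (p' * r) + 1 ∧
        3 * (p' * r) + 1 < M * (6 * l' + 5) ^ 2) := by
  have hMR : (4 : ℝ) ≤ M := by exact_mod_cast hM
  have hpR : (0 : ℝ) < p := by exact_mod_cast hp
  have hlR : (1 : ℝ) ≤ l := by exact_mod_cast hl
  -- a ≥ 1
  have ha : 1 ≤ a := by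
    have h1 : (0 : ℝ) < 6 * a := by nlinarith
    have h2 : (0 : ℝ) < a := by linarith
    have : (0 : ℤ) < a := by exact_mod_cast h2
    omega
  obtain ⟨b, rfl⟩ : ∃ b : ℕ, a = b := ⟨a.toNat, by omega⟩
  have hb : (1 : ℝ) ≤ b := by exact_mod_cast ha
  push_cast at ha1 ha2
  obtain ⟨y1, hy1a, hy1b, hk1, hk2⟩ : ∃ y1 : ℝ, 6 * l - 0.9 ≤ y1 ∧ y1 + 0.3 ≤ 6 * l + 0.9 ∧
      6 * b + 1.1 ≤ κ * y1 ∧ κ * (y1 + 0.3) ≤ 6 * b + 4.9 := by
    rcases le_or_gt (6 * κ * l - 6 * b) 3 with h | h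
    · exact ⟨6 * l + 0.6, by linarith, by linarith, by nlinarith, by nlinarith⟩
    · exact ⟨6 * l - 0.9, by linarith, by linarith, by nlinarith, by nlinarith⟩
  have hy1pos : 0 < y1 := by linarith
  set y2 : ℝ := y1 + 0.3 with hy2
  set r1 : ℝ := (M * y1 ^ 2 - 1) / (3 * p) with hr1
  set r2 : ℝ := (M * y2 ^ 2 - 1) / (3 * p) with hr2
  have hy1_5 : (5.1 : ℝ) ≤ y1 := by linarith
  have hr1_0 : 0 ≤ r1 := by
    apply div_nonneg _ (by positivity)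
    nlinarith
  have hy2le : y2 ≤ 6.9 * l := by linarith
  have hr2_N : r2 < Rm + 1 := by
    refine lt_of_le_of_lt ?_ hRm
    apply div_le_div_of_nonneg_right _ (by positivity)
    have : y2 ^ 2 ≤ (6.9 * l) ^ 2 := by
      apply pow_le_pow_left₀ (by linarith) hy2le
    nlinarith
  have hcard := card_AP_ge c Rm hc r1 r2 hr1_0 hr2_N
  refine ⟨_, le_trans ?_ hcard, ?_⟩
  · have h1 : r2 - r1 = M * (y2 ^ 2 - y1 ^ 2) / (3 * p) := by
      rw [hr1, hr2]; field_simp; ring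
    have h2 : 3 * l ≤ y2 ^ 2 - y1 ^ 2 := by
      rw [hy2]; nlinarith
    have h3 : (M : ℝ) * (3 * l) / (3 * p) ≤ r2 - r1 := by
      rw [h1]
      apply div_le_div_of_nonneg_right _ (by positivity)
      nlinarith
    have h4 : (M : ℝ) * (3 * l) / (3 * p) = 8 * (M * l / (8 * p)) := by field_simp
    linarith
  · intro r hr
    rw [Finset.mem_filter, Finset.mem_range] at hr
    obtain ⟨hrN, hrc, hra, hrb⟩ := hr
    have hw1 : (M : ℝ) * y1 ^ 2 ≤ 3 * (p * r) + 1 := by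
      rw [hr1, div_le_iff₀ (by positivity)] at hra
      linarith
    have hw2 : 3 * ((p : ℝ) * r) + 1 ≤ M * y2 ^ 2 := by
      rw [hr2, le_div_iff₀ (by positivity)] at hrb
      linarith
    have hκp : κ ^ 2 * p = p' := by rw [hκ]; field_simp
    have hp'R : (p' : ℝ) ≤ 2 * p := by exact_mod_cast hle
    refine ⟨by omega, hrc, ⟨?_, ?_⟩, ⟨b, ?_, ?_⟩⟩
    · have h1 : (M : ℝ) * (6 * l - 1) ^ 2 ≤ M * y1 ^ 2 := by
        apply mul_le_mul_of_nonneg_left _ (by linarith)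
        apply pow_le_pow_left₀ (by linarith) (by linarith)
      have h2 : (M : ℝ) * (6 * l - 1) ^ 2 ≤ 3 * (p * r) + 1 := h1.trans hw1
      have h3 : ((M * (6 * l - 1) ^ 2 : ℕ) : ℝ) ≤ ((3 * (p * r) + 1 : ℕ) : ℝ) := by
        rw [Nat.cast_mul, Nat.cast_pow, Nat.cast_sub (by omega)]
        push_cast; exact h2
      exact_mod_cast h3
    · have h1 : (M : ℝ) * y2 ^ 2 < M * (6 * l + 1) ^ 2 := by
        apply mul_lt_mul_of_pos_left _ (by linarith)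
        apply pow_lt_pow_left₀ (by linarith) (by linarith) (by norm_num)
      have h2 := hw2.trans_lt h1
      exact_mod_cast h2
    · have h1 : (M : ℝ) * (6 * b + 1) ^ 2 ≤ 3 * (p' * r) + 1 := by
        have e1 : 3 * ((p' : ℝ) * r) + 1 = κ ^ 2 * (3 * (p * r) + 1) - (κ ^ 2 - 1) := by
          rw [← hκp]; ring
        have e2 : κ ^ 2 * (M * y1 ^ 2) ≤ κ ^ 2 * (3 * (p * r) + 1) :=
          mul_le_mul_of_nonneg_left hw1 (by positivity)
        have e3 : (6 * (b : ℝ) + 1.1) ^ 2 ≤ (κ * y1) ^ 2 := by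
          apply pow_le_pow_left₀ (by positivity) hk1
        have e4 : κ ^ 2 ≤ 9 / 4 := by nlinarith
        have e5 : (M : ℝ) * (6 * (b : ℝ) + 1.1) ^ 2 ≤ M * (κ * y1) ^ 2 :=
          mul_le_mul_of_nonneg_left e3 (by linarith)
        rw [e1]
        nlinarith
      exact_mod_cast h1
    · have h1 : 3 * ((p' : ℝ) * r) + 1 < M * (6 * b + 5) ^ 2 := by
        have e1 : 3 * ((p' : ℝ) * r) + 1 = κ ^ 2 * (3 * (p * r) + 1) - (κ ^ 2 - 1) := by
          rw [← hκp]; ring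
        have e2 : κ ^ 2 * (3 * (p * r) + 1) ≤ κ ^ 2 * (M * y2 ^ 2) :=
          mul_le_mul_of_nonneg_left hw2 (by positivity)
        have e3 : (κ * y2) ^ 2 ≤ (6 * (b : ℝ) + 4.9) ^ 2 := by
          apply pow_le_pow_left₀ (by positivity) hk2
        have e4 : 1 ≤ κ ^ 2 := by nlinarith
        have e5 : (M : ℝ) * (κ * y2) ^ 2 ≤ M * (6 * (b : ℝ) + 4.9) ^ 2 :=
          mul_le_mul_of_nonneg_left e3 (by linarith)
        rw [e1]
        nlinarith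
      exact_mod_cast h1

end Pool.Agent.H397R2.PP
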