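import Pool.Agent.H397R2.PP.D2

set_option autoImplicit false

namespace Pool.Agent.H397R2.PP

open PowerSeries

theorem mod8_sq (p : ℕ) (hp : p % 2 = 1) : (p * p) % 8 = 1 := by
  have h : p % 8 = 1 ∨ p % 8 = 3 ∨ p % 8 = 5 ∨ p % 8 = 7 := by omega
  rcases h with h | h | h | h <;> simp [Nat.mul_mod, h]

theorem mod8_aux (p p' m r : ℕ) (hp : p % 2 = 1) (hmod : p % 8 = p' % 8)
    (hr : r % 8 = (p * m) % 8) : (p * r) % 8 = m % 8 ∧ (p' * r) % 8 = m % 8 := by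
  have h1 := mod8_sq p hp
  have h2 : (p * r) % 8 = m % 8 := by
    rw [Nat.mul_mod, hr, ← Nat.mul_mod, ← mul_assoc, Nat.mul_mod, h1]
    simp
  refine ⟨h2, ?_⟩
  rw [Nat.mul_mod, ← hmod, ← Nat.mul_mod, h2]

/-- lower bound for the number of good `r` (before removing multiples of `p`, `p'`) -/
theorem card_R0 (M p p' c Rm L : ℕ) (hM : 4 ≤ M) (hp : 0 < p) (hlt : p < p') (hle : p' ≤ 2 * p)
    (hc : c < 8) (κ : ℝ) (hκ0 : 1 < κ) (hκ1 : κ ≤ 3 / 2) (hκ : κ ^ 2 = (p' : ℝ) / p)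
    (hL : 1 ≤ L * (κ - 1)) (hRm : (M : ℝ) * (6.9 * L) ^ 2 / (3 * p) < Rm + 1) :
    ∃ R : Finset ℕ, (M : ℝ) / (8 * p) * ((18 / 100 * L) ^ 2 / 2) - L ≤ R.card ∧
      ∀ r ∈ R, r ≤ Rm ∧ r % 8 = c ∧ Q M p p' L r := by
  classical
  set G := (Finset.Icc 1 L).filter (fun l : ℕ => ∃ a : ℤ, (1 : ℝ) / 2 ≤ 6 * κ * l - 6 * a ∧
        6 * κ * l - 6 * a ≤ 11 / 2) with hG
  have hrot : (18 : ℝ) / 100 * L ≤ G.card := by
    have := rotation κ hκ0 hκ1 L hL
    convert this using 3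
  have hpR : (0 : ℝ) < p := by exact_mod_cast hp
  have hMR : (0 : ℝ) < M := by exact_mod_cast (by omega : 0 < M)
  have hex : ∀ l ∈ G, ∃ T : Finset ℕ, (M : ℝ) * l / (8 * p) - 1 ≤ T.card ∧ ∀ r ∈ T, r ≤ Rm ∧
      r % 8 = c ∧
      (M * (6 * l - 1) ^ 2 ≤ 3 * (p * r) + 1 ∧ 3 * (p * r) + 1 < M * (6 * l + 1) ^ 2) ∧
      (∃ l', M * (6 * l' + 1) ^ 2 ≤ 3 * (p' * r) + 1 ∧
        3 * (p' * r) + 1 < M * (6 * l' + 5) ^ 2) := by
    intro l hl
    rw [hG, Finset.mem_filter, Finset.mem_Icc] at hl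
    obtain ⟨⟨hl1, hlL⟩, a, ha1, ha2⟩ := hl
    refine one_l M p p' c Rm l hM hp hlt hle hc hl1 κ hκ0 hκ1 hκ a ha1 ha2 ?_
    refine lt_of_le_of_lt ?_ hRm
    apply div_le_div_of_nonneg_right _ (by positivity)
    apply mul_le_mul_of_nonneg_left _ hMR.le
    have : (l : ℝ) ≤ L := by exact_mod_cast hlL
    apply pow_le_pow_left₀ (by positivity)
    linarith
  choose! T hT1 hT2 using hex
  have hdisj : (G : Set ℕ).PairwiseDisjoint T := by
    intro l hl l' hl' hne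
    rw [Function.onFun, Finset.disjoint_left]
    intro r hr hr'
    obtain ⟨_, _, ⟨h1, h2⟩, _⟩ := hT2 l hl r hr
    obtain ⟨_, _, ⟨h3, h4⟩, _⟩ := hT2 l' hl' r hr'
    have hl1 : 1 ≤ l := by
      have := hl; rw [Finset.mem_coe, hG, Finset.mem_filter, Finset.mem_Icc] at this; exact this.1.1
    have hl1' : 1 ≤ l' := by
      have := hl'; rw [Finset.mem_coe, hG, Finset.mem_filter, Finset.mem_Icc] at this
      exact this.1.1
    have key : ∀ u v : ℕ, 1 ≤ u → u < v → M * (6 * v - 1) ^ 2 ≤ 3 * (p * r) + 1 →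
        3 * (p * r) + 1 < M * (6 * u + 1) ^ 2 → False := by
      intro u v _ huv h5 h6
      have h7 : M * (6 * v - 1) ^ 2 < M * (6 * u + 1) ^ 2 := lt_of_le_of_lt h5 h6
      have h8 : (6 * v - 1) ^ 2 < (6 * u + 1) ^ 2 := lt_of_mul_lt_mul_left h7 (by omega)
      have h9 : 6 * v - 1 < 6 * u + 1 := lt_of_pow_lt_pow_left₀ 2 (by omega) h8
      omega
    rcases lt_or_gt_of_ne hne with h | h
    · exact key l l' hl1 h h3 h2
    · exact key l' l hl1' h h1 h4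
  refine ⟨G.biUnion T, ?_, ?_⟩
  · rw [Finset.card_biUnion hdisj]
    push_cast
    have h1 : ∑ l ∈ G, ((M : ℝ) * l / (8 * p) - 1) ≤ ∑ l ∈ G, ((T l).card : ℝ) :=
      Finset.sum_le_sum (fun l hl => hT1 l hl)
    refine le_trans ?_ h1
    rw [Finset.sum_sub_distrib]
    have h2 : ∑ l ∈ G, ((M : ℝ) * l / (8 * p)) = (M : ℝ) / (8 * p) * ∑ l ∈ G, (l : ℝ) := by
      rw [Finset.mul_sum]
      refine Finset.sum_congr rfl fun l _ => by ring
    rw [h2]
    have h3 := sum_ge_card G (fun l hl => by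
      rw [hG, Finset.mem_filter, Finset.mem_Icc] at hl; exact hl.1.1)
    have h4 : (G.card : ℝ) ≤ L := by
      have : G.card ≤ (Finset.Icc 1 L).card := Finset.card_filter_le _ _
      rw [Nat.card_Icc] at this
      exact_mod_cast (by omega : G.card ≤ L)
    have h5 : (18 / 100 * (L : ℝ)) ^ 2 / 2 ≤ ∑ l ∈ G, (l : ℝ) := by
      refine le_trans ?_ h3
      have : (18 / 100 * (L : ℝ)) ^ 2 ≤ (G.card : ℝ) ^ 2 :=
        pow_le_pow_left₀ (by positivity) hrot 2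
      linarith
    have h6 := mul_le_mul_of_nonneg_left h5 (by positivity : (0 : ℝ) ≤ (M : ℝ) / (8 * p))
    simp only [Finset.sum_const, nsmul_eq_mul, mul_one]
    linarith
  · intro r hr
    obtain ⟨l, hl, hrl⟩ := Finset.mem_biUnion.mp hr
    obtain ⟨h1, h2, h3, h4⟩ := hT2 l hl r hrl
    rw [hG, Finset.mem_filter, Finset.mem_Icc] at hl
    exact ⟨h1, h2, ⟨l, hl.1.1, hl.1.2, h3.1, h3.2⟩, h4⟩

/-- from a good `r` to an even partition number -/
theorem good_r (k m p p' x r L : ℕ) (hm : 3 * m + 1 = 4 ^ k)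
    (hp2 : p % 2 = 1) (hle : p' ≤ 2 * p) (hmod : p % 8 = p' % 8)
    (hid : ∀ n, psum (4 ^ k) n = coeff (8 * n + m) (Db ^ m))
    (hcoin : coeff (p * r) (Db ^ m) = coeff (p' * r) (Db ^ m))
    (hr8 : r % 8 = (p * m) % 8) (hQ : Q (4 ^ k) p p' L r) (hL : 4 ^ k * (5 * L ^ 2) ≤ x) :
    ∃ e ∈ (Finset.range (x + 1)).filter (fun n => Even (Fintype.card (Nat.Partition n))),
      ∃ j ∈ Finset.Icc (-((Nat.sqrt (x / 4 ^ k) : ℕ) : ℤ)) (Nat.sqrt (x / 4 ^ k) : ℕ),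
        p * r = 8 * (e + 4 ^ k * pentagonal j) + m ∨ p' * r = 8 * (e + 4 ^ k * pentagonal j) + m := by
  set M := 4 ^ k with hMdef
  have hM1 : 1 ≤ M := Nat.one_le_pow _ _ (by norm_num)
  obtain ⟨⟨l, hl1, hlL, hA, hB⟩, l', hC, hD⟩ := hQ
  obtain ⟨g1, g2⟩ := mod8_aux p p' m r hp2 hmod hr8
  have hlow : 3 * m + 1 ≤ 3 * (p * r) + 1 := by
    have : M * 1 ≤ M * (6 * l - 1) ^ 2 :=
      Nat.mul_le_mul_left _ (Nat.one_le_pow _ _ (by omega))
    omega
  have hlow' : 3 * m + 1 ≤ 3 * (p' * r) + 1 := by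
    have : M * 1 ≤ M * (6 * l' + 1) ^ 2 :=
      Nat.mul_le_mul_left _ (Nat.one_le_pow _ _ (by omega))
    omega
  obtain ⟨n, hn⟩ : ∃ n, p * r = 8 * n + m := ⟨(p * r - m) / 8, by omega⟩
  obtain ⟨n', hn'⟩ : ∃ n', p' * r = 8 * n' + m := ⟨(p' * r - m) / 8, by omega⟩
  have en : 3 * (p * r) + 1 = 24 * n + M := by omega
  have en' : 3 * (p' * r) + 1 = 24 * n' + M := by omega
  rw [en] at hA hB
  rw [en'] at hC hD
  have hc1 := cnt_even M n l hM1 hl1 hA hB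
  have hc2 := cnt_odd M n' l' hM1 hC hD
  have hs : psum M n = psum M n' := by
    rw [hid n, hid n', ← hn, ← hn', hcoin]
  have hex := exists_even M n n' hs (by rw [hc1]; exact even_two_mul l)
    (by rw [hc2]; exact odd_two_mul_add_one l')
  -- sizes
  have hnx : 24 * n + M < M * (6 * L + 1) ^ 2 := by
    refine lt_of_lt_of_le hB (Nat.mul_le_mul_left _ (Nat.pow_le_pow_left (by omega) 2))
  have hL1 : 1 ≤ L := le_trans hl1 hlL
  have hbig : 2 * (M * (6 * L + 1) ^ 2) ≤ 24 * x := by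
    have h1 : 2 * (M * (6 * L + 1) ^ 2) = M * (72 * L ^ 2 + 24 * L + 2) := by ring
    have h2 : 24 * x ≥ M * (120 * L ^ 2) := by nlinarith
    have h3 : 72 * L ^ 2 + 24 * L + 2 ≤ 120 * L ^ 2 := by nlinarith
    have h4 := Nat.mul_le_mul_left M h3
    omega
  have hpr : p' * r ≤ 2 * (p * r) := by nlinarith
  have hn'x : n' ≤ x := by omega
  have hnx' : n ≤ x := by omega
  have hJ : ∀ (N : ℕ), N ≤ x → ∀ j : ℤ, M * pentagonal j ≤ N →
      j ∈ Finset.Icc (-((Nat.sqrt (x / M) : ℕ) : ℤ)) (Nat.sqrt (x / M) : ℕ) := by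
    intro N hN j hj
    have h1 : pentagonal j ≤ x / M := by
      rw [Nat.le_div_iff_mul_le (by omega)]
      rw [mul_comm]; omega
    have h2 := sq_le_pent j
    have h3 : j.natAbs * j.natAbs ≤ x / M := by
      have h4 : ((j.natAbs * j.natAbs : ℕ) : ℤ) = j ^ 2 := by
        push_cast; rw [← sq, sq_abs]
      have : ((j.natAbs * j.natAbs : ℕ) : ℤ) ≤ ((x / M : ℕ) : ℤ) := by
        rw [h4]; exact h2.trans (by exact_mod_cast h1)
      exact_mod_cast this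
    have h5 : j.natAbs ≤ Nat.sqrt (x / M) := Nat.le_sqrt.mpr h3
    rw [Finset.mem_Icc]
    omega
  rcases hex with ⟨j, hj1, hj2⟩ | ⟨j, hj1, hj2⟩
  · refine ⟨n - M * pentagonal j, ?_, j, hJ n hnx' j hj1, Or.inl ?_⟩
    · rw [Finset.mem_filter, Finset.mem_range]; exact ⟨by omega, hj2⟩
    · rw [hn]; congr 2; omega
  · refine ⟨n' - M * pentagonal j, ?_, j, hJ n' hn'x j hj1, Or.inr ?_⟩
    · rw [Finset.mem_filter, Finset.mem_range]; exact ⟨by omega, hj2⟩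
    · rw [hn']; congr 2; omega

/-- upper bound for the number of good `r` in terms of the number of even partition numbers -/
theorem card_R_le (k m p p' : ℕ) (hm : 3 * m + 1 = 4 ^ k) (hp : p.Prime) (hp' : p'.Prime)
    (h5 : 5 ≤ p) (h5' : 5 ≤ p') (E : Finset ℕ) (J : ℕ) (R : Finset ℕ)
    (hR : ∀ r ∈ R, ∃ e ∈ E, ∃ j ∈ Finset.Icc (-(J : ℤ)) J,
        p * r = 8 * (e + 4 ^ k * pentagonal j) + m ∨ p' * r = 8 * (e + 4 ^ k * pentagonal j) + m) :
    (R.card : ℝ) ≤ E.card * (2 * ((2 * J + 1) / p + 1) + 2 * ((2 * J + 1) / p' + 1)) := by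
  classical
  set H : ℕ → ℕ → Finset ℤ := fun q e => (Finset.Icc (-(J : ℤ)) J).filter
      (fun j => q ∣ 8 * (e + 4 ^ k * pentagonal j) + m) with hH
  set F : ℕ → ℕ → Finset ℕ := fun q e =>
    (H q e).image (fun j => (8 * (e + 4 ^ k * pentagonal j) + m) / q) with hF
  have hsub : R ⊆ E.biUnion (fun e => F p e ∪ F p' e) := by
    intro r hr
    obtain ⟨e, he, j, hj, h | h⟩ := hR r hr
    · refine Finset.mem_biUnion.mpr ⟨e, he, Finset.mem_union_left _ ?_⟩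
      refine Finset.mem_image.mpr ⟨j, Finset.mem_filter.mpr ⟨hj, ?_⟩, ?_⟩
      · exact ⟨r, h.symm⟩
      · rw [← h]; exact Nat.mul_div_cancel_left _ hp.pos
    · refine Finset.mem_biUnion.mpr ⟨e, he, Finset.mem_union_right _ ?_⟩
      refine Finset.mem_image.mpr ⟨j, Finset.mem_filter.mpr ⟨hj, ?_⟩, ?_⟩
      · exact ⟨r, h.symm⟩
      · rw [← h]; exact Nat.mul_div_cancel_left _ hp'.pos
  have h1 := (Finset.card_le_card hsub).trans Finset.card_biUnion_le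
  have h2 : ∀ e ∈ E, ((F p e ∪ F p' e).card : ℝ) ≤
      2 * ((2 * J + 1) / p + 1) + 2 * ((2 * J + 1) / p' + 1) := by
    intro e _
    have g1 := card_hits_le k m J p e hp h5 hm
    have g2 := card_hits_le k m J p' e hp' h5' hm
    have g3 : (F p e ∪ F p' e).card ≤ (H p e).card + (H p' e).card :=
      (Finset.card_union_le _ _).trans (add_le_add Finset.card_image_le Finset.card_image_le)
    have g4 : ((F p e ∪ F p' e).card : ℝ) ≤ ((H p e).card : ℝ) + ((H p' e).card : ℝ) := by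
      exact_mod_cast g3
    linarith
  have h3 : (R.card : ℝ) ≤ ∑ e ∈ E, ((F p e ∪ F p' e).card : ℝ) := by exact_mod_cast h1
  refine h3.trans ((Finset.sum_le_sum h2).trans ?_)
  rw [Finset.sum_const, nsmul_eq_mul]

end Pool.Agent.H397R2.PP
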