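import Pool.Agent.H397R2.PP.D1

set_option autoImplicit false

namespace Pool.Agent.H397R2.PP

open PowerSeries

/-- the integers `n ≤ x` with an even number of partitions -/
def evenSet (x : ℕ) : Finset ℕ :=
  (Finset.range (x + 1)).filter (fun n => Even (Fintype.card (Nat.Partition n)))

/-- number of `j` with `3^a ∣ 8 (e + M g_j) + m`. -/
theorem card_hits3_le (k m J a e : ℕ) :
    (((Finset.Icc (-(J : ℤ)) J).filter
      (fun j => 3 ^ a ∣ 8 * (e + 4 ^ k * pentagonal j) + m)).card : ℝ)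
      ≤ (2 * J + 1) / 3 ^ a + 1 := by
  classical
  set S := (Finset.Icc (-(J : ℤ)) J).filter
      (fun j => 3 ^ a ∣ 8 * (e + 4 ^ k * pentagonal j) + m) with hS
  rcases S.eq_empty_or_nonempty with h0 | ⟨j0, hj0⟩
  · rw [h0]; simp; positivity
  have hsub : S ⊆ (Finset.Icc (-(J : ℤ)) J).filter (fun j => ((3 ^ a : ℕ) : ℤ) ∣ j - j0) := by
    intro j hj
    rw [hS, Finset.mem_filter] at hj hj0
    rw [Finset.mem_filter]
    refine ⟨hj.1, ?_⟩
    have d1 : (((3 ^ a : ℕ) : ℕ) : ℤ) ∣ ((8 * (e + 4 ^ k * pentagonal j) + m : ℕ) : ℤ) :=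
      Int.natCast_dvd_natCast.mpr hj.2
    have d0 : (((3 ^ a : ℕ) : ℕ) : ℤ) ∣ ((8 * (e + 4 ^ k * pentagonal j0) + m : ℕ) : ℤ) :=
      Int.natCast_dvd_natCast.mpr hj0.2
    have hd := dvd_sub d1 d0
    have e1 := two_mul_natCast_pentagonal j
    have e0 := two_mul_natCast_pentagonal j0
    have h1 : ((8 * (e + 4 ^ k * pentagonal j) + m : ℕ) : ℤ)
        - ((8 * (e + 4 ^ k * pentagonal j0) + m : ℕ) : ℤ)
        = (4 ^ (k + 1) * (3 * (j + j0) - 1)) * (j - j0) := by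
      push_cast
      linear_combination (4 * 4 ^ k : ℤ) * e1 - (4 * 4 ^ k : ℤ) * e0
    rw [h1] at hd
    refine IsCoprime.dvd_of_dvd_mul_left ?_ hd
    push_cast
    apply IsCoprime.pow_left
    apply IsCoprime.mul_right
    · apply IsCoprime.pow_right
      exact ⟨-1, 1, by norm_num⟩
    · exact ⟨j + j0, -1, by ring⟩
  have hc := Finset.card_le_card hsub
  have g1 := card_class_le J (3 ^ a) (by positivity) j0
  have hc3 : (S.card : ℝ) ≤
      (((Finset.Icc (-(J : ℤ)) J).filter (fun j => ((3 ^ a : ℕ) : ℤ) ∣ j - j0)).card : ℝ) := by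
    exact_mod_cast hc
  refine hc3.trans (g1.trans ?_)
  push_cast
  exact le_rfl

/-- numbers in a residue class in a half open interval -/
theorem card_AP24_ge (q c N : ℕ) (hc : c < q) (r1 r2 : ℝ) (h0 : 0 ≤ r1) (h2 : r2 ≤ N) :
    (r2 - r1) / q - 1 ≤
      (((Finset.range N).filter (fun r : ℕ => r % q = c ∧ r1 ≤ r ∧ (r : ℝ) < r2)).card : ℝ) := by
  have hq : (0 : ℝ) < q := by exact_mod_cast (by omega : 0 < q)
  set A : ℝ := (r1 - c) / q with hA
  set B : ℝ := (r2 - c) / q with hB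
  have hc' : (c : ℝ) < q := by exact_mod_cast hc
  have hinj : ((Finset.Ico ⌈A⌉₊ ⌈B⌉₊).image (fun i => q * i + c)) ⊆
      (Finset.range N).filter (fun r : ℕ => r % q = c ∧ r1 ≤ r ∧ (r : ℝ) < r2) := by
    intro r hr
    obtain ⟨i, hi, rfl⟩ := Finset.mem_image.mp hr
    rw [Finset.mem_Ico] at hi
    have hi1 : A ≤ i := Nat.ceil_le.mp hi.1
    have hi2 : (i : ℝ) < B := Nat.lt_ceil.mp hi.2
    rw [hB, lt_div_iff₀ hq] at hi2
    rw [hA, div_le_iff₀ hq] at hi1
    have hr2 : ((q * i + c : ℕ) : ℝ) < r2 := by push_cast; linarith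
    rw [Finset.mem_filter, Finset.mem_range]
    refine ⟨?_, ?_, by push_cast; linarith, hr2⟩
    · have : ((q * i + c : ℕ) : ℝ) < (N : ℝ) := lt_of_lt_of_le hr2 h2
      exact_mod_cast this
    · rw [Nat.mul_add_mod, Nat.mod_eq_of_lt hc]
  have hcard := Finset.card_le_card hinj
  rw [Finset.card_image_of_injective _ (fun a b h => by
    have h' : q * a + c = q * b + c := h
    have : q * a = q * b := by omega
    exact Nat.eq_of_mul_eq_mul_left (by omega) this), Nat.card_Ico] at hcard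
  have h3 : ((⌈B⌉₊ - ⌈A⌉₊ : ℕ) : ℝ) ≤
      (((Finset.range N).filter (fun r : ℕ => r % q = c ∧ r1 ≤ r ∧ (r : ℝ) < r2)).card : ℝ) := by
    exact_mod_cast hcard
  refine le_trans ?_ h3
  have h4 : ((⌈B⌉₊ : ℕ) : ℝ) - ⌈A⌉₊ ≤ ((⌈B⌉₊ - ⌈A⌉₊ : ℕ) : ℝ) := by
    rw [sub_le_iff_le_add]
    exact_mod_cast (by omega : ⌈B⌉₊ ≤ (⌈B⌉₊ - ⌈A⌉₊) + ⌈A⌉₊)
  refine le_trans ?_ h4
  have h5 : B ≤ ⌈B⌉₊ := Nat.le_ceil B
  have h6 : (⌈A⌉₊ : ℝ) ≤ A + 1 := by
    rcases le_or_gt 0 A with hA0 | hA0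
    · exact (Nat.ceil_lt_add_one hA0).le
    · rw [Nat.ceil_eq_zero.mpr hA0.le]
      have : -1 ≤ A := by
        rw [hA, le_div_iff₀ hq]; linarith
      push_cast; linarith
  have : B - A = (r2 - r1) / q := by rw [hA, hB]; ring
  linarith

/-- the `r` with `r ≡ c (8)`, `3 ∤ r` in an interval. -/
theorem card_classes_ge (c N : ℕ) (hc : c < 8) (r1 r2 : ℝ) (h0 : 0 ≤ r1) (h2 : r2 ≤ N) :
    (r2 - r1) / 12 - 2 ≤
      (((Finset.range N).filter
        (fun r : ℕ => (r % 8 = c ∧ r % 3 ≠ 0) ∧ r1 ≤ r ∧ (r : ℝ) < r2)).card : ℝ) := by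
  have a1 := card_AP24_ge 24 ((9 * c + 16) % 24) N (Nat.mod_lt _ (by norm_num)) r1 r2 h0 h2
  have a2 := card_AP24_ge 24 ((9 * c + 8) % 24) N (Nat.mod_lt _ (by norm_num)) r1 r2 h0 h2
  have hd : Disjoint
      ((Finset.range N).filter (fun r : ℕ => r % 24 = (9 * c + 16) % 24 ∧ r1 ≤ r ∧ (r : ℝ) < r2))
      ((Finset.range N).filter
        (fun r : ℕ => r % 24 = (9 * c + 8) % 24 ∧ r1 ≤ r ∧ (r : ℝ) < r2)) := by
    rw [Finset.disjoint_left]
    intro r h h'
    rw [Finset.mem_filter] at h h'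
    have := h.2.1; have := h'.2.1
    omega
  have hsub := Finset.card_le_card (Finset.union_subset
    (s := (Finset.range N).filter (fun r : ℕ => r % 24 = (9 * c + 16) % 24 ∧ r1 ≤ r ∧ (r : ℝ) < r2))
    (t := (Finset.range N).filter (fun r : ℕ => r % 24 = (9 * c + 8) % 24 ∧ r1 ≤ r ∧ (r : ℝ) < r2))
    (u := (Finset.range N).filter
        (fun r : ℕ => (r % 8 = c ∧ r % 3 ≠ 0) ∧ r1 ≤ r ∧ (r : ℝ) < r2))
    (by
      intro r h
      rw [Finset.mem_filter] at h ⊢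
      refine ⟨h.1, ⟨?_, ?_⟩, h.2.2⟩
      · have := h.2.1; omega
      · have := h.2.1; omega)
    (by
      intro r h
      rw [Finset.mem_filter] at h ⊢
      refine ⟨h.1, ⟨?_, ?_⟩, h.2.2⟩
      · have := h.2.1; omega
      · have := h.2.1; omega))
  rw [Finset.card_union_of_disjoint hd] at hsub
  have h3 := (Nat.cast_le (α := ℝ)).mpr hsub
  rw [Nat.cast_add] at h3
  refine le_trans ?_ h3
  push_cast at a1 a2
  linarith

theorem jbound (j : ℤ) (L : ℕ) (h : j * (3 * j - 1) < 3 * ((L + 1) * (L + 1))) :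
    -((L : ℤ) + 1) ≤ j ∧ j ≤ L + 1 := by
  have hL0 : (0 : ℤ) ≤ L := by positivity
  constructor
  · by_contra hcon
    push Not at hcon
    obtain ⟨t, ht⟩ : ∃ t : ℕ, j = -((L : ℤ) + 2) - t := ⟨(-(L + 2) - j).toNat, by omega⟩
    subst ht
    have ht0 : (0 : ℤ) ≤ t := by positivity
    have := mul_nonneg hL0 ht0
    have := mul_nonneg ht0 ht0
    linarith
  · by_contra hcon
    push Not at hcon
    obtain ⟨t, ht⟩ : ∃ t : ℕ, j = ((L : ℤ) + 2) + t := ⟨(j - (L + 2)).toNat, by omega⟩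
    subst ht
    have ht0 : (0 : ℤ) ≤ t := by positivity
    have := mul_nonneg hL0 ht0
    have := mul_nonneg ht0 ht0
    linarith

theorem mod8_aux' (P m r : ℕ) (hP : P % 2 = 1) (hr : r % 8 = (P * m) % 8) :
    (P * r) % 8 = m % 8 := by
  have h1 : (P * P) % 8 = 1 := by
    have h : P % 8 = 1 ∨ P % 8 = 3 ∨ P % 8 = 5 ∨ P % 8 = 7 := by omega
    rcases h with h | h | h | h <;> simp [Nat.mul_mod, h]
  rw [Nat.mul_mod, hr, ← Nat.mul_mod, ← mul_assoc, Nat.mul_mod, h1]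
  simp

/-- the set of good `r` -/
noncomputable def goodR (M P c N l : ℕ) : Finset ℕ :=
  (Finset.range N).filter (fun r : ℕ => (r % 8 = c ∧ r % 3 ≠ 0) ∧
    ((M : ℝ) * (6 * l + 1) ^ 2 - 1) / (3 * P) ≤ r ∧ (r : ℝ) < ((M : ℝ) * (6 * l + 5) ^ 2 - 1) / (3 * P))

theorem mem_goodR (M P c N l r : ℕ) (hP : 0 < P) : r ∈ goodR M P c N l ↔
    r < N ∧ (r % 8 = c ∧ r % 3 ≠ 0) ∧ M * (6 * l + 1) ^ 2 ≤ 3 * (P * r) + 1 ∧
      3 * (P * r) + 1 < M * (6 * l + 5) ^ 2 := by
  have hPR : (0 : ℝ) < P := by exact_mod_cast hP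
  unfold goodR
  rw [Finset.mem_filter, Finset.mem_range, div_le_iff₀ (by positivity), lt_div_iff₀ (by positivity)]
  have e1 : ((M : ℝ) * (6 * l + 1) ^ 2 - 1 ≤ r * (3 * P)) ↔
      M * (6 * l + 1) ^ 2 ≤ 3 * (P * r) + 1 := by
    rw [sub_le_iff_le_add, show (r : ℝ) * (3 * P) + 1 = ((3 * (P * r) + 1 : ℕ) : ℝ) by
      push_cast; ring, show (M : ℝ) * (6 * l + 1) ^ 2 = ((M * (6 * l + 1) ^ 2 : ℕ) : ℝ) by
      push_cast; ring, Nat.cast_le]
  have e2 : ((r : ℝ) * (3 * P) < (M : ℝ) * (6 * l + 5) ^ 2 - 1) ↔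
      3 * (P * r) + 1 < M * (6 * l + 5) ^ 2 := by
    rw [lt_sub_iff_add_lt, show (r : ℝ) * (3 * P) + 1 = ((3 * (P * r) + 1 : ℕ) : ℝ) by
      push_cast; ring, show (M : ℝ) * (6 * l + 5) ^ 2 = ((M * (6 * l + 5) ^ 2 : ℕ) : ℝ) by
      push_cast; ring, Nat.cast_lt]
  rw [e1, e2]

theorem card_goodR (M P c N l : ℕ) (hM : 1 ≤ M) (hP : 0 < P) (hc : c < 8)
    (hN : M * (6 * l + 5) ^ 2 ≤ 3 * (P * N)) :
    2 * (M : ℝ) * (2 * l + 1) / (3 * P) - 2 ≤ ((goodR M P c N l).card : ℝ) := by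
  have hPR : (0 : ℝ) < P := by exact_mod_cast hP
  have hMR : (1 : ℝ) ≤ M := by exact_mod_cast hM
  have hl : (0 : ℝ) ≤ l := by positivity
  have h := card_classes_ge c N hc (((M : ℝ) * (6 * l + 1) ^ 2 - 1) / (3 * P))
    (((M : ℝ) * (6 * l + 5) ^ 2 - 1) / (3 * P))
    (by
      apply div_nonneg _ (by positivity)
      nlinarith)
    (by
      rw [div_le_iff₀ (by positivity)]
      have : ((M * (6 * l + 5) ^ 2 : ℕ) : ℝ) ≤ ((3 * (P * N) : ℕ) : ℝ) := by exact_mod_cast hN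
      push_cast at this
      linarith)
  refine le_trans (le_of_eq ?_) h
  field_simp
  ring

/-- The counting argument: vanishing of the coefficients of `D^m` at `3^a r` gives many even
partition numbers. -/
theorem count_even (k m a x L : ℕ) (hm : 3 * m + 1 = 4 ^ k)
    (hid : ∀ n, psum (4 ^ k) n = coeff (8 * n + m) (Db ^ m))
    (hvan : ∀ r, ¬ 3 ∣ r → coeff (3 ^ a * r) (Db ^ m) = 0)
    (hL : L = Nat.sqrt (2 * x / (3 * 4 ^ k))) :
    2 * (4 : ℝ) ^ k * L ^ 2 / (3 * 3 ^ a) - 2 * L ≤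
      ((evenSet x).card : ℝ) * ((2 * L + 3) / 3 ^ a + 1) := by
  classical
  set M := 4 ^ k with hM
  set P := 3 ^ a with hP
  have hM1 : 1 ≤ M := Nat.one_le_pow _ _ (by norm_num)
  have hP1 : 1 ≤ P := Nat.one_le_pow _ _ (by norm_num)
  have hPodd : P % 2 = 1 := by
    rw [hP, Nat.pow_mod]; simp
  set c := (P * m) % 8 with hc
  have hLsq : 3 * M * (L * L) ≤ 2 * x := by
    have h1 : L * L ≤ 2 * x / (3 * M) := by rw [hL]; exact Nat.sqrt_le _
    calc 3 * M * (L * L) ≤ 3 * M * (2 * x / (3 * M)) := Nat.mul_le_mul_left _ h1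
      _ ≤ 2 * x := Nat.mul_div_le _ _
  have hLsq2 : 2 * x < 3 * M * ((L + 1) * (L + 1)) := by
    have h1 : 2 * x / (3 * M) < (L + 1) * (L + 1) := by rw [hL]; exact Nat.lt_succ_sqrt _
    rw [Nat.div_lt_iff_lt_mul (by positivity)] at h1
    calc 2 * x < (L + 1) * (L + 1) * (3 * M) := h1
      _ = 3 * M * ((L + 1) * (L + 1)) := by ring
  set N := M * (6 * L + 5) ^ 2 with hN
  set R := (Finset.range L).biUnion (fun l => goodR M P c N l) with hR
  -- lower bound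
  have hdisj : ((Finset.range L : Finset ℕ) : Set ℕ).PairwiseDisjoint (fun l => goodR M P c N l) := by
    intro l _ l' _ hne
    rw [Function.onFun, Finset.disjoint_left]
    intro r h h'
    rw [mem_goodR _ _ _ _ _ _ hP1] at h h'
    have key : ∀ u v : ℕ, u < v → M * (6 * v + 1) ^ 2 ≤ 3 * (P * r) + 1 →
        3 * (P * r) + 1 < M * (6 * u + 5) ^ 2 → False := by
      intro u v huv h5 h6
      have h7 : M * (6 * v + 1) ^ 2 < M * (6 * u + 5) ^ 2 := lt_of_le_of_lt h5 h6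
      have h8 : (6 * v + 1) ^ 2 < (6 * u + 5) ^ 2 := lt_of_mul_lt_mul_left h7 (by omega)
      have h9 : 6 * v + 1 < 6 * u + 5 := lt_of_pow_lt_pow_left₀ 2 (by omega) h8
      omega
    rcases lt_or_gt_of_ne hne with h1 | h1
    · exact key l l' h1 h'.2.2.1 h.2.2.2
    · exact key l' l h1 h.2.2.1 h'.2.2.2
  have hlow : 2 * (M : ℝ) * L ^ 2 / (3 * P) - 2 * L ≤ (R.card : ℝ) := by
    rw [hR, Finset.card_biUnion hdisj]
    push_cast
    have h1 : ∑ l ∈ Finset.range L, (2 * (M : ℝ) * (2 * l + 1) / (3 * P) - 2) ≤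
        ∑ l ∈ Finset.range L, ((goodR M P c N l).card : ℝ) := by
      refine Finset.sum_le_sum fun l hl => card_goodR M P c N l hM1 hP1 (Nat.mod_lt _ (by norm_num)) ?_
      have hl' := Finset.mem_range.mp hl
      have : M * (6 * l + 5) ^ 2 ≤ N :=
        Nat.mul_le_mul_left _ (Nat.pow_le_pow_left (by omega) 2)
      calc M * (6 * l + 5) ^ 2 ≤ N := this
        _ ≤ P * N := Nat.le_mul_of_pos_left _ hP1
        _ ≤ 3 * (P * N) := by omega
    refine le_trans (le_of_eq ?_) h1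
    have h2 : ∀ T : ℕ, ∑ l ∈ Finset.range T, (2 * (M : ℝ) * (2 * l + 1) / (3 * P) - 2) =
        2 * (M : ℝ) * T ^ 2 / (3 * P) - 2 * T := by
      intro T
      induction T with
      | zero => simp
      | succ T ih => rw [Finset.sum_range_succ, ih]; push_cast; ring
    exact (h2 L).symm
  -- upper bound
  set H : ℕ → Finset ℤ := fun e => (Finset.Icc (-((L + 1 : ℕ) : ℤ)) ((L + 1 : ℕ) : ℤ)).filter
      (fun j => 3 ^ a ∣ 8 * (e + 4 ^ k * pentagonal j) + m) with hH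
  have hsub : R ⊆ (evenSet x).biUnion
      (fun e => (H e).image (fun j => (8 * (e + 4 ^ k * pentagonal j) + m) / P)) := by
    intro r hr
    obtain ⟨l, hl, hrl⟩ := Finset.mem_biUnion.mp hr
    rw [mem_goodR _ _ _ _ _ _ hP1] at hrl
    obtain ⟨_, ⟨hr8, hr3⟩, hA, hB⟩ := hrl
    have hlL := Finset.mem_range.mp hl
    have g1 := (mod8_aux' P m r hPodd hr8)
    have hlow' : 3 * m + 1 ≤ 3 * (P * r) + 1 := by
      have : M * 1 ≤ M * (6 * l + 1) ^ 2 :=
        Nat.mul_le_mul_left _ (Nat.one_le_pow _ _ (by omega))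
      omega
    obtain ⟨n, hn⟩ : ∃ n, P * r = 8 * n + m := ⟨(P * r - m) / 8, by omega⟩
    have en : 3 * (P * r) + 1 = 24 * n + M := by omega
    rw [en] at hA hB
    have hcnt := cnt_odd M n l hM1 hA hB
    have hzero : psum M n = 0 := by
      rw [hid n, ← hn]; exact hvan r (by omega)
    have hex : ∃ j : ℤ, M * pentagonal j ≤ n ∧
        Even (Fintype.card (Nat.Partition (n - M * pentagonal j))) := by
      by_contra hcon
      push Not at hcon
      rw [psum_of_odd M n hcon, hcnt] at hzero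
      have : ((2 * l + 1 : ℕ) : ZMod 2) = 1 :=
        (ZMod.natCast_eq_one_iff_odd).mpr (odd_two_mul_add_one l)
      rw [this] at hzero
      exact absurd hzero (by decide)
    obtain ⟨j, hj1, hj2⟩ := hex
    have hnx : n ≤ x := by
      have h1 : M * (6 * l + 5) ^ 2 ≤ M * (6 * L) ^ 2 :=
        Nat.mul_le_mul_left _ (Nat.pow_le_pow_left (by omega) 2)
      have h2 : M * (6 * L) ^ 2 = 12 * (3 * M * (L * L)) := by ring
      omega
    have hjL : j ∈ Finset.Icc (-((L + 1 : ℕ) : ℤ)) ((L + 1 : ℕ) : ℤ) := by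
      have h1 := two_mul_natCast_pentagonal j
      have h2 : (2 : ℤ) * (M * pentagonal j) < 3 * M * ((L + 1) * (L + 1)) := by
        exact_mod_cast (by omega : 2 * (M * pentagonal j) < 3 * M * ((L + 1) * (L + 1)))
      have h3 : (2 : ℤ) * pentagonal j < 3 * ((L + 1) * (L + 1)) := by
        have hMZ : (0 : ℤ) < M := by exact_mod_cast hM1
        have : (M : ℤ) * (2 * pentagonal j) < M * (3 * ((L + 1) * (L + 1))) := by linarith
        exact lt_of_mul_lt_mul_left this hMZ.le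
      rw [h1] at h3
      rw [Finset.mem_Icc]
      push_cast
      exact jbound j L h3
    refine Finset.mem_biUnion.mpr ⟨n - M * pentagonal j, ?_, Finset.mem_image.mpr ⟨j, ?_, ?_⟩⟩
    · unfold evenSet
      rw [Finset.mem_filter, Finset.mem_range]; exact ⟨by omega, hj2⟩
    · rw [Finset.mem_filter]
      refine ⟨hjL, r, ?_⟩
      rw [← hM, ← hP, Nat.sub_add_cancel hj1, ← hn]
    · rw [← hM, Nat.sub_add_cancel hj1, ← hn]
      exact Nat.mul_div_cancel_left _ hP1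
  have h1 := (Finset.card_le_card hsub).trans Finset.card_biUnion_le
  have h2 : ∀ e ∈ evenSet x,
      ((((H e).image (fun j => (8 * (e + 4 ^ k * pentagonal j) + m) / P)).card : ℕ) : ℝ) ≤
      (2 * L + 3) / 3 ^ a + 1 := by
    intro e _
    have g1 := card_hits3_le k m (L + 1) a e
    have g3 : (((H e).image (fun j => (8 * (e + 4 ^ k * pentagonal j) + m) / P)).card : ℝ) ≤
        ((H e).card : ℝ) := by exact_mod_cast Finset.card_image_le
    refine g3.trans (g1.trans (le_of_eq ?_))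
    push_cast; ring
  have h3 : (R.card : ℝ) ≤ ∑ e ∈ evenSet x,
      ((((H e).image (fun j => (8 * (e + 4 ^ k * pentagonal j) + m) / P)).card : ℕ) : ℝ) := by
    exact_mod_cast h1
  have h4 := h3.trans (Finset.sum_le_sum h2)
  rw [Finset.sum_const, nsmul_eq_mul] at h4
  refine le_trans (le_of_eq ?_) (hlow.trans h4)
  rw [hM, hP]; push_cast; ring

end Pool.Agent.H397R2.PP
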