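import Pool.Agent.H397R2.PP.D4

set_option autoImplicit false

namespace Pool.Agent.H397R2.PP

open PowerSeries

theorem even_two_partition (hid : ∀ n, psum (4 ^ 0) n = coeff (8 * n + 0) (Db ^ 0)) :
    Even (Fintype.card (Nat.Partition 2)) := by
  have h := hid 2
  rw [pow_zero, pow_zero, coeff_one, if_neg (by norm_num)] at h
  unfold psum at h
  have hI : Finset.Icc (-((2 : ℕ) : ℤ)) (2 : ℕ) = {-2, -1, 0, 1, 2} := by decide
  rw [hI] at h
  have e1 : pentagonal (-2) = 7 := by decide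
  have e2 : pentagonal (-1) = 2 := by decide
  have e3 : pentagonal 0 = 0 := by decide
  have e4 : pentagonal 1 = 1 := by decide
  have e5 : pentagonal 2 = 5 := by decide
  rw [Finset.sum_insert (by decide), Finset.sum_insert (by decide), Finset.sum_insert (by decide),
    Finset.sum_insert (by decide), Finset.sum_singleton, e1, e2, e3, e4, e5] at h
  norm_num at h
  rw [← ZMod.natCast_eq_zero_iff_even]
  have : (1 : ZMod 2) + 1 = 0 := by decide
  push_cast at h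
  linear_combination h - this
theorem evenSet_two (hid : ∀ n, psum (4 ^ 0) n = coeff (8 * n + 0) (Db ^ 0))
    (x : ℕ) (hx : 2 ≤ x) : 1 ≤ (evenSet x).card := by
  rw [Nat.one_le_iff_ne_zero, Finset.card_ne_zero]
  refine ⟨2, ?_⟩
  unfold evenSet
  rw [Finset.mem_filter, Finset.mem_range]
  exact ⟨by omega, even_two_partition hid⟩

theorem sqrt_le_of (x L : ℕ) (M : ℝ) (hM : 0 ≤ M) (h : 2 * (x : ℝ) ≤ 3 * M ^ 2 * (L + 1) ^ 2) :
    Real.sqrt x ≤ 1.2248 * M * (L + 1) := by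
  rw [Real.sqrt_le_left (by positivity)]
  have : (0 : ℝ) ≤ M ^ 2 * (L + 1) ^ 2 := by positivity
  nlinarith

/-- consequence of the count for `k = 0`. -/
theorem small_bound (hid : ∀ n, psum (4 ^ 0) n = coeff (8 * n + 0) (Db ^ 0)) (x L : ℕ) (β γ : ℝ)
    (hL : L = Nat.sqrt (2 * x / 3)) (hβ : Real.log x ≤ β) (hβ0 : 0 ≤ β)
    (hγ : 1.2248 * β / 50 ≤ γ)
    (hfin : γ * (L + 1) * (2 * L + 4) ≤ 2 * (L : ℝ) ^ 2 / 3 - 2 * L) :
    Real.sqrt x * Real.log x / 50 ≤ (evenSet x).card := by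
  have h := count_even 0 0 0 x L (by norm_num) hid (by
    intro r hr
    rw [pow_zero, pow_zero, one_mul, coeff_one, if_neg]
    rintro rfl
    exact hr (dvd_zero _)) (by rw [hL]; simp)
  simp only [pow_zero, mul_one, div_one] at h
  have hLsq2 : 2 * x < 3 * ((L + 1) * (L + 1)) := by
    have h1 : 2 * x / 3 < (L + 1) * (L + 1) := by rw [hL]; exact Nat.lt_succ_sqrt _
    omega
  have hs := sqrt_le_of x L 1 (by norm_num) (by
    have : ((2 * x : ℕ) : ℝ) ≤ ((3 * ((L + 1) * (L + 1)) : ℕ) : ℝ) := by exact_mod_cast hLsq2.le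
    push_cast at this
    linarith)
  have hL0 : (0 : ℝ) ≤ L := by positivity
  have h1 : Real.sqrt x * Real.log x / 50 ≤ γ * (L + 1) := by
    have h2 : Real.sqrt x * Real.log x ≤ (1.2248 * 1 * (L + 1)) * β :=
      mul_le_mul hs hβ (by
        rcases Nat.eq_zero_or_pos x with rfl | hx
        · simp
        · exact Real.log_nonneg (by exact_mod_cast hx)) (by positivity)
    have h3 : (1.2248 * β / 50) * (L + 1) ≤ γ * (L + 1) :=
      mul_le_mul_of_nonneg_right hγ (by positivity)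
    linarith
  have h4 : Real.sqrt x * Real.log x / 50 * (2 * L + 4) ≤ (evenSet x).card * (2 * L + 4) := by
    have h5 : Real.sqrt x * Real.log x / 50 * (2 * L + 4) ≤ γ * (L + 1) * (2 * L + 4) :=
      mul_le_mul_of_nonneg_right h1 (by positivity)
    linarith
  exact le_of_mul_le_mul_right h4 (by positivity)

theorem log_le_of_lt_two_pow (x s : ℕ) (hx : x < 2 ^ s) : Real.log x ≤ 0.6931471808 * s := by
  rcases Nat.eq_zero_or_pos x with rfl | hx0
  · simp only [Nat.cast_zero, Real.log_zero]; positivity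
  have h1 : Real.log x ≤ Real.log (2 ^ s) :=
    Real.log_le_log (by exact_mod_cast hx0) (by exact_mod_cast hx.le)
  rw [Real.log_pow] at h1
  have h2 := Real.log_two_lt_d9
  have h3 : (0 : ℝ) ≤ s := by positivity
  nlinarith

theorem even_small (hid : ∀ n, psum (4 ^ 0) n = coeff (8 * n + 0) (Db ^ 0)) (x : ℕ) (hx : 2 ≤ x)
    (hx2 : x < 2 ^ 15) :
    Real.sqrt x * Real.log x / 50 ≤ (evenSet x).card := by
  rcases lt_or_ge x 100 with h1 | h1
  · have h2 := log_le_of_lt_two_pow x 7 (by omega)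
    have h3 : Real.sqrt x ≤ 10 := by
      rw [Real.sqrt_le_left (by norm_num)]
      have : (x : ℝ) ≤ 100 := by exact_mod_cast h1.le
      linarith
    have h4 : (1 : ℝ) ≤ (evenSet x).card := by exact_mod_cast evenSet_two hid x hx
    have h5 : 0 ≤ Real.log x := Real.log_nonneg (by exact_mod_cast (by omega : 1 ≤ x))
    have h6 := Real.sqrt_nonneg (x : ℝ)
    norm_num at h2
    nlinarith
  obtain ⟨L, hL⟩ : ∃ L, L = Nat.sqrt (2 * x / 3) := ⟨_, rfl⟩
  rcases lt_or_ge x 256 with h2 | h2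
  · refine small_bound hid x L 5.5452 0.13585 hL ?_ (by norm_num) (by norm_num) ?_
    · have := log_le_of_lt_two_pow x 8 (by omega)
      norm_num at this ⊢; linarith
    · have hL8 : 8 ≤ L := by rw [hL, Nat.le_sqrt]; omega
      have : (8 : ℝ) ≤ L := by exact_mod_cast hL8
      nlinarith
  rcases lt_or_ge x 1024 with h3 | h3
  · refine small_bound hid x L 6.9315 0.1698 hL ?_ (by norm_num) (by norm_num) ?_
    · have := log_le_of_lt_two_pow x 10 (by omega)
      norm_num at this ⊢; linarith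
    · have hL8 : 13 ≤ L := by rw [hL, Nat.le_sqrt]; omega
      have : (13 : ℝ) ≤ L := by exact_mod_cast hL8
      nlinarith
  · refine small_bound hid x L 10.3973 0.2547 hL ?_ (by norm_num) (by norm_num) ?_
    · have := log_le_of_lt_two_pow x 15 (by omega)
      norm_num at this ⊢; linarith
    · have hL8 : 26 ≤ L := by rw [hL, Nat.le_sqrt]; omega
      have : (26 : ℝ) ≤ L := by exact_mod_cast hL8
      nlinarith

/-- the bound coming from a given `k`. -/
theorem large_bound (k m x L a : ℕ) (hk : 2 ≤ k) (hm : 3 * m + 1 = 4 ^ k)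
    (hid : ∀ n, psum (4 ^ k) n = coeff (8 * n + m) (Db ^ m))
    (ha : 1 ≤ a)
    (hvan : ∀ r, ¬ 3 ∣ r → coeff (3 ^ a * r) (Db ^ m) = 0)
    (hL : L = Nat.sqrt (2 * x / (3 * 4 ^ k))) (hcond : 10 * 3 ^ a ≤ L) :
    0.229 * 2 ^ k * Real.sqrt x ≤ (evenSet x).card := by
  have h := count_even k m a x L hm hid hvan hL
  have hP3 : (3 : ℝ) ≤ 3 ^ a := by
    calc (3 : ℝ) = 3 ^ 1 := by norm_num
      _ ≤ 3 ^ a := pow_le_pow_right₀ (by norm_num) ha
  have hcR : 10 * (3 : ℝ) ^ a ≤ L := by exact_mod_cast hcond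
  set P : ℝ := 3 ^ a with hP
  have hPpos : 0 < P := by linarith
  have hM16 : (16 : ℝ) ≤ 4 ^ k := by
    calc (16 : ℝ) = 4 ^ 2 := by norm_num
      _ ≤ 4 ^ k := pow_le_pow_right₀ (by norm_num) hk
  set M : ℝ := 4 ^ k with hM
  have hM2 : M = (2 ^ k) ^ 2 := by rw [hM, ← pow_mul, mul_comm, pow_mul]; norm_num
  have hLsq2 : 2 * x < 3 * 4 ^ k * ((L + 1) * (L + 1)) := by
    have h1 : 2 * x / (3 * 4 ^ k) < (L + 1) * (L + 1) := by rw [hL]; exact Nat.lt_succ_sqrt _
    rw [Nat.div_lt_iff_lt_mul (by positivity)] at h1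
    calc 2 * x < (L + 1) * (L + 1) * (3 * 4 ^ k) := h1
      _ = 3 * 4 ^ k * ((L + 1) * (L + 1)) := by ring
  have hs := sqrt_le_of x L (2 ^ k) (by positivity) (by
    have : ((2 * x : ℕ) : ℝ) ≤ ((3 * 4 ^ k * ((L + 1) * (L + 1)) : ℕ) : ℝ) := by
      exact_mod_cast hLsq2.le
    push_cast at this
    rw [← hM2, hM]
    linarith)
  have hL30 : (30 : ℝ) ≤ L := by linarith
  have hE : (0 : ℝ) ≤ (evenSet x).card := by positivity
  set E : ℝ := ((evenSet x).card : ℝ) with hEdef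
  -- multiply by P
  have h1 : 2 * M * L ^ 2 / 3 - 2 * L * P ≤ E * (2 * L + 3 + P) := by
    have h2 := mul_le_mul_of_nonneg_right h hPpos.le
    have e1 : (2 * M * L ^ 2 / (3 * P) - 2 * L) * P = 2 * M * L ^ 2 / 3 - 2 * L * P := by
      field_simp
    have e2 : E * ((2 * L + 3) / P + 1) * P = E * (2 * L + 3 + P) := by
      field_simp
    rw [e1, e2] at h2
    exact h2
  have h3 : E * (2 * L + 3 + P) ≤ E * (2.2 * L) := by
    apply mul_le_mul_of_nonneg_left _ hE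
    linarith
  have h4 : 2 * L * P ≤ 0.2 * L ^ 2 := by nlinarith
  have h5 : 0.29 * M * L * L ≤ E * L := by nlinarith
  have h6 : 0.29 * M * L ≤ E := le_of_mul_le_mul_right h5 (by linarith)
  refine le_trans ?_ h6
  have h7 : (2 : ℝ) ^ k * Real.sqrt x ≤ 2 ^ k * (1.2248 * 2 ^ k * (L + 1)) :=
    mul_le_mul_of_nonneg_left hs (by positivity)
  have h8 : (2 : ℝ) ^ k * (1.2248 * 2 ^ k * (L + 1)) = 1.2248 * M * (L + 1) := by
    rw [hM2]; ring
  have h9 : M * ((L : ℝ) + 1) ≤ M * ((31 / 30) * L) := by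
    apply mul_le_mul_of_nonneg_left _ (by linarith)
    linarith
  rw [h8] at h7
  nlinarith

theorem even_values_of (hid : ∀ k m n, 3 * m + 1 = 4 ^ k →
      psum (4 ^ k) n = coeff (8 * n + m) (Db ^ m))
    (hvan : ∀ k m r, 2 ≤ k → 3 * m + 1 = 4 ^ k → ¬ 3 ∣ r →
      coeff (3 ^ (2 ^ (k - 1) - 1) * r) (Db ^ m) = 0)
    (x : ℕ) (hx : 2 ≤ x) :
    Real.sqrt x * Real.log x / 50 ≤ (evenSet x).card := by
  by_cases hc2 : 10 * 3 ^ (2 ^ (2 - 1) - 1) ≤ Nat.sqrt (2 * x / (3 * 4 ^ 2))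
  swap
  · apply even_small (fun n => hid 0 0 n (by norm_num)) x hx
    push Not at hc2
    rw [Nat.sqrt_lt'] at hc2
    norm_num at hc2 ⊢
    omega
  -- maximal k
  have hex : ∃ k, 2 < k ∧ ¬ (10 * 3 ^ (2 ^ (k - 1) - 1) ≤ Nat.sqrt (2 * x / (3 * 4 ^ k))) := by
    refine ⟨x + 3, by omega, ?_⟩
    push Not
    have h1 : 2 * x / (3 * 4 ^ (x + 3)) = 0 := by
      apply Nat.div_eq_of_lt
      have h2 : x + 3 < 4 ^ (x + 3) := Nat.lt_pow_self (by norm_num)
      omega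
    rw [h1]; simp
  classical
  obtain ⟨hk2, hkf⟩ := Nat.find_spec hex
  have hmin := fun j (hj : j < Nat.find hex) => Nat.find_min hex hj
  set k1 := Nat.find hex with hk1
  obtain ⟨K, hK⟩ : ∃ K, k1 = K + 1 := ⟨k1 - 1, by omega⟩
  rw [hK] at hkf hk2 hmin
  have hK2 : 2 ≤ K := by omega
  have hcK : 10 * 3 ^ (2 ^ (K - 1) - 1) ≤ Nat.sqrt (2 * x / (3 * 4 ^ K)) := by
    rcases Nat.eq_or_lt_of_le hK2 with h | h
    · rw [← h]; exact hc2
    · have := hmin K (by omega)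
      by_contra hcon
      exact this ⟨h, hcon⟩
  obtain ⟨m, hm⟩ : ∃ m, 3 * m + 1 = 4 ^ K := by
    have h1 : 4 ^ K % 3 = 1 := by rw [Nat.pow_mod]; simp
    have h2 := Nat.div_add_mod (4 ^ K) 3
    rw [h1] at h2
    exact ⟨4 ^ K / 3, h2⟩
  have ha : 1 ≤ 2 ^ (K - 1) - 1 := by
    have : 2 ^ 1 ≤ 2 ^ (K - 1) := Nat.pow_le_pow_right (by norm_num) (by omega)
    omega
  have hB := large_bound K m x _ (2 ^ (K - 1) - 1) hK2 hm (fun n => hid K m n hm) ha
    (fun r hr => hvan K m r hK2 hm hr) rfl hcK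
  refine le_trans ?_ hB
  -- bound for log x
  push Not at hkf
  rw [Nat.sqrt_lt', Nat.div_lt_iff_lt_mul (by positivity)] at hkf
  simp only [Nat.add_sub_cancel] at hkf
  have hx0 : (0 : ℝ) < x := by exact_mod_cast (by omega : 0 < x)
  have hpw : (10 * 3 ^ (2 ^ K - 1)) ^ 2 * (3 * 4 ^ (K + 1)) = 1200 * 4 ^ K * 9 ^ (2 ^ K - 1) := by
    rw [mul_pow, ← pow_mul, mul_comm (2 ^ K - 1) 2, pow_mul]; ring
  rw [hpw] at hkf
  have hxlt : (x : ℝ) ≤ 600 * 4 ^ K * 9 ^ (2 ^ K - 1) := by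
    have : x ≤ 600 * 4 ^ K * 9 ^ (2 ^ K - 1) := by
      have e : 1200 * 4 ^ K * 9 ^ (2 ^ K - 1) = 2 * (600 * 4 ^ K * 9 ^ (2 ^ K - 1)) := by ring
      omega
    exact_mod_cast this
  have hlog : Real.log x ≤ Real.log 600 + K * Real.log 4 + ((2 ^ K - 1 : ℕ) : ℝ) * Real.log 9 := by
    have h1 := Real.log_le_log hx0 hxlt
    rw [Real.log_mul (by positivity) (by positivity), Real.log_mul (by positivity) (by positivity),
      Real.log_pow, Real.log_pow] at h1
    exact h1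
  have hl2 := Real.log_two_lt_d9
  have hl2' := Real.log_two_gt_d9
  have hl600 : Real.log 600 ≤ 10 * Real.log 2 := by
    rw [show (10 : ℝ) * Real.log 2 = ((10 : ℕ) : ℝ) * Real.log 2 by norm_num, ← Real.log_pow]
    exact Real.log_le_log (by norm_num) (by norm_num)
  have hl4 : Real.log 4 = 2 * Real.log 2 := by
    rw [show (4 : ℝ) = 2 ^ 2 by norm_num, Real.log_pow]; norm_num
  have hl9 : 5 * Real.log 9 ≤ 16 * Real.log 2 := by
    rw [show (5 : ℝ) * Real.log 9 = ((5 : ℕ) : ℝ) * Real.log 9 by norm_num,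
      show (16 : ℝ) * Real.log 2 = ((16 : ℕ) : ℝ) * Real.log 2 by norm_num, ← Real.log_pow,
      ← Real.log_pow]
    exact Real.log_le_log (by norm_num) (by norm_num)
  have hKle : (K : ℝ) ≤ 2 ^ K / 2 := by
    have h1 : K - 1 < 2 ^ (K - 1) := Nat.lt_two_pow_self
    have h2 : 2 ^ K = 2 * 2 ^ (K - 1) := by
      obtain ⟨t, rfl⟩ : ∃ t, K = t + 1 := ⟨K - 1, by omega⟩
      rw [Nat.add_sub_cancel, pow_succ']
    have h3 : 2 * K ≤ 2 ^ K := by omega
    have h4 : 2 * (K : ℝ) ≤ 2 ^ K := by exact_mod_cast h3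
    linarith
  have h4K : (4 : ℝ) ≤ 2 ^ K := by
    calc (4 : ℝ) = 2 ^ 2 := by norm_num
      _ ≤ 2 ^ K := pow_le_pow_right₀ (by norm_num) hK2
  have hcast : ((2 ^ K - 1 : ℕ) : ℝ) = 2 ^ K - 1 := by
    rw [Nat.cast_sub Nat.one_le_two_pow]; push_cast; ring
  rw [hcast, hl4] at hlog
  have hlog2 : Real.log x ≤ 4.1 * 2 ^ K := by
    have e1 : ((2 : ℝ) ^ K - 1) * Real.log 9 ≤ (2 ^ K - 1) * (16 / 5 * Real.log 2) := by
      apply mul_le_mul_of_nonneg_left _ (by linarith)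
      linarith
    have e2 : (K : ℝ) * (2 * Real.log 2) ≤ 2 ^ K / 2 * (2 * Real.log 2) := by
      apply mul_le_mul_of_nonneg_right hKle (by linarith)
    have e3 : Real.log x ≤ Real.log 2 * (6.8 + 4.2 * 2 ^ K) := by nlinarith
    have e4 : Real.log 2 * (6.8 + 4.2 * 2 ^ K) ≤ 0.6931471808 * (6.8 + 4.2 * 2 ^ K) := by
      apply mul_le_mul_of_nonneg_right hl2.le (by positivity)
    nlinarith
  have hs := Real.sqrt_nonneg (x : ℝ)
  have h1 : Real.sqrt x * Real.log x ≤ Real.sqrt x * (4.1 * 2 ^ K) :=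
    mul_le_mul_of_nonneg_left hlog2 hs
  have h2 : 0 ≤ Real.sqrt x * 2 ^ K := by positivity
  nlinarith

end Pool.Agent.H397R2.PP
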