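import Mathlib

set_option autoImplicit false

/-! Parity of the partition function and mod 2 modular forms: common definitions. -/

namespace Pool.Agent.H397R2.PP

open PowerSeries MatrixGroups

/-- The `q`-expansion `q ∏ (1 - q^n)^24` of the discriminant, over `ℤ`
(`pentagonalSeries` is `∏ (1 - X^n)` by Euler's pentagonal number theorem). -/
noncomputable def Dz : ℤ⟦X⟧ := X * (pentagonalSeries ℤ) ^ 24

/-- The same series modulo 2. -/
noncomputable def Db : (ZMod 2)⟦X⟧ := X * (pentagonalSeries (ZMod 2)) ^ 24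

/-- The Hecke operator `T_p` of weight `w` on integral power series. -/
noncomputable def TpZ (w p : ℕ) (P : ℤ⟦X⟧) : ℤ⟦X⟧ :=
  PowerSeries.mk fun n => coeff (p * n) P + if p ∣ n then (p : ℤ) ^ (w - 1) * coeff (n / p) P else 0

/-- The Hecke operator `T_p` modulo 2. -/
noncomputable def Tp (p : ℕ) (φ : (ZMod 2)⟦X⟧) : (ZMod 2)⟦X⟧ :=
  PowerSeries.mk fun n => coeff (p * n) φ + if p ∣ n then coeff (n / p) φ else 0

/-- `P` is the `q`-expansion of a modular form of weight `12 m` and level one. -/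
def IsMF (m : ℕ) (P : ℤ⟦X⟧) : Prop :=
  ∃ f : ModularForm 𝒮ℒ (12 * (m : ℤ)),
    UpperHalfPlane.qExpansion 1 f = P.map (Int.castRingHom ℂ)

end Pool.Agent.H397R2.PP
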