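import Pool.Agent.H397R2.PP.A

set_option autoImplicit false

namespace Pool.Agent.H397R2.PP

open PowerSeries

/-- the weight of a base 4 digit -/
def wdig (d : ℕ) : ℕ := if d = 0 then 0 else if d = 3 then 2 else 1

/-- the content of `n`: sum of `2^i * wdig (i-th base 4 digit of n)` -/
def cont (n : ℕ) : ℕ :=
  if h : n = 0 then 0 else wdig (n % 4) + 2 * cont (n / 4)
termination_by n
decreasing_by exact Nat.div_lt_self (Nat.pos_of_ne_zero h) (by norm_num)

namespace NIL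

theorem cont_zero : cont 0 = 0 := by rw [cont]; simp

theorem cont_digit (n d : ℕ) (hd : d < 4) : cont (4 * n + d) = wdig d + 2 * cont n := by
  by_cases h : 4 * n + d = 0
  · have hn : n = 0 := by omega
    have hd0 : d = 0 := by omega
    subst hn hd0
    simp [cont_zero, wdig]
  · rw [cont, dif_neg h]
    have h1 : (4 * n + d) % 4 = d := by omega
    have h2 : (4 * n + d) / 4 = n := by omega
    rw [h1, h2]

theorem c0 (n : ℕ) : cont (4 * n) = 2 * cont n := by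
  have := cont_digit n 0 (by norm_num)
  simpa [wdig] using this

theorem c1 (n : ℕ) : cont (4 * n + 1) = 1 + 2 * cont n := by
  have := cont_digit n 1 (by norm_num)
  simpa [wdig] using this

theorem c2 (n : ℕ) : cont (4 * n + 2) = 1 + 2 * cont n := by
  have := cont_digit n 2 (by norm_num)
  simpa [wdig] using this

theorem c3 (n : ℕ) : cont (4 * n + 3) = 2 + 2 * cont n := by
  have := cont_digit n 3 (by norm_num)
  simpa [wdig] using this

theorem split4 (n : ℕ) : ∃ m d, d < 4 ∧ n = 4 * m + d :=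
  ⟨n / 4, n % 4, Nat.mod_lt _ (by norm_num), by omega⟩

theorem cont_add_one (n : ℕ) : cont (n + 1) ≤ cont n + 1 := by
  induction n using Nat.strong_induction_on with
  | _ n ih =>
    obtain ⟨m, d, hd, rfl⟩ := split4 n
    interval_cases d
    · rw [add_zero, c0, c1]; omega
    · rw [show 4 * m + 1 + 1 = 4 * m + 2 by ring, c1, c2]; omega
    · rw [show 4 * m + 2 + 1 = 4 * m + 3 by ring, c2, c3]; omega
    · rw [show 4 * m + 3 + 1 = 4 * (m + 1) by ring, c0, c3]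
      have := ih m (by omega)
      omega

theorem cont_add_two (n : ℕ) : cont (n + 2) ≤ cont n + 1 := by
  obtain ⟨m, d, hd, rfl⟩ := split4 n
  have := cont_add_one m
  interval_cases d
  · rw [add_zero, c0, c2]; omega
  · rw [show 4 * m + 1 + 2 = 4 * m + 3 by ring, c1, c3]; omega
  · rw [show 4 * m + 2 + 2 = 4 * (m + 1) by ring, c0, c2]; omega
  · rw [show 4 * m + 3 + 2 = 4 * (m + 1) + 1 by ring, c1, c3]; omega

theorem L1 (i n : ℕ) : cont (n + 4 ^ i) ≤ cont n + 2 ^ i := by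
  induction i generalizing n with
  | zero => simpa using cont_add_one n
  | succ i ih =>
    obtain ⟨m, d, hd, rfl⟩ := split4 n
    have h1 : 4 * m + d + 4 ^ (i + 1) = 4 * (m + 4 ^ i) + d := by ring
    rw [h1, cont_digit _ _ hd, cont_digit _ _ hd, pow_succ]
    have := ih m
    omega

theorem L2 (i n : ℕ) : cont (n + 2 * 4 ^ i) ≤ cont n + 2 ^ i := by
  induction i generalizing n with
  | zero => simpa using cont_add_two n
  | succ i ih =>
    obtain ⟨m, d, hd, rfl⟩ := split4 n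
    have h1 : 4 * m + d + 2 * 4 ^ (i + 1) = 4 * (m + 2 * 4 ^ i) + d := by ring
    rw [h1, cont_digit _ _ hd, cont_digit _ _ hd, pow_succ]
    have := ih m
    omega

theorem cont_vals : cont 1 = 1 ∧ cont 2 = 1 ∧ cont 3 = 2 ∧ cont 4 = 2 ∧ cont 5 = 3 ∧ cont 6 = 3 ∧
    cont 7 = 4 ∧ cont 8 = 2 ∧ cont 9 = 3 ∧ cont 10 = 3 ∧ cont 11 = 4 ∧ cont 12 = 4 ∧
    cont 13 = 5 ∧ cont 14 = 5 ∧ cont 15 = 6 := by
  have h0 := cont_zero
  have h1 : cont 1 = 1 := by have := c1 0; simpa [h0] using this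
  have h2 : cont 2 = 1 := by have := c2 0; simpa [h0] using this
  have h3 : cont 3 = 2 := by have := c3 0; simpa [h0] using this
  refine ⟨h1, h2, h3, ?_, ?_, ?_, ?_, ?_, ?_, ?_, ?_, ?_, ?_, ?_, ?_⟩
  · have := c0 1; simpa [h1] using this
  · have := c1 1; simpa [h1] using this
  · have := c2 1; simpa [h1] using this
  · have := c3 1; simpa [h1] using this
  · have := c0 2; simpa [h2] using this
  · have := c1 2; simpa [h2] using this
  · have := c2 2; simpa [h2] using this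
  · have := c3 2; simpa [h2] using this
  · have := c0 3; simpa [h3] using this
  · have := c1 3; simpa [h3] using this
  · have := c2 3; simpa [h3] using this
  · have := c3 3; simpa [h3] using this

theorem L3 (i n : ℕ) (h : (4 ^ (i + 1) ≤ n ∧ n < 2 * 4 ^ (i + 1)) ∨
    (3 * 4 ^ (i + 1) ≤ n ∧ n < 4 ^ (i + 2))) :
    cont (n - 4 ^ (i + 1)) + 2 ^ (i + 1) ≤ cont n ∧ cont (n - 3 * 4 ^ i) + 2 ^ i ≤ cont n := by
  induction i generalizing n with
  | zero =>
    obtain ⟨h1, h2, h3, h4, h5, h6, h7, h8, h9, h10, h11, h12, h13, h14, h15⟩ := cont_vals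
    have h0 := cont_zero
    norm_num at h ⊢
    have hn : 4 ≤ n ∧ n < 16 := by omega
    obtain ⟨ha, hb⟩ := hn
    interval_cases n <;> simp_all
  | succ i ih =>
    obtain ⟨m, d, hd, rfl⟩ := split4 n
    have e1 : 4 ^ (i + 1 + 1) = 4 * 4 ^ (i + 1) := by ring
    have e2 : 4 ^ (i + 1 + 2) = 4 * 4 ^ (i + 2) := by ring
    have e3 : 4 ^ (i + 2) = 4 * 4 ^ (i + 1) := by ring
    have e4 : 4 ^ (i + 1) = 4 * 4 ^ i := by ring
    have e5 : 2 ^ (i + 1 + 1) = 2 * 2 ^ (i + 1) := by ring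
    have e6 : 2 ^ (i + 1) = 2 * 2 ^ i := by ring
    have hm : (4 ^ (i + 1) ≤ m ∧ m < 2 * 4 ^ (i + 1)) ∨
        (3 * 4 ^ (i + 1) ≤ m ∧ m < 4 ^ (i + 2)) := by
      rw [e1, e2] at h
      omega
    obtain ⟨ih1, ih2⟩ := ih m hm
    have f1 : 4 * m + d - 4 ^ (i + 1 + 1) = 4 * (m - 4 ^ (i + 1)) + d := by omega
    have f2 : 4 * m + d - 3 * 4 ^ (i + 1) = 4 * (m - 3 * 4 ^ i) + d := by omega
    rw [f1, f2, cont_digit _ _ hd, cont_digit _ _ hd, cont_digit _ _ hd, e5]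
    constructor
    · omega
    · omega

theorem L4 (i n : ℕ) (h : 2 * 4 ^ (i + 1) ≤ n ∧ n < 3 * 4 ^ (i + 1)) :
    cont (n - 2 * 4 ^ (i + 1)) + 2 ^ (i + 1) ≤ cont n ∧
    cont (n - 6 * 4 ^ i) + 2 ^ i ≤ cont n := by
  induction i generalizing n with
  | zero =>
    obtain ⟨h1, h2, h3, h4, h5, h6, h7, h8, h9, h10, h11, h12, h13, h14, h15⟩ := cont_vals
    have h0 := cont_zero
    norm_num at h ⊢
    obtain ⟨ha, hb⟩ := h
    interval_cases n <;> simp_all
  | succ i ih =>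
    obtain ⟨m, d, hd, rfl⟩ := split4 n
    have e1 : 4 ^ (i + 1 + 1) = 4 * 4 ^ (i + 1) := by ring
    have e4 : 4 ^ (i + 1) = 4 * 4 ^ i := by ring
    have e5 : 2 ^ (i + 1 + 1) = 2 * 2 ^ (i + 1) := by ring
    have e6 : 2 ^ (i + 1) = 2 * 2 ^ i := by ring
    have hm : 2 * 4 ^ (i + 1) ≤ m ∧ m < 3 * 4 ^ (i + 1) := by
      rw [e1] at h
      omega
    obtain ⟨ih1, ih2⟩ := ih m hm
    have f1 : 4 * m + d - 2 * 4 ^ (i + 1 + 1) = 4 * (m - 2 * 4 ^ (i + 1)) + d := by omega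
    have f2 : 4 * m + d - 6 * 4 ^ (i + 1) = 4 * (m - 6 * 4 ^ i) + d := by omega
    rw [f1, f2, cont_digit _ _ hd, cont_digit _ _ hd, cont_digit _ _ hd, e5]
    constructor
    · omega
    · omega

/-- span of the odd powers of `Db` of content less than `c` -/
def WW (c : ℕ) : Submodule (ZMod 2) (ZMod 2)⟦X⟧ :=
  Submodule.span (ZMod 2) {φ | ∃ j, cont j < c ∧ φ = Db ^ (2 * j + 1)}

theorem WW_mono {c d : ℕ} (h : c ≤ d) : WW c ≤ WW d := by
  apply Submodule.span_mono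
  rintro φ ⟨j, hj, rfl⟩
  exact ⟨j, by omega, rfl⟩

theorem WW_mem {c j : ℕ} (h : cont j < c) : Db ^ (2 * j + 1) ∈ WW c :=
  Submodule.subset_span ⟨j, h, rfl⟩

theorem WW_mul {c b e t : ℕ} (h : ∀ j, cont (j + t) ≤ cont j + b) (he : e = 2 * t)
    {φ : (ZMod 2)⟦X⟧} (hφ : φ ∈ WW c) : Db ^ e * φ ∈ WW (c + b) := by
  induction hφ using Submodule.span_induction with
  | mem x hx =>
    obtain ⟨j, hj, rfl⟩ := hx
    have h1 : Db ^ e * Db ^ (2 * j + 1) = Db ^ (2 * (j + t) + 1) := by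
      rw [he, ← pow_add]; congr 1; ring
    rw [h1]
    apply WW_mem
    have := h j
    omega
  | zero => simp
  | add x y _ _ hx hy => rw [mul_add]; exact Submodule.add_mem _ hx hy
  | smul a x _ hx => rw [mul_smul_comm]; exact Submodule.smul_mem _ _ hx

theorem Tp_add (p : ℕ) (φ ψ : (ZMod 2)⟦X⟧) : Tp p (φ + ψ) = Tp p φ + Tp p ψ := by
  ext n
  simp only [Tp, coeff_mk, map_add]
  split_ifs <;> ring

theorem Tp_zero (p : ℕ) : Tp p (0 : (ZMod 2)⟦X⟧) = 0 := by
  ext n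
  simp [Tp]

theorem Tp_smul (p : ℕ) (a : ZMod 2) (φ : (ZMod 2)⟦X⟧) : Tp p (a • φ) = a • Tp p φ := by
  ext n
  simp only [Tp, coeff_mk, map_smul, smul_eq_mul]
  split_ifs <;> ring

/-- hypotheses: the recurrence and the initial values of `T_3` -/
structure T3H : Prop where
  recu : ∀ s k : ℕ, Tp 3 (Db ^ (k + 4 * 2 ^ s)) =
    Db ^ (2 ^ s) * Tp 3 (Db ^ (k + 2 ^ s)) + Db ^ (4 * 2 ^ s) * Tp 3 (Db ^ k)
  ini : Tp 3 (Db ^ 1) = 0 ∧ Tp 3 (Db ^ 3) = Db ^ 1 ∧ Tp 3 (Db ^ 5) = 0 ∧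
    Tp 3 (Db ^ 7) = Db ^ 5

theorem lower (H : T3H) (n : ℕ) : Tp 3 (Db ^ (2 * n + 1)) ∈ WW (cont n) := by
  induction n using Nat.strong_induction_on with
  | _ n ih =>
    obtain ⟨v1, v2, v3, -⟩ := cont_vals
    rcases Nat.lt_or_ge n 4 with hn | hn
    · obtain ⟨i1, i3, i5, i7⟩ := H.ini
      interval_cases n
      · rw [show 2 * 0 + 1 = 1 by norm_num, i1]; exact Submodule.zero_mem _
      · rw [show 2 * 1 + 1 = 3 by norm_num, i3, v1]
        exact WW_mem (j := 0) (by rw [cont_zero]; norm_num)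
      · rw [show 2 * 2 + 1 = 5 by norm_num, i5]; exact Submodule.zero_mem _
      · rw [show 2 * 3 + 1 = 7 by norm_num, i7, v3]
        exact WW_mem (j := 2) (by rw [v2]; norm_num)
    · -- the position of the leading digit
      obtain ⟨i, hi1, hi2⟩ : ∃ i, 4 ^ (i + 1) ≤ n ∧ n < 4 ^ (i + 2) := by
        have h1 : Nat.log 4 n ≠ 0 := by
          have := Nat.log_pos (b := 4) (by norm_num) hn
          omega
        refine ⟨Nat.log 4 n - 1, ?_, ?_⟩
        · rw [show Nat.log 4 n - 1 + 1 = Nat.log 4 n by omega]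
          exact Nat.pow_log_le_self 4 (by omega)
        · rw [show Nat.log 4 n - 1 + 2 = (Nat.log 4 n).succ by omega]
          exact Nat.lt_pow_succ_log_self (by norm_num) n
      have hpos : 0 < 4 ^ i := by positivity
      have e4 : 4 ^ (i + 1) = 4 * 4 ^ i := by ring
      have e5 : 4 ^ (i + 2) = 16 * 4 ^ i := by ring
      by_cases ha : 2 * 4 ^ (i + 1) ≤ n ∧ n < 3 * 4 ^ (i + 1)
      · obtain ⟨l1, l2⟩ := L4 i n ha
        have hs : 2 ^ (2 * i + 2) = 4 * 4 ^ i := by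
          rw [pow_add, pow_mul]; norm_num; ring
        have hr := H.recu (2 * i + 2) (2 * (n - 2 * 4 ^ (i + 1)) + 1)
        rw [hs] at hr
        have g1 : 2 * (n - 2 * 4 ^ (i + 1)) + 1 + 4 * (4 * 4 ^ i) = 2 * n + 1 := by omega
        have g2 : 2 * (n - 2 * 4 ^ (i + 1)) + 1 + 4 * 4 ^ i = 2 * (n - 6 * 4 ^ i) + 1 := by omega
        rw [g1, g2] at hr
        rw [hr]
        apply Submodule.add_mem
        · exact WW_mono l2 (WW_mul (L2 i) (by ring) (ih _ (by omega)))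
        · exact WW_mono l1 (WW_mul (L2 (i + 1)) (by ring) (ih _ (by omega)))
      · have ha' : (4 ^ (i + 1) ≤ n ∧ n < 2 * 4 ^ (i + 1)) ∨
            (3 * 4 ^ (i + 1) ≤ n ∧ n < 4 ^ (i + 2)) := by omega
        obtain ⟨l1, l2⟩ := L3 i n ha'
        have hs : 2 ^ (2 * i + 1) = 2 * 4 ^ i := by
          rw [pow_add, pow_mul]; norm_num; ring
        have hr := H.recu (2 * i + 1) (2 * (n - 4 ^ (i + 1)) + 1)
        rw [hs] at hr
        have g1 : 2 * (n - 4 ^ (i + 1)) + 1 + 4 * (2 * 4 ^ i) = 2 * n + 1 := by omega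
        have g2 : 2 * (n - 4 ^ (i + 1)) + 1 + 2 * 4 ^ i = 2 * (n - 3 * 4 ^ i) + 1 := by omega
        rw [g1, g2] at hr
        rw [hr]
        apply Submodule.add_mem
        · exact WW_mono l2 (WW_mul (L1 i) (by ring) (ih _ (by omega)))
        · exact WW_mono l1 (WW_mul (L1 (i + 1)) (by ring) (ih _ (by omega)))

theorem map_WW (H : T3H) {c : ℕ} {φ : (ZMod 2)⟦X⟧} (hφ : φ ∈ WW (c + 1)) : Tp 3 φ ∈ WW c := by
  induction hφ using Submodule.span_induction with
  | mem x hx =>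
    obtain ⟨j, hj, rfl⟩ := hx
    exact WW_mono (by omega) (lower H j)
  | zero => rw [Tp_zero]; exact Submodule.zero_mem _
  | add x y _ _ hx hy => rw [Tp_add]; exact Submodule.add_mem _ hx hy
  | smul a x _ hx => rw [Tp_smul]; exact Submodule.smul_mem _ _ hx

theorem iter_WW (H : T3H) (j c : ℕ) {φ : (ZMod 2)⟦X⟧} (hφ : φ ∈ WW (c + j)) :
    (Tp 3)^[j] φ ∈ WW c := by
  induction j generalizing φ with
  | zero => simpa using hφ
  | succ j ih =>
    rw [Function.iterate_succ_apply]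
    exact ih (map_WW H hφ)

theorem cont_eq_zero {j : ℕ} (h : cont j = 0) : j = 0 := by
  induction j using Nat.strong_induction_on with
  | _ j ih =>
    obtain ⟨m, d, hd, rfl⟩ := split4 j
    rw [cont_digit _ _ hd] at h
    have h1 : cont m = 0 := by omega
    have h2 : wdig d = 0 := by omega
    have h3 : d = 0 := by
      interval_cases d
      · rfl
      · simp [wdig] at h2
      · simp [wdig] at h2
      · simp [wdig] at h2
    subst h3
    by_contra hne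
    have := ih m (by omega) h1
    omega

/-- `m = (4^k-1)/3 = 2 m' + 1` with `cont m' = 2^(k-1) - 1` -/
theorem cont_m (k : ℕ) : ∃ m', 3 * (2 * m' + 1) + 1 = 4 ^ (k + 1) ∧ cont m' + 1 = 2 ^ k := by
  induction k with
  | zero => exact ⟨0, by norm_num, by rw [cont_zero]; norm_num⟩
  | succ k ih =>
    obtain ⟨m', h1, h2⟩ := ih
    refine ⟨4 * m' + 2, ?_, ?_⟩
    · rw [pow_succ, ← h1]; ring
    · rw [NIL.c2, pow_succ, ← h2]; ring

end NIL

open NIL in
/-- TASK NIL, part 1 (from Tp3_rec, Tp3_init). -/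
theorem Tp3_lower_of (H : T3H) (n : ℕ) : Tp 3 (Db ^ (2 * n + 1)) ∈
    Submodule.span (ZMod 2) {φ | ∃ j, cont j < cont n ∧ φ = Db ^ (2 * j + 1)} :=
  lower H n

open NIL in
/-- TASK NIL, part 2 (from Tp3_rec, Tp3_init). -/
theorem Tp3_nilp_of (H : T3H) (k m : ℕ) (hk : 1 ≤ k) (hm : 3 * m + 1 = 4 ^ k) :
    ∃ c : ZMod 2, (Tp 3)^[2 ^ (k - 1) - 1] (Db ^ m) = c • Db := by
  obtain ⟨k, rfl⟩ : ∃ k', k = k' + 1 := ⟨k - 1, by omega⟩
  obtain ⟨m', h1, h2⟩ := cont_m k
  have hmm : m = 2 * m' + 1 := by omega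
  rw [Nat.add_sub_cancel]
  have h3 : Db ^ m ∈ WW (1 + (2 ^ k - 1)) := by
    rw [hmm]
    apply WW_mem
    omega
  have h4 := iter_WW H (2 ^ k - 1) 1 h3
  have h5 : WW 1 ≤ Submodule.span (ZMod 2) {Db} := by
    apply Submodule.span_mono
    rintro φ ⟨j, hj, rfl⟩
    have : j = 0 := cont_eq_zero (by omega)
    subst this
    simp
  have h6 := h5 h4
  rw [Submodule.mem_span_singleton] at h6
  obtain ⟨c, hc⟩ := h6
  exact ⟨c, hc.symm⟩

end Pool.Agent.H397R2.PP
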