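import Pool.Agent.H397R2.PP.Defs

set_option autoImplicit false

namespace Pool.Agent.H397R2.PP

open PowerSeries MatrixGroups

/-- TASK A. -/
theorem partition_identity (k m n : ℕ) (hm : 3 * m + 1 = 4 ^ k) :
    (∑ j ∈ Finset.Icc (-(n : ℤ)) n,
      if 4 ^ k * pentagonal j ≤ n then
        (Fintype.card (Nat.Partition (n - 4 ^ k * pentagonal j)) : ZMod 2) else 0)
      = coeff (8 * n + m) (Db ^ m) := by
  sorry

/-- TASK B0. -/
theorem qExpansion_discriminant :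
    UpperHalfPlane.qExpansion 1 ModularForm.discriminant = Dz.map (Int.castRingHom ℂ) := by
  sorry

/-- TASK B1. -/
theorem IsMF.mem_span
    (hD : UpperHalfPlane.qExpansion 1 ModularForm.discriminant = Dz.map (Int.castRingHom ℂ))
    (m : ℕ) (P : ℤ⟦X⟧) (h : IsMF m P) :
    P.map (Int.castRingHom (ZMod 2)) ∈
      Submodule.span (ZMod 2) (Set.range fun j : Fin (m + 1) => Db ^ (j : ℕ)) := by
  sorry

/-- TASK B2. -/
theorem isMF_pow
    (hD : UpperHalfPlane.qExpansion 1 ModularForm.discriminant = Dz.map (Int.castRingHom ℂ))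
    (m : ℕ) : IsMF m (Dz ^ m) := by
  sorry

/-- TASK B3. -/
theorem IsMF.hecke (m : ℕ) (hm : 1 ≤ m) (P : ℤ⟦X⟧) (h : IsMF m P) (p : ℕ) (hp : p.Prime) :
    IsMF m (TpZ (12 * m) p P) := by
  sorry

open Classical in
/-- TASK R (rotation lemma). -/
theorem rotation (κ : ℝ) (h1 : 1 < κ) (h2 : κ ≤ 3 / 2) (L : ℕ) (hL : 1 ≤ L * (κ - 1)) :
    (18 : ℝ) / 100 * L ≤
      (((Finset.Icc 1 L).filter (fun l : ℕ => ∃ a : ℤ, (1 : ℝ) / 2 ≤ 6 * κ * l - 6 * a ∧
        6 * κ * l - 6 * a ≤ 11 / 2)).card : ℝ) := by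
  sorry

end Pool.Agent.H397R2.PP
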