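import Pool.Agent.H397R2.PP.A

set_option autoImplicit false

namespace Pool.Agent.H397R2.PP

open PowerSeries

open Classical in
/-- TASK Z (elementary number theory; no power series). -/
theorem card_rep (K : ℕ) (hK : K % 2 = 1) :
    ((((Finset.Icc 1 (4 * K)) ×ˢ (Finset.Icc 1 (4 * K))).filter (fun ab : ℕ × ℕ =>
      ab.1 % 2 = 1 ∧ ab.2 % 2 = 1 ∧ ab.1 ^ 2 + 3 * ab.2 ^ 2 = 4 * K)).card : ZMod 2)
    = (if ∃ u : ℕ, K = u ^ 2 then 1 else 0) + (if ∃ v : ℕ, K = 3 * v ^ 2 then 1 else 0) := by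
  sorry

open Classical in
/-- TASK TH, part 1 (uses card_rep). -/
theorem Db_eq_theta :
    Db = PowerSeries.mk fun n => if ∃ i : ℕ, n = (2 * i + 1) ^ 2 then (1 : ZMod 2) else 0 := by
  sorry

/-- TASK TH, part 2 (uses card_rep and Db_eq_theta). -/
theorem modular_equation :
    Db ^ 4 = Db * PowerSeries.expand 3 (by norm_num) Db +
      (PowerSeries.expand 3 (by norm_num) Db) ^ 4 := by
  sorry

/-- TASK T3, part 1 (uses modular_equation). -/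
theorem Tp3_rec (s k : ℕ) : Tp 3 (Db ^ (k + 4 * 2 ^ s)) =
    Db ^ (2 ^ s) * Tp 3 (Db ^ (k + 2 ^ s)) + Db ^ (4 * 2 ^ s) * Tp 3 (Db ^ k) := by
  sorry

/-- TASK T3, part 2. -/
theorem Tp3_init : Tp 3 (Db ^ 1) = 0 ∧ Tp 3 (Db ^ 3) = Db ^ 1 ∧ Tp 3 (Db ^ 5) = 0 ∧
    Tp 3 (Db ^ 7) = Db ^ 5 := by
  sorry

/-- the weight of a base 4 digit -/
def wdig (d : ℕ) : ℕ := if d = 0 then 0 else if d = 3 then 2 else 1

/-- the content of `n`: sum of `2^i * wdig (i-th base 4 digit of n)` -/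
def cont (n : ℕ) : ℕ :=
  if h : n = 0 then 0 else wdig (n % 4) + 2 * cont (n / 4)
termination_by n
decreasing_by exact Nat.div_lt_self (Nat.pos_of_ne_zero h) (by norm_num)

/-- TASK NIL, part 1 (uses Tp3_rec, Tp3_init). -/
theorem Tp3_lower (n : ℕ) : Tp 3 (Db ^ (2 * n + 1)) ∈
    Submodule.span (ZMod 2) {φ | ∃ j, cont j < cont n ∧ φ = Db ^ (2 * j + 1)} := by
  sorry

/-- TASK NIL, part 2. -/
theorem Tp3_nilp (k m : ℕ) (hk : 1 ≤ k) (hm : 3 * m + 1 = 4 ^ k) :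
    ∃ c : ZMod 2, (Tp 3)^[2 ^ (k - 1) - 1] (Db ^ m) = c • Db := by
  sorry

/-- TASK EXT (formal, arbitrary power series). -/
theorem coeff_iterate_Tp3 (s r : ℕ) (hr : ¬ 3 ∣ r) (φ : (ZMod 2)⟦X⟧) :
    coeff r ((Tp 3)^[2 ^ s - 1] φ) = coeff (3 ^ (2 ^ s - 1) * r) φ := by
  sorry

/-- TASK VAN (helper397). -/
theorem coeff_vanish (k m r : ℕ) (hk : 2 ≤ k) (hm : 3 * m + 1 = 4 ^ k) (hr : ¬ 3 ∣ r) :
    coeff (3 ^ (2 ^ (k - 1) - 1) * r) (Db ^ m) = 0 := by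
  sorry

end Pool.Agent.H397R2.PP
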