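import Pool.Agent.H397R2.PP.A

set_option autoImplicit false

/-!
# Task Z: parity of the number of odd solutions of `a² + 3b² = 4K` (helper143)
-/

namespace Pool.Agent.H397R2.PP

namespace ZZ

/-- the involution: the other odd associate in the Eisenstein integers -/
def inv (x : ℕ × ℕ) : ℕ × ℕ :=
  if x.1 % 4 = x.2 % 4 then (((x.1 : ℤ) - 3 * x.2).natAbs / 2, (x.1 + x.2) / 2)
  else ((x.1 + 3 * x.2) / 2, ((x.1 : ℤ) - x.2).natAbs / 2)

/-- positive odd solutions -/
def IsSol (K : ℕ) (x : ℕ × ℕ) : Prop :=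
  x.1 % 2 = 1 ∧ x.2 % 2 = 1 ∧ x.1 ^ 2 + 3 * x.2 ^ 2 = 4 * K

lemma inv_sol {K : ℕ} {x : ℕ × ℕ} (h : IsSol K x) : IsSol K (inv x) := by
  obtain ⟨a, b⟩ := x
  obtain ⟨ha, hb, hab⟩ := h
  simp only at ha hb hab
  have h5 : (a : ℤ) ^ 2 + 3 * (b : ℤ) ^ 2 = 4 * K := by exact_mod_cast hab
  unfold inv
  simp only
  split_ifs with h4
  · have e1 : ((a : ℤ) - 3 * b).natAbs / 2 * 2 = ((a : ℤ) - 3 * b).natAbs := by omega
    have e2 : (a + b) / 2 * 2 = a + b := by omega
    refine ⟨by simp only; omega, by simp only; omega, ?_⟩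
    simp only
    have h1 : ((((a : ℤ) - 3 * b).natAbs : ℕ) : ℤ) ^ 2 = ((a : ℤ) - 3 * b) ^ 2 := by
      rw [Int.natCast_natAbs, sq_abs]
    rw [← e1] at h1
    have h3 : (((a + b) / 2 : ℕ) : ℤ) * 2 = (a : ℤ) + b := by exact_mod_cast e2
    rw [Nat.cast_mul] at h1
    generalize ((a : ℤ) - 3 * b).natAbs / 2 = A at h1 ⊢
    generalize (a + b) / 2 = B at h3 ⊢
    have h6 : (A : ℤ) ^ 2 + 3 * (B : ℤ) ^ 2 = 4 * K := by
      have h7 : ((B : ℤ) * 2) ^ 2 = ((a : ℤ) + b) ^ 2 := by rw [h3]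
      push_cast at h1
      nlinarith
    exact_mod_cast h6
  · have e1 : ((a : ℤ) - b).natAbs / 2 * 2 = ((a : ℤ) - b).natAbs := by omega
    have e2 : (a + 3 * b) / 2 * 2 = a + 3 * b := by omega
    refine ⟨by simp only; omega, by simp only; omega, ?_⟩
    simp only
    have h1 : ((((a : ℤ) - b).natAbs : ℕ) : ℤ) ^ 2 = ((a : ℤ) - b) ^ 2 := by
      rw [Int.natCast_natAbs, sq_abs]
    rw [← e1] at h1
    have h3 : (((a + 3 * b) / 2 : ℕ) : ℤ) * 2 = (a : ℤ) + 3 * b := by exact_mod_cast e2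
    rw [Nat.cast_mul] at h1
    generalize ((a : ℤ) - b).natAbs / 2 = A at h1 ⊢
    generalize (a + 3 * b) / 2 = B at h3 ⊢
    have h6 : (B : ℤ) ^ 2 + 3 * (A : ℤ) ^ 2 = 4 * K := by
      have h7 : ((B : ℤ) * 2) ^ 2 = ((a : ℤ) + 3 * b) ^ 2 := by rw [h3]
      push_cast at h1
      nlinarith
    exact_mod_cast h6

lemma inv_inv {K : ℕ} {x : ℕ × ℕ} (h : IsSol K x) : inv (inv x) = x := by
  obtain ⟨a, b⟩ := x
  obtain ⟨ha, hb, -⟩ := h
  simp only at ha hb
  unfold inv
  simp only
  split_ifs <;> simp only [Prod.mk.injEq] <;> constructor <;> omega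

lemma inv_ne {K : ℕ} {x : ℕ × ℕ} (h : IsSol K x) (h1 : x.1 ≠ x.2) (h2 : x.1 ≠ 3 * x.2) :
    inv x ≠ x := by
  obtain ⟨a, b⟩ := x
  obtain ⟨ha, hb, -⟩ := h
  simp only at ha hb h1 h2
  unfold inv
  simp only
  split_ifs <;> simp only [ne_eq, Prod.mk.injEq] <;> omega

end ZZ

open ZZ in
open Classical in
/-- TASK Z (elementary number theory; no power series). -/
theorem card_rep (K : ℕ) (_hK : K % 2 = 1) :
    ((((Finset.Icc 1 (4 * K)) ×ˢ (Finset.Icc 1 (4 * K))).filter (fun ab : ℕ × ℕ =>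
      ab.1 % 2 = 1 ∧ ab.2 % 2 = 1 ∧ ab.1 ^ 2 + 3 * ab.2 ^ 2 = 4 * K)).card : ZMod 2)
    = (if ∃ u : ℕ, K = u ^ 2 then 1 else 0) + (if ∃ v : ℕ, K = 3 * v ^ 2 then 1 else 0) := by
  set S := ((Finset.Icc 1 (4 * K)) ×ˢ (Finset.Icc 1 (4 * K))).filter (fun ab : ℕ × ℕ =>
      ab.1 % 2 = 1 ∧ ab.2 % 2 = 1 ∧ ab.1 ^ 2 + 3 * ab.2 ^ 2 = 4 * K) with hS
  have hmem : ∀ x : ℕ × ℕ, x ∈ S ↔ IsSol K x := by
    intro x
    rw [hS, Finset.mem_filter, Finset.mem_product, Finset.mem_Icc, Finset.mem_Icc]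
    constructor
    · rintro ⟨-, h⟩
      exact h
    · intro h
      obtain ⟨h1, h2, h3⟩ := h
      refine ⟨⟨⟨by omega, ?_⟩, ⟨by omega, ?_⟩⟩, h1, h2, h3⟩ <;> nlinarith
  -- split off the fixed points
  have h0 : (S.card : ZMod 2) = ∑ x ∈ S, (1 : ZMod 2) := by simp
  rw [h0, ← Finset.sum_filter_add_sum_filter_not S (fun x => x.1 = x.2),
    ← Finset.sum_filter_add_sum_filter_not (S.filter fun x => ¬ x.1 = x.2) (fun x => x.1 = 3 * x.2)]
  have h1 : ∑ x ∈ S.filter (fun x => x.1 = x.2), (1 : ZMod 2) =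
      if ∃ u : ℕ, K = u ^ 2 then 1 else 0 := by
    split_ifs with hu
    · obtain ⟨u, hu⟩ := hu
      have : S.filter (fun x => x.1 = x.2) = {(u, u)} := by
        ext x
        rw [Finset.mem_filter, hmem, Finset.mem_singleton]
        obtain ⟨a, b⟩ := x
        constructor
        · rintro ⟨⟨h2, h3, h4⟩, h5⟩
          simp only at h2 h3 h4 h5
          have h6 : a = u := by
            rw [← h5, hu] at h4
            have : a ^ 2 = u ^ 2 := by omega
            exact Nat.pow_left_injective (n := 2) (by norm_num) this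
          rw [Prod.mk.injEq]
          exact ⟨h6, h5 ▸ h6⟩
        · intro h
          rw [h]
          have hodd : u % 2 = 1 := by
            rcases Nat.mod_two_eq_zero_or_one u with h | h
            · exfalso
              have : u ^ 2 % 2 = 0 := by rw [Nat.pow_mod, h]
              omega
            · exact h
          exact ⟨⟨hodd, hodd, by simp only; omega⟩, rfl⟩
      rw [this]
      simp
    · apply Finset.sum_eq_zero
      intro x hx
      exfalso
      rw [Finset.mem_filter, hmem] at hx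
      obtain ⟨⟨h2, h3, h4⟩, h5⟩ := hx
      apply hu
      refine ⟨x.1, ?_⟩
      rw [← h5] at h4
      omega
  have h2 : ∑ x ∈ (S.filter fun x => ¬ x.1 = x.2).filter (fun x => x.1 = 3 * x.2), (1 : ZMod 2) =
      if ∃ v : ℕ, K = 3 * v ^ 2 then 1 else 0 := by
    split_ifs with hv
    · obtain ⟨v, hv⟩ := hv
      have : (S.filter fun x => ¬ x.1 = x.2).filter (fun x => x.1 = 3 * x.2) = {(3 * v, v)} := by
        ext x
        rw [Finset.mem_filter, Finset.mem_filter, hmem, Finset.mem_singleton]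
        obtain ⟨a, b⟩ := x
        constructor
        · rintro ⟨⟨⟨h2, h3, h4⟩, -⟩, h5⟩
          simp only at h2 h3 h4 h5
          have h6 : b = v := by
            rw [h5, hv] at h4
            have : b ^ 2 = v ^ 2 := by nlinarith
            exact Nat.pow_left_injective (n := 2) (by norm_num) this
          rw [Prod.mk.injEq]
          exact ⟨by rw [h5, h6], h6⟩
        · intro h
          rw [h]
          have hodd : v % 2 = 1 := by
            rcases Nat.mod_two_eq_zero_or_one v with h | h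
            · exfalso
              have : v ^ 2 % 2 = 0 := by rw [Nat.pow_mod, h]
              omega
            · exact h
          refine ⟨⟨⟨by simp only; omega, hodd, ?_⟩, by simp only; omega⟩, rfl⟩
          simp only
          rw [hv]
          ring
      rw [this]
      simp
    · apply Finset.sum_eq_zero
      intro x hx
      exfalso
      rw [Finset.mem_filter, Finset.mem_filter, hmem] at hx
      obtain ⟨⟨⟨h2, h3, h4⟩, -⟩, h5⟩ := hx
      apply hv
      refine ⟨x.2, ?_⟩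
      rw [h5] at h4
      nlinarith
  have h3 : ∑ x ∈ (S.filter fun x => ¬ x.1 = x.2).filter (fun x => ¬ x.1 = 3 * x.2),
      (1 : ZMod 2) = 0 := by
    apply Finset.sum_involution (fun x _ => inv x)
    · intro x _
      decide
    · intro x hx _
      rw [Finset.mem_filter, Finset.mem_filter, hmem] at hx
      exact inv_ne hx.1.1 hx.1.2 hx.2
    · intro x hx
      rw [Finset.mem_filter, Finset.mem_filter, hmem] at hx ⊢
      obtain ⟨⟨g1, g2⟩, g3⟩ := hx
      refine ⟨⟨inv_sol g1, ?_⟩, ?_⟩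
      · intro h
        apply inv_ne g1 g2 g3
        have h4 := inv_inv g1
        obtain ⟨a, b⟩ := x
        obtain ⟨ha, hb, -⟩ := g1
        simp only at ha hb g2 g3
        unfold inv at h ⊢
        simp only at h ⊢
        split_ifs at h ⊢ <;> simp only [Prod.mk.injEq] <;> simp only at h <;> omega
      · intro h
        apply inv_ne g1 g2 g3
        obtain ⟨a, b⟩ := x
        obtain ⟨ha, hb, -⟩ := g1
        simp only at ha hb g2 g3
        unfold inv at h ⊢
        simp only at h ⊢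
        split_ifs at h ⊢ <;> simp only [Prod.mk.injEq] <;> simp only at h <;> omega
    · intro x hx
      rw [Finset.mem_filter, Finset.mem_filter, hmem] at hx
      exact inv_inv hx.1.1
  rw [h1, h2, h3, add_zero]

end Pool.Agent.H397R2.PP
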